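import Pool.Agent.Work.MP_8f87b2_base.Ret

/-!
MP_8f87b2_co: universal absorbers, certified by an insertion tree. `N` words `w 0, ..., w (N - 1)` of a permutation `f` of a
finite set; some of them (`F`, a bit mask) lie on closed fresh cycles which are known (`Z`), all the others lie on ONE cycle
of `f` in unknown order, known are only some arcs (`A`). A certificate `code` for the checker `run` proves that some
permutation `π` of the words along allowed images (`al`) makes one cycle of everything.
-/

namespace Pool.OddHC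

open Finset Equiv

namespace Abs

/-! ### The checker -/

/-- digit `i` in base 32 -/
def dig (X i : ℕ) : ℕ := (X >>> (5 * i)) % 32

/-- bit `i` -/
def bit (M i : ℕ) : Bool := Nat.beq ((M >>> i) % 2) 1

/-- bit mask of a list -/
def msk : List ℕ → ℕ → ℕ
  | [], a => a
  | x :: l, a => msk l (a ||| (1 <<< x))

/-- the successor `y` of `x` does not contradict the arc at `x` -/
def okpair (A m x y : ℕ) : Bool := !(bit m (dig A x)) || Nat.beq y (dig A x)

/-- the cyclic list (which starts with `x0`) does not contradict the arcs -/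
def okp (A x0 m : ℕ) : List ℕ → Bool
  | [] => true
  | x :: l => okpair A m x (l.headD x0) && okp A x0 m l

/-- all insertions of `v` after the head -/
def ins (v : ℕ) : List ℕ → List (List ℕ)
  | [] => []
  | a :: l => (a :: v :: l) :: (ins v l).map (a :: ·)

/-- the permutation `C` is legal, and the identity off the mask `M` -/
def chk (C M : ℕ) : List ℕ → ℕ → ℕ → Bool
  | [], i, acc => Nat.beq acc ((1 <<< i) - 1)
  | a :: al, i, acc => bit a (dig C i) && (Nat.beq (dig C i) i || bit M i) &&
      chk C M al (i + 1) (acc ||| (1 <<< (dig C i)))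

/-- the cyclic successor in the list -/
def nxt (x0 : ℕ) : List ℕ → ℕ → ℕ
  | [], y => y
  | a :: l, y => bif Nat.beq a y then l.headD x0 else nxt x0 l y

/-- the closed walk -/
def walk (F Z x0 C : ℕ) (L : List ℕ) : ℕ → ℕ → ℕ → ℕ
  | 0, _, acc => acc
  | n + 1, x, acc =>
    walk F Z x0 C L n (bif bit F (dig C x) then dig Z (dig C x) else nxt x0 L (dig C x))
      (acc ||| (1 <<< x))

/-- leaf: `C` makes one cycle of the words of `L` and the fresh words -/
def leaf (F Z x0 z0 cF : ℕ) (al : List ℕ) (C : ℕ) (L : List ℕ) : Bool :=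
  chk C (msk L F) al 0 0 && Nat.beq (walk F Z x0 C L (L.length + cF) z0 0) (msk L F)

/-- THE CHECKER: `code` is a certificate for the lists of the stack -/
def run (A F Z x0 z0 cF : ℕ) (al : List ℕ) : List ℕ → List (List ℕ) → Bool
  | _, [] => true
  | [], _ :: _ => false
  | v :: code, L :: st =>
    bif Nat.blt v 32 then
      !(bit (msk L F) v) && Nat.blt v al.length &&
        run A F Z x0 z0 cF al code ((ins v L).filter (okp A x0 (msk (v :: L) 0)) ++ st)
    else leaf F Z x0 z0 cF al v L && run A F Z x0 z0 cF al code st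

/-! ### Bits -/

theorem bit_eq (M i : ℕ) : bit M i = M.testBit i := by
  unfold bit
  rw [Nat.testBit_eq_decide_div_mod_eq, Nat.shiftRight_eq_div_pow]
  by_cases h : M / 2 ^ i % 2 = 1
  · rw [h]; rfl
  · rw [decide_eq_false h]
    have : M / 2 ^ i % 2 = 0 := by omega
    rw [this]
    rfl

theorem bit_or_one (a x i : ℕ) : bit (a ||| (1 <<< x)) i = (bit a i || decide (x = i)) := by
  rw [bit_eq, bit_eq, Nat.testBit_or, Nat.one_shiftLeft, Nat.testBit_two_pow]

theorem bit_msk (L : List ℕ) : ∀ a i : ℕ, bit (msk L a) i = (bit a i || decide (i ∈ L)) := by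
  induction L with
  | nil => intro a i; simp [msk]
  | cons x l ih =>
    intro a i
    rw [msk, ih, bit_or_one]
    by_cases h : x = i
    · subst h; simp
    · have h' : ¬ i = x := fun e => h e.symm
      simp [h, h']

theorem bit_zero (i : ℕ) : bit 0 i = false := by
  rw [bit_eq, Nat.zero_testBit]

/-! ### First returns -/

variable {W : Type*} [Fintype W] [DecidableEq W]

/-- `y` is the first point of `S` after `x` (if `S y`) -/
def Fr (f : Perm W) (S : W → Prop) (x y : W) : Prop :=
  ∃ n : ℕ, 1 ≤ n ∧ (f ^ n) x = y ∧ ∀ m, 1 ≤ m → m < n → ¬ S ((f ^ m) x)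

omit [Fintype W] [DecidableEq W] in
theorem Fr.mono {f : Perm W} {S S' : W → Prop} {x y : W} (h : Fr f S x y)
    (hS : ∀ z, f.SameCycle x z → S' z → S z) : Fr f S' x y := by
  obtain ⟨n, h1, h2, h3⟩ := h
  exact ⟨n, h1, h2, fun m hm1 hm2 hs => h3 m hm1 hm2 (hS _ (nat_same m rfl) hs)⟩

omit [Fintype W] [DecidableEq W] in
theorem Fr.uniq {f : Perm W} {S : W → Prop} {x y y' : W} (h : Fr f S x y) (h' : Fr f S x y')
    (hy : S y) (hy' : S y') : y = y' := by
  obtain ⟨n, h1, h2, h3⟩ := h
  obtain ⟨n', h1', h2', h3'⟩ := h'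
  rcases lt_trichotomy n n' with hlt | heq | hgt
  · exact absurd (by rw [h2]; exact hy) (h3' n h1 hlt)
  · rw [← h2, ← h2', heq]
  · exact absurd (by rw [h2']; exact hy') (h3 n' h1' hgt)

omit [Fintype W] [DecidableEq W] in
/-- one step of the walk -/
theorem Fr.step {f π : Perm W} {S : W → Prop} (hπ : ∀ x, ¬ S x → π x = x) {x y z : W}
    (hxy : π x = y) (h : Fr f S y z) : (f * π).SameCycle x z := by
  obtain ⟨n, h1, h2, h3⟩ := h
  have key : ∀ m, 1 ≤ m → m ≤ n → ((f * π) ^ m) x = (f ^ m) y := by
    intro m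
    induction m with
    | zero => intro h _; omega
    | succ m ih =>
      intro _ hm
      rcases Nat.eq_zero_or_pos m with h0 | hp
      · subst h0
        rw [zero_add, pow_one, pow_one, Perm.mul_apply, hxy]
      · rw [pow_succ', pow_succ', Perm.mul_apply, Perm.mul_apply, ih hp (by omega),
          Perm.mul_apply, hπ _ (h3 m hp (by omega))]
  exact nat_same n (by rw [key n h1 le_rfl, h2])

omit [Fintype W] [DecidableEq W] in
theorem chain_aux (f : Perm W) (p : W → Bool) : ∀ (l : List W) (x a : W) (n : ℕ), 1 ≤ n →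
    (f ^ n) a = x → (∀ m, 1 ≤ m → m < n → ¬ (p ((f ^ m) a) = true)) →
    List.IsChain (fun a b => f a = b) (x :: l) →
    List.IsChain (Fr f (fun y => p y = true)) (a :: (x :: l).filter p) := by
  intro l
  induction l with
  | nil =>
    intro x a n h1 h2 h3 _
    by_cases hp : p x = true
    · rw [List.filter_cons_of_pos hp, List.filter_nil, List.isChain_cons_cons]
      exact ⟨⟨n, h1, h2, h3⟩, List.isChain_singleton _⟩
    · rw [List.filter_cons_of_neg (by simpa using hp), List.filter_nil]
      exact List.isChain_singleton _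
  | cons y l ih =>
    intro x a n h1 h2 h3 hc
    rw [List.isChain_cons_cons] at hc
    by_cases hp : p x = true
    · rw [List.filter_cons_of_pos hp, List.isChain_cons_cons]
      refine ⟨⟨n, h1, h2, h3⟩, ?_⟩
      exact ih y x 1 le_rfl (by rw [pow_one]; exact hc.1) (fun m h4 h5 => by omega) hc.2
    · rw [List.filter_cons_of_neg (by simpa using hp)]
      refine ih y a (n + 1) (by omega) ?_ ?_ hc.2
      · rw [pow_succ', Perm.mul_apply, h2]; exact hc.1
      · intro m h4 h5
        rcases Nat.lt_or_ge m n with h6 | h6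
        · exact h3 m h4 h6
        · have h7 : m = n := by omega
          rw [h7, h2]; exact hp

omit [Fintype W] [DecidableEq W] in
theorem chain_filter (f : Perm W) (p : W → Bool) (l : List W) (x : W)
    (hc : List.IsChain (fun a b => f a = b) (x :: l)) :
    List.IsChain (Fr f (fun y => p y = true)) (x :: l.filter p) := by
  cases l with
  | nil => rw [List.filter_nil]; exact List.isChain_singleton _
  | cons y l =>
    rw [List.isChain_cons_cons] at hc
    exact chain_aux f p l y x 1 le_rfl (by rw [pow_one]; exact hc.1) (fun m h4 h5 => by omega) hc.2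

omit [DecidableEq W] in
/-- the orbit of `x` as a list -/
theorem orbit_list (f : Perm W) (x : W) : ∃ l : List W,
    List.IsChain (fun a b => f a = b) (x :: (l ++ [x])) ∧ (x :: l).Nodup ∧
      ∀ y, f.SameCycle x y → y ∈ x :: l := by
  classical
  have hex : ∃ n : ℕ, 1 ≤ n ∧ (f ^ n) x = x :=
    ⟨orderOf f, orderOf_pos f, by rw [pow_orderOf_eq_one]; rfl⟩
  obtain ⟨n, ⟨hn1, hn2⟩, hmin⟩ : ∃ n : ℕ, (1 ≤ n ∧ (f ^ n) x = x) ∧
      ∀ m < n, ¬ (1 ≤ m ∧ (f ^ m) x = x) :=
    ⟨Nat.find hex, Nat.find_spec hex, fun m hm => Nat.find_min hex hm⟩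
  obtain ⟨k, rfl⟩ : ∃ k, n = k + 1 := ⟨n - 1, by omega⟩
  have e1 : x :: ((List.range k).map (fun i => (f ^ (i + 1)) x)) =
      (List.range (k + 1)).map (fun i => (f ^ i) x) := by
    rw [List.range_succ_eq_map, List.map_cons, List.map_map]
    rfl
  refine ⟨(List.range k).map (fun i => (f ^ (i + 1)) x), ?_, ?_, ?_⟩
  · have e2 : x :: ((List.range k).map (fun i => (f ^ (i + 1)) x) ++ [x]) =
        (List.range (k + 2)).map (fun i => (f ^ i) x) := by
      rw [← List.cons_append, e1, List.range_succ (n := k + 1), List.map_append, List.map_singleton, hn2]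
    rw [e2, List.isChain_iff_getElem]
    intro i hi
    simp only [List.getElem_map, List.getElem_range]
    rw [pow_succ', Perm.mul_apply]
  · rw [e1]
    apply List.Nodup.map_on _ (List.nodup_range)
    intro i hi j hj hij
    have key : ∀ i j : ℕ, i < j → j < k + 1 → (f ^ i) x = (f ^ j) x → False := by
      intro i j hij hj h
      obtain ⟨d, rfl⟩ := Nat.exists_eq_add_of_lt hij
      have h1 : (f ^ i) x = (f ^ i) ((f ^ (d + 1)) x) := by
        rw [← Perm.mul_apply, ← pow_add, h]
        rfl
      have h2 := (f ^ i).injective h1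
      exact hmin (d + 1) (by omega) ⟨by omega, h2.symm⟩
    rw [List.mem_range] at hi hj
    rcases lt_trichotomy i j with h | h | h
    · exact (key i j h hj hij).elim
    · exact h
    · exact (key j i h hi hij.symm).elim
  · intro y hy
    obtain ⟨m, hm⟩ := same_nat hy
    rw [e1, List.mem_map]
    refine ⟨m % (k + 1), List.mem_range.2 (Nat.mod_lt _ (by omega)), ?_⟩
    have h1 : ∀ q : ℕ, ((f ^ (k + 1)) ^ q) x = x := by
      intro q
      induction q with
      | zero => rfl
      | succ q ih => rw [pow_succ, Perm.mul_apply, hn2, ih]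
    have h2 : (f ^ m) x = (f ^ (m % (k + 1))) x := by
      conv_lhs => rw [← Nat.mod_add_div m (k + 1)]
      rw [pow_add, Perm.mul_apply, pow_mul, h1]
    rw [← h2, hm]

/-! ### The data of a gadget -/

/-- the words of the gadget -/
def Wd (w : ℕ → W) (N : ℕ) (y : W) : Prop := ∃ j < N, w j = y

/-- the gadget `w` in the permutation `f` -/
structure Gad (f : Perm W) (w : ℕ → W) (A F Z x0 z0 N : ℕ) : Prop where
  inj : ∀ i < N, ∀ j < N, w i = w j → i = j
  x0N : x0 < N
  x0F : bit F x0 = false
  z0F : bit F z0 = true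
  FN : ∀ i, bit F i = true → i < N
  arc : ∀ i < N, dig A i < N → Fr f (Wd w N) (w i) (w (dig A i))
  fre : ∀ i, bit F i = true → bit F (dig Z i) = true ∧ Fr f (Wd w N) (w i) (w (dig Z i))
  out : ∀ i, bit F i = true → ¬ f.SameCycle (w x0) (w i)
  old : ∀ i < N, bit F i = false → f.SameCycle (w x0) (w i)

/-- the conclusion -/
def Concl (f : Perm W) (w : ℕ → W) (al : List ℕ) : Prop :=
  ∃ π : Perm W, (∀ x, (∀ i < al.length, w i ≠ x) → π x = x) ∧
    (∀ i < al.length, ∃ j < al.length, bit (al.getD i 0) j = true ∧ π (w i) = w j) ∧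
    (∀ x y, f.SameCycle x y → (f * π).SameCycle x y) ∧
    ∀ i < al.length, ∀ j < al.length, (f * π).SameCycle (w i) (w j)

/-- `L` is the cyclic order of its words on the orbit list `l` -/
def Inv (w : ℕ → W) (F x0 N : ℕ) (l : List W) (L : List ℕ) : Prop :=
  (∃ l', L = x0 :: l') ∧ (∀ i ∈ L, i < N ∧ bit F i = false) ∧
    L.map w = (w x0 :: l).filter (fun y => decide (y ∈ L.map w))

theorem mem_ins (v : ℕ) (l2 : List ℕ) : ∀ (l1 : List ℕ) (x : ℕ),
    x :: (l1 ++ v :: l2) ∈ ins v (x :: (l1 ++ l2)) := by
  intro l1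
  induction l1 with
  | nil => intro x; simp [ins]
  | cons a l ih =>
    intro x
    rw [List.cons_append, List.cons_append, ins, List.mem_cons]
    right
    rw [List.mem_map]
    exact ⟨_, ih a, rfl⟩

theorem inv_ins {f : Perm W} {w : ℕ → W} {A F Z x0 z0 N : ℕ} (G : Gad f w A F Z x0 z0 N)
    {l : List W} (hn : (w x0 :: l).Nodup) (hl : ∀ y, f.SameCycle (w x0) y → y ∈ w x0 :: l)
    {L : List ℕ} (hL : Inv w F x0 N l L) {v : ℕ} (hv : v < N) (hvF : bit F v = false)
    (hvL : v ∉ L) : ∃ L' ∈ ins v L, Inv w F x0 N l L' ∧ ∀ i, i ∈ L' ↔ (i = v ∨ i ∈ L) := by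
  obtain ⟨⟨l', rfl⟩, hb, he⟩ := hL
  have hx0 : v ≠ x0 := by
    rintro rfl
    exact hvL (List.mem_cons_self)
  have hne : w v ≠ w x0 := fun h => hx0 (G.inj v hv x0 G.x0N h)
  have hmem : w v ∈ l := by
    rcases List.mem_cons.1 (hl _ (G.old v hv hvF)) with h | h
    · exact absurd h hne
    · exact h
  obtain ⟨P, Q, rfl⟩ := List.append_of_mem hmem
  have hvS : w v ∉ (x0 :: l').map w := by
    intro h
    obtain ⟨i, hi, hiw⟩ := List.mem_map.1 h
    have := G.inj i (hb i hi).1 v hv hiw
    rw [this] at hi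
    exact hvL hi
  rw [List.nodup_cons, List.nodup_append] at hn
  obtain ⟨hn1, hn2, hn3, hn4⟩ := hn
  rw [List.nodup_cons] at hn3
  have hvP : w v ∉ P := fun h => hn4 _ h _ List.mem_cons_self rfl
  have hvQ : w v ∉ Q := hn3.1
  have hx0S : w x0 ∈ (x0 :: l').map w := List.mem_map.2 ⟨x0, List.mem_cons_self, rfl⟩
  rw [List.filter_cons_of_pos (by simpa using hx0S), List.map_cons, List.cons.injEq] at he
  have he2 := he.2
  rw [List.filter_append, List.filter_cons_of_neg (by simpa using hvS), List.map_eq_append_iff] at he2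
  obtain ⟨l1, l2, rfl, h1, h2⟩ := he2
  refine ⟨x0 :: (l1 ++ v :: l2), mem_ins v l2 l1 x0, ⟨⟨_, rfl⟩, ?_, ?_⟩, ?_⟩
  · intro i hi
    by_cases hiv : i = v
    · subst hiv; exact ⟨hv, hvF⟩
    · apply hb
      simp only [List.mem_cons, List.mem_append] at hi ⊢
      tauto
  · have key : ∀ y, (y ∈ (x0 :: (l1 ++ v :: l2)).map w) ↔ (y = w v ∨ y ∈ (x0 :: (l1 ++ l2)).map w) := by
      intro y
      simp only [List.map_cons, List.map_append, List.mem_cons, List.mem_append]
      tauto
    have fc : ∀ R : List W, w v ∉ R →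
        R.filter (fun y => decide (y ∈ (x0 :: (l1 ++ v :: l2)).map w)) =
          R.filter (fun y => decide (y ∈ (x0 :: (l1 ++ l2)).map w)) := by
      intro R hR
      apply List.filter_congr
      intro y hy
      have hyv : y ≠ w v := by
        rintro rfl
        exact hR hy
      rw [decide_eq_decide, key]
      tauto
    rw [List.filter_cons_of_pos (by rw [decide_eq_true_iff, key]; right; exact hx0S),
      List.filter_append,
      List.filter_cons_of_pos (a := w v) (by rw [decide_eq_true_iff, key]; left; rfl),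
      fc P hvP, fc Q hvQ]
    simp only [List.map_cons] at h1 h2 ⊢
    rw [← h1, ← h2]
    simp
  · intro i
    simp only [List.mem_cons, List.mem_append]
    tauto

omit [Fintype W] in
/-- the closed chain of the list -/
theorem inv_chain {f : Perm W} {w : ℕ → W} {F x0 N : ℕ} {l : List W}
    (hc : List.IsChain (fun a b => f a = b) (w x0 :: (l ++ [w x0])))
    {L : List ℕ} (hL : Inv w F x0 N l L) :
    List.IsChain (Fr f (fun y => y ∈ L.map w)) (L.map w ++ [w x0]) := by
  obtain ⟨⟨l', rfl⟩, hb, he⟩ := hL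
  have hx0S : w x0 ∈ (x0 :: l').map w := List.mem_map.2 ⟨x0, List.mem_cons_self, rfl⟩
  have h1 := chain_filter f (fun y => decide (y ∈ (x0 :: l').map w)) (l ++ [w x0]) (w x0) hc
  rw [List.filter_append, List.filter_cons_of_pos (a := w x0) (by simpa using hx0S), List.filter_nil,
    ← List.cons_append] at h1
  rw [List.filter_cons_of_pos (by simpa using hx0S)] at he
  rw [← he] at h1
  simp only [decide_eq_true_iff] at h1
  exact h1

omit [Fintype W] [DecidableEq W] in
theorem okp_sound {f : Perm W} {w : ℕ → W} {A F Z x0 z0 N : ℕ} (G : Gad f w A F Z x0 z0 N)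
    {L : List ℕ} (hb : ∀ i ∈ L, i < N) (hx : x0 ∈ L) : ∀ l1 : List ℕ, (∀ i ∈ l1, i ∈ L) →
    List.IsChain (Fr f (fun y => y ∈ L.map w)) (l1.map w ++ [w x0]) →
    okp A x0 (msk L 0) l1 = true := by
  intro l1
  induction l1 with
  | nil => intro _ _; rfl
  | cons a l ih =>
    intro hsub hc
    rw [okp, Bool.and_eq_true]
    have hhead : ∃ t, l.map w ++ [w x0] = w (l.headD x0) :: t ∧ l.headD x0 ∈ L := by
      cases l with
      | nil => exact ⟨[], rfl, hx⟩
      | cons b l => exact ⟨l.map w ++ [w x0], rfl, hsub b (by simp)⟩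
    obtain ⟨t, ht, hhL⟩ := hhead
    rw [List.map_cons, List.cons_append, ht, List.isChain_cons_cons] at hc
    refine ⟨?_, ih (fun i hi => hsub i (List.mem_cons_of_mem _ hi)) (by rw [ht]; exact hc.2)⟩
    unfold okpair
    rw [bit_msk, bit_zero, Bool.false_or]
    by_cases hd : dig A a ∈ L
    · have haL : a ∈ L := hsub a List.mem_cons_self
      have h1 := G.arc a (hb a haL) (hb _ hd)
      have h2 : Fr f (fun y => y ∈ L.map w) (w a) (w (dig A a)) := by
        apply h1.mono
        intro z _ hz
        obtain ⟨i, hi, hiw⟩ := List.mem_map.1 hz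
        exact ⟨i, hb i hi, hiw⟩
      have h3 := h2.uniq hc.1 (List.mem_map.2 ⟨_, hd, rfl⟩) (List.mem_map.2 ⟨_, hhL, rfl⟩)
      have h4 := G.inj _ (hb _ hd) _ (hb _ hhL) h3
      rw [Bool.or_eq_true]
      right
      rw [Nat.beq_eq]
      exact h4.symm
    · simp [hd]

omit [Fintype W] [DecidableEq W] in
theorem nxt_sound {f : Perm W} {w : ℕ → W} {x0 : ℕ} {L : List ℕ} (hx : x0 ∈ L) : ∀ l1 : List ℕ,
    (∀ i ∈ l1, i ∈ L) → List.IsChain (Fr f (fun y => y ∈ L.map w)) (l1.map w ++ [w x0]) →
    ∀ y ∈ l1, nxt x0 l1 y ∈ L ∧ Fr f (fun y => y ∈ L.map w) (w y) (w (nxt x0 l1 y)) := by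
  intro l1
  induction l1 with
  | nil => intro _ _ y hy; exact absurd hy (List.not_mem_nil)
  | cons a l ih =>
    intro hsub hc y hy
    have hhead : ∃ t, l.map w ++ [w x0] = w (l.headD x0) :: t ∧ l.headD x0 ∈ L := by
      cases l with
      | nil => exact ⟨[], rfl, hx⟩
      | cons b l => exact ⟨l.map w ++ [w x0], rfl, hsub b (by simp)⟩
    obtain ⟨t, ht, hhL⟩ := hhead
    rw [List.map_cons, List.cons_append, ht, List.isChain_cons_cons] at hc
    rw [nxt]
    by_cases h : a = y
    · subst h
      have : Nat.beq a a = true := Nat.beq_refl a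
      rw [this, cond_true]
      exact ⟨hhL, hc.1⟩
    · have : Nat.beq a y = false := by
        rw [Bool.eq_false_iff]
        intro h2
        exact h (Nat.eq_of_beq_eq_true h2)
      rw [this, cond_false]
      rcases List.mem_cons.1 hy with h2 | h2
      · exact absurd h2.symm h
      · exact ih (fun i hi => hsub i (List.mem_cons_of_mem _ hi)) (by rw [ht]; exact hc.2) y h2

/-! ### The permutation of a leaf -/

theorem chk_sound (C M : ℕ) : ∀ (al : List ℕ) (i acc : ℕ), chk C M al i acc = true →
    (∀ k < al.length, bit (al.getD k 0) (dig C (i + k)) = true ∧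
      (dig C (i + k) = i + k ∨ bit M (i + k) = true)) ∧
    ∀ d, d < i + al.length ↔ (bit acc d = true ∨ ∃ k < al.length, dig C (i + k) = d) := by
  intro al
  induction al with
  | nil =>
    intro i acc h
    rw [chk, Nat.beq_eq] at h
    refine ⟨fun k hk => absurd hk (by simp), fun d => ?_⟩
    rw [h, bit_eq, Nat.one_shiftLeft, Nat.testBit_two_pow_sub_one]
    simp
  | cons a al ih =>
    intro i acc h
    rw [chk, Bool.and_eq_true, Bool.and_eq_true, Bool.or_eq_true, Nat.beq_eq] at h
    obtain ⟨⟨h1, h2⟩, h3⟩ := h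
    obtain ⟨g1, g2⟩ := ih _ _ h3
    refine ⟨?_, ?_⟩
    · intro k hk
      rcases k with _ | k
      · exact ⟨by simpa using h1, by simpa using h2⟩
      · have := g1 k (by simpa using hk)
        rw [show i + 1 + k = i + (k + 1) by ring] at this
        simpa using this
    · intro d
      rw [List.length_cons, show i + (al.length + 1) = i + 1 + al.length by ring, g2 d, bit_or_one,
        Bool.or_eq_true, decide_eq_true_iff]
      constructor
      · rintro ((h | h) | ⟨k, hk, hkd⟩)
        · exact Or.inl h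
        · exact Or.inr ⟨0, by omega, h⟩
        · exact Or.inr ⟨k + 1, by omega, by rw [← hkd]; congr 1; ring⟩
      · rintro (h | ⟨k, hk, hkd⟩)
        · exact Or.inl (Or.inl h)
        · rcases k with _ | k
          · exact Or.inl (Or.inr hkd)
          · exact Or.inr ⟨k, by omega, by rw [← hkd]; congr 1; ring⟩

omit [DecidableEq W] in
theorem perm_of (w : ℕ → W) (N : ℕ) (hw : ∀ i < N, ∀ j < N, w i = w j → i = j) (c : ℕ → ℕ)
    (hc : ∀ d, d < N ↔ ∃ k < N, c k = d) :
    ∃ π : Perm W, (∀ i < N, π (w i) = w (c i)) ∧ ∀ x, (∀ i < N, w i ≠ x) → π x = x := by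
  classical
  have hcN : ∀ i < N, c i < N := fun i hi => (hc _).2 ⟨i, hi, rfl⟩
  have hci : ∀ i < N, ∀ j < N, c i = c j → i = j := by
    have h1 : (range N).image c = range N := by
      ext d
      rw [mem_image, mem_range, hc]
      constructor
      · rintro ⟨k, hk, h⟩; exact ⟨k, mem_range.1 hk, h⟩
      · rintro ⟨k, hk, h⟩; exact ⟨k, mem_range.2 hk, h⟩
    have h2 : Set.InjOn c (range N : Finset ℕ) := by
      apply Finset.injOn_of_card_image_eq
      rw [h1]
    intro i hi j hj h
    exact h2 (by simpa using hi) (by simpa using hj) h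
  let g : W → W := fun x => if h : ∃ i, i < N ∧ w i = x then w (c h.choose) else x
  have g1 : ∀ i < N, g (w i) = w (c i) := by
    intro i hi
    have h : ∃ j, j < N ∧ w j = w i := ⟨i, hi, rfl⟩
    have h2 := h.choose_spec
    have h3 := hw _ h2.1 i hi h2.2
    show (if h : ∃ j, j < N ∧ w j = w i then w (c h.choose) else w i) = _
    rw [dif_pos h, h3]
  have g2 : ∀ x, (∀ i < N, w i ≠ x) → g x = x := by
    intro x hx
    show (if h : ∃ j, j < N ∧ w j = x then w (c h.choose) else x) = _
    rw [dif_neg]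
    rintro ⟨i, hi, h⟩
    exact hx i hi h
  have hg : Function.Injective g := by
    intro x y hxy
    by_cases hx : ∃ i, i < N ∧ w i = x
    · obtain ⟨i, hi, rfl⟩ := hx
      by_cases hy : ∃ j, j < N ∧ w j = y
      · obtain ⟨j, hj, rfl⟩ := hy
        rw [g1 i hi, g1 j hj] at hxy
        rw [hci i hi j hj (hw _ (hcN i hi) _ (hcN j hj) hxy)]
      · push Not at hy
        rw [g1 i hi, g2 y hy] at hxy
        exact absurd hxy (hy _ (hcN i hi))
    · push Not at hx
      by_cases hy : ∃ j, j < N ∧ w j = y
      · obtain ⟨j, hj, rfl⟩ := hy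
        rw [g1 j hj, g2 x hx] at hxy
        exact absurd hxy.symm (hx _ (hcN j hj))
      · push Not at hy
        rw [g2 x hx, g2 y hy] at hxy
        exact hxy
  exact ⟨Equiv.ofBijective g (Finite.injective_iff_bijective.1 hg), g1, g2⟩

omit [Fintype W] [DecidableEq W] in
/-- if `f'` is `f` off `S` then a point whose `f`-orbit meets `S` is connected by `f'` with a point of `S` -/
theorem reach {f f' : Perm W} {S : W → Prop} (h : ∀ x, ¬ S x → f' x = f x) {x : W}
    (hx : ∃ n : ℕ, S ((f ^ n) x)) : ∃ u, S u ∧ f'.SameCycle x u := by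
  classical
  have hn := Nat.find_spec hx
  refine ⟨(f ^ (Nat.find hx)) x, hn, ?_⟩
  have key : ∀ i, i ≤ Nat.find hx → (f' ^ i) x = (f ^ i) x := by
    intro i
    induction i with
    | zero => intro _; rfl
    | succ i ih =>
      intro hi
      rw [pow_succ', pow_succ', Perm.mul_apply, Perm.mul_apply, ih (by omega)]
      exact h _ (Nat.find_min hx (by omega))
  exact nat_same (Nat.find hx) (key _ le_rfl)

omit [DecidableEq W] in
theorem coarser {f f' : Perm W} {S : W → Prop} (h : ∀ x, ¬ S x → f' x = f x)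
    (hall : ∀ x y, S x → S y → f'.SameCycle x y) (x y : W) (hxy : f.SameCycle x y) :
    f'.SameCycle x y := by
  classical
  by_cases hm : ∃ n : ℕ, S ((f ^ n) x)
  · have hm' : ∃ n : ℕ, S ((f ^ n) y) := by
      obtain ⟨n, hn⟩ := hm
      obtain ⟨m, hm2⟩ := same_nat (hxy.symm.trans (nat_same n rfl))
      exact ⟨m, by rw [hm2]; exact hn⟩
    obtain ⟨u, hu, hxu⟩ := reach h hm
    obtain ⟨v, hv, hyv⟩ := reach h hm'
    exact hxu.trans ((hall u v hu hv).trans hyv.symm)
  · push Not at hm
    obtain ⟨n, hn⟩ := same_nat hxy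
    have key : ∀ i, (f' ^ i) x = (f ^ i) x := by
      intro i
      induction i with
      | zero => rfl
      | succ i ih =>
        rw [pow_succ', pow_succ', Perm.mul_apply, Perm.mul_apply, ih]
        exact h _ (hm i)
    exact nat_same n (by rw [key, hn])

theorem leaf_sound {f : Perm W} {w : ℕ → W} {A F Z x0 z0 cF : ℕ} {al : List ℕ}
    (G : Gad f w A F Z x0 z0 al.length) {l : List W}
    (hc : List.IsChain (fun a b => f a = b) (w x0 :: (l ++ [w x0])))
    {L : List ℕ} (hL : Inv w F x0 al.length l L) {C : ℕ}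
    (h : leaf F Z x0 z0 cF al C L = true) : Concl f w al := by
  unfold leaf at h
  rw [Bool.and_eq_true, Nat.beq_eq] at h
  obtain ⟨h1, h2⟩ := h
  obtain ⟨c1, c2⟩ := chk_sound _ _ _ _ _ h1
  simp only [zero_add, bit_zero, Bool.false_eq_true, false_or] at c1 c2
  obtain ⟨π, p1, p2⟩ := perm_of w al.length G.inj (dig C) c2
  have hcN : ∀ i < al.length, dig C i < al.length := fun i hi => (c2 _).2 ⟨i, hi, rfl⟩
  obtain ⟨⟨l', hl'⟩, hb, he⟩ := id hL
  have hx0L : x0 ∈ L := by rw [hl']; exact List.mem_cons_self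
  have hch := inv_chain hc hL
  -- the words of the leaf
  let I : ℕ → Prop := fun i => i < al.length ∧ (bit F i = true ∨ i ∈ L)
  let S : W → Prop := fun y => ∃ i, I i ∧ w i = y
  have hM : ∀ i, bit (msk L F) i = true ↔ (bit F i = true ∨ i ∈ L) := by
    intro i
    rw [bit_msk, Bool.or_eq_true, decide_eq_true_iff]
  have hinj : ∀ i < al.length, ∀ j < al.length, dig C i = dig C j → i = j := by
    intro i hi j hj hij
    have e1 : π (w i) = π (w j) := by rw [p1 i hi, p1 j hj, hij]
    exact G.inj i hi j hj (π.injective e1)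
  have hCI : ∀ i, I i → I (dig C i) := by
    rintro i ⟨hi, hiI⟩
    refine ⟨hcN i hi, ?_⟩
    by_contra hn
    have h3 : dig C (dig C i) = dig C i := by
      rcases (c1 _ (hcN i hi)).2 with h3 | h3
      · exact h3
      · exact absurd ((hM _).1 h3) hn
    have h4 := hinj _ (hcN i hi) i hi h3
    rw [h4] at hn
    exact hn hiI
  have hπ : ∀ x, ¬ S x → π x = x := by
    intro x hx
    by_cases hxw : ∃ i, i < al.length ∧ w i = x
    · obtain ⟨i, hi, rfl⟩ := hxw
      rw [p1 i hi]
      rcases (c1 i hi).2 with h3 | h3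
      · rw [h3]
      · exact absurd ⟨i, ⟨hi, (hM i).1 h3⟩, rfl⟩ hx
    · push Not at hxw
      exact p2 x hxw
  have hf' : ∀ x, ¬ S x → (f * π) x = f x := by
    intro x hx
    rw [Perm.mul_apply, hπ x hx]
  -- one step
  have hnx : ∀ j, I j → I (bif bit F j then dig Z j else nxt x0 L j) ∧
      Fr f S (w j) (w (bif bit F j then dig Z j else nxt x0 L j)) := by
    rintro j ⟨hj, hjI⟩
    by_cases hjF : bit F j = true
    · rw [hjF, cond_true]
      obtain ⟨g1, g2⟩ := G.fre j hjF
      refine ⟨⟨G.FN _ g1, Or.inl g1⟩, g2.mono ?_⟩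
      rintro z _ ⟨i, hi, rfl⟩
      exact ⟨i, hi.1, rfl⟩
    · have hjL : j ∈ L := by
        rcases hjI with h | h
        · exact absurd h hjF
        · exact h
      have hjF' : bit F j = false := by simpa using hjF
      rw [hjF', cond_false]
      obtain ⟨g1, g2⟩ := nxt_sound hx0L L (fun i hi => hi) hch j hjL
      refine ⟨⟨(hb _ g1).1, Or.inr g1⟩, g2.mono ?_⟩
      rintro z hz ⟨i, hi, rfl⟩
      rcases hi.2 with h | h
      · exfalso
        exact G.out i h ((G.old j hj hjF').trans hz)
      · exact List.mem_map.2 ⟨i, h, rfl⟩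
  have hstep : ∀ i, I i → I (bif bit F (dig C i) then dig Z (dig C i) else nxt x0 L (dig C i)) ∧
      (f * π).SameCycle (w i)
        (w (bif bit F (dig C i) then dig Z (dig C i) else nxt x0 L (dig C i))) := by
    intro i hi
    obtain ⟨g1, g2⟩ := hnx _ (hCI i hi)
    exact ⟨g1, Fr.step hπ (p1 i hi.1) g2⟩
  have hwalk : ∀ (n x acc : ℕ), I x → (f * π).SameCycle (w z0) (w x) →
      (∀ i, bit acc i = true → (f * π).SameCycle (w z0) (w i)) →
      ∀ i, bit (walk F Z x0 C L n x acc) i = true → (f * π).SameCycle (w z0) (w i) := by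
    intro n
    induction n with
    | zero => intro x acc _ _ ha i hi; exact ha i hi
    | succ n ih =>
      intro x acc hx hs ha i hi
      rw [walk] at hi
      obtain ⟨g1, g2⟩ := hstep x hx
      refine ih _ _ g1 (hs.trans g2) ?_ i hi
      intro j hj
      rw [bit_or_one, Bool.or_eq_true, decide_eq_true_iff] at hj
      rcases hj with hj | rfl
      · exact ha j hj
      · exact hs
  have hIall : ∀ i, I i → (f * π).SameCycle (w z0) (w i) := by
    intro i hi
    apply hwalk (L.length + cF) z0 0 ⟨G.FN _ G.z0F, Or.inl G.z0F⟩ (Perm.SameCycle.refl _ _)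
      (fun j hj => by rw [bit_zero] at hj; exact absurd hj (by simp)) i
    rw [h2, hM]
    exact hi.2
  have hall : ∀ x y, S x → S y → (f * π).SameCycle x y := by
    rintro x y ⟨i, hi, rfl⟩ ⟨j, hj, rfl⟩
    exact (hIall i hi).symm.trans (hIall j hj)
  have hco := coarser hf' hall
  refine ⟨π, p2, ?_, hco, ?_⟩
  · intro i hi
    exact ⟨dig C i, hcN i hi, (c1 i hi).1, p1 i hi⟩
  · have hw : ∀ i < al.length, (f * π).SameCycle (w z0) (w i) := by
      intro i hi
      by_cases hiF : bit F i = true
      · exact hIall i ⟨hi, Or.inl hiF⟩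
      · have hx0S : (f * π).SameCycle (w z0) (w x0) := hIall x0 ⟨G.x0N, Or.inr hx0L⟩
        exact hx0S.trans (hco _ _ (G.old i hi (by simpa using hiF)))
    intro i hi j hj
    exact (hw i hi).symm.trans (hw j hj)

theorem run_sound {f : Perm W} {w : ℕ → W} {A F Z x0 z0 cF : ℕ} {al : List ℕ}
    (G : Gad f w A F Z x0 z0 al.length) {l : List W}
    (hc : List.IsChain (fun a b => f a = b) (w x0 :: (l ++ [w x0]))) (hn : (w x0 :: l).Nodup)
    (hl : ∀ y, f.SameCycle (w x0) y → y ∈ w x0 :: l) : ∀ (code : List ℕ) (st : List (List ℕ)),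
    run A F Z x0 z0 cF al code st = true → ∀ L ∈ st, Inv w F x0 al.length l L → Concl f w al := by
  intro code
  induction code with
  | nil =>
    intro st h L hL
    cases st with
    | nil => exact absurd hL (List.not_mem_nil)
    | cons _ _ => rw [run] at h; exact absurd h (by simp)
  | cons v code ih =>
    intro st h L hL hI
    cases st with
    | nil => exact absurd hL (List.not_mem_nil)
    | cons L0 st =>
      rw [run] at h
      by_cases hv : Nat.blt v 32 = true
      · rw [hv, cond_true, Bool.and_eq_true, Bool.and_eq_true] at h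
        obtain ⟨⟨h1, h2⟩, h3⟩ := h
        rcases List.mem_cons.1 hL with rfl | hL'
        · have h1' : ¬ (bit F v = true ∨ v ∈ L) := by
            rw [Bool.not_eq_true', bit_msk] at h1
            intro hh
            rw [← Bool.not_eq_true, Bool.or_eq_true, decide_eq_true_iff] at h1
            exact h1 hh
          push Not at h1'
          have h2' : v < al.length := by
            rw [Nat.blt_eq] at h2
            exact h2
          obtain ⟨L', g1, g2, g3⟩ := inv_ins G hn hl hI h2' (by simpa using h1'.1) h1'.2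
          refine ih _ h3 L' (List.mem_append_left _ (List.mem_filter.2 ⟨g1, ?_⟩)) g2
          have hx0L' : x0 ∈ L' := by
            obtain ⟨⟨l', hl'⟩, _, _⟩ := g2
            rw [hl']; exact List.mem_cons_self
          have hch := inv_chain hc g2
          have h5 := okp_sound G (fun i hi => (g2.2.1 i hi).1) hx0L' L' (fun i hi => hi) hch
          -- the masks agree
          have hm : msk (v :: L) 0 = msk L' 0 := by
            apply Nat.eq_of_testBit_eq
            intro i
            rw [← bit_eq, ← bit_eq, bit_msk, bit_msk, bit_zero, Bool.false_or, Bool.false_or,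
              decide_eq_decide, g3, List.mem_cons]
          rw [hm]
          exact h5
        · exact ih _ h3 L (List.mem_append_right _ hL') hI
      · have hv' : Nat.blt v 32 = false := Bool.eq_false_iff.2 hv
        rw [hv', cond_false, Bool.and_eq_true] at h
        rcases List.mem_cons.1 hL with rfl | hL'
        · exact leaf_sound G hc hI h.1
        · exact ih _ h.2 L hL' hI

/-- ABSORBER THEOREM: a certificate `code` gives a legal permutation of the words which makes one cycle. -/
theorem absorb {f : Perm W} {w : ℕ → W} {A F Z x0 z0 : ℕ} {al : List ℕ}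
    (G : Gad f w A F Z x0 z0 al.length) (cF : ℕ) (code : List ℕ)
    (h : run A F Z x0 z0 cF al code [[x0]] = true) : Concl f w al := by
  obtain ⟨l, hc, hn, hl⟩ := orbit_list f (w x0)
  refine run_sound G hc hn hl code _ h [x0] (List.mem_singleton_self _) ⟨⟨[], rfl⟩, ?_, ?_⟩
  · intro i hi
    rw [List.mem_singleton] at hi
    subst hi
    exact ⟨G.x0N, G.x0F⟩
  · rw [List.nodup_cons] at hn
    have h1 : l.filter (fun y => decide (y ∈ [x0].map w)) = [] := by
      rw [List.filter_eq_nil_iff]
      intro y hy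
      simp only [List.map_cons, List.map_nil, List.mem_singleton, decide_eq_true_iff]
      rintro rfl
      exact hn.1 hy
    rw [List.filter_cons_of_pos (by simp), h1]
    rfl

end Abs

end Pool.OddHC
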