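import Pool.Agent.Work.MP_8f87b2_h35.Abs
import Pool.Agent.Work.MP_8f87b2_und.Dir

/-!
MP_8f87b2_co: a gadget of Dyck words with a certificate absorbs (in the form `DG.Abs` of the assembly theorem).
-/

namespace Pool.OddHC

open Finset Equiv Pool.Agent.Work.MP_8f87b2_co

variable {k : ℕ}

namespace Abs

theorem FR.toFr {f : Perm (X k)} {B : Finset (X k)} {w : ℕ → X k} {N : ℕ}
    (hB : ∀ x, x ∈ B ↔ Wd w N x) {u v : X k} (h : FR f B u v) : Fr f (Wd w N) u v := by
  obtain ⟨n, h1, h2⟩ := h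
  refine ⟨n + 1, by omega, h1, ?_⟩
  intro m hm1 hm2 hs
  obtain ⟨i, rfl⟩ : ∃ i, m = i + 1 := ⟨m - 1, by omega⟩
  exact h2 i (by omega) ((hB _).2 hs)

/-- GADGET THEOREM. `w 0, ..., w (N - 1)` are the words of the gadget `g` (`N = al.length`), `F` = mask of the new words,
`Z` = their successors on the new T-cycles, `A` = known arcs, `s i` = position of the star of `w i` in the frame of its
block, `al` = masks of the allowed images, `code` = certificate. -/
theorem cert_abs (g : DG k) (w : ℕ → X k) (s : ℕ → ZMod (2 * k + 1)) (A F Z x0 z0 cF : ℕ)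
    (al code : List ℕ)
    (hB : ∀ x, x ∈ g.B ↔ ∃ i < al.length, w i = x)
    (hinj : ∀ i < al.length, ∀ j < al.length, w i = w j → i = j)
    (hF : ∀ i < al.length, (w i ∈ g.F ↔ bit F i = true))
    (hFN : ∀ i, bit F i = true → i < al.length)
    (hFc : ∀ x y, TT.SameCycle x y → x ∈ g.F → y ∈ g.F)
    (harc : ∀ i < al.length, dig A i < al.length → (w i, w (dig A i)) ∈ g.arcs)
    (hZ : ∀ i, bit F i = true → bit F (dig Z i) = true ∧ FR TT g.B (w i) (w (dig Z i)))
    (hfr : ∀ i < al.length, ∀ j < al.length, bit (al.getD i 0) j = true →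
      io (w i) (s i) ⊆ insert (s j) (io (w j) (s j)))
    (hx0N : x0 < al.length) (hx0F : bit F x0 = false) (hz0F : bit F z0 = true)
    (hrun : run A F Z x0 z0 cF al code [[x0]] = true) : g.Abs := by
  classical
  intro f hfB hfF hfarc hold
  have hB' : ∀ x, x ∈ g.B ↔ Wd w al.length x := hB
  -- on the new T-cycles `f` is `T`
  have hFpow : ∀ x ∈ g.F, ∀ n : ℕ, (f ^ n) x = (TT ^ n) x ∧ (f ^ n) x ∈ g.F := by
    intro x hx n
    induction n with
    | zero => exact ⟨rfl, hx⟩
    | succ n ih =>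
      have h1 : (f ^ (n + 1)) x = TT ((f ^ n) x) := by
        rw [pow_succ', Perm.mul_apply, hfF _ ih.2]
      refine ⟨?_, ?_⟩
      · rw [h1, ih.1, pow_succ' TT, Perm.mul_apply]
      · rw [h1]
        exact hFc _ _ (nat_same 1 (by rw [pow_one])) ih.2
  have G : Gad f w A F Z x0 z0 al.length :=
    { inj := hinj
      x0N := hx0N
      x0F := hx0F
      z0F := hz0F
      FN := hFN
      arc := fun i hi hd => FR.toFr hB' (hfarc _ (harc i hi hd))
      fre := by
        intro i hi
        obtain ⟨h1, n, h2, h3⟩ := hZ i hi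
        refine ⟨h1, FR.toFr hB' ⟨n, ?_, ?_⟩⟩
        · rw [(hFpow _ ((hF i (hFN i hi)).2 hi) _).1]
          exact h2
        · intro m hm
          rw [(hFpow _ ((hF i (hFN i hi)).2 hi) _).1]
          exact h3 m hm
      out := by
        intro i hi hs
        obtain ⟨n, hn⟩ := same_nat hs.symm
        have h1 := (hFpow _ ((hF i (hFN i hi)).2 hi) n).2
        rw [hn, hF x0 hx0N, hx0F] at h1
        exact absurd h1 (by simp)
      old := by
        intro i hi hiF
        apply hold _ ((hB _).2 ⟨x0, hx0N, rfl⟩) _ ((hB _).2 ⟨i, hi, rfl⟩)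
        · rw [hF x0 hx0N, hx0F]; simp
        · rw [hF i hi, hiF]; simp }
  obtain ⟨π, p1, p2, p3, p4⟩ := absorb G cF code hrun
  let s' : X k → ZMod (2 * k + 1) := fun x =>
    if h : ∃ i, i < al.length ∧ w i = x then s h.choose else 0
  have hs' : ∀ i < al.length, s' (w i) = s i := by
    intro i hi
    have h : ∃ j, j < al.length ∧ w j = w i := ⟨i, hi, rfl⟩
    have h2 := h.choose_spec
    have h3 := hinj _ h2.1 i hi h2.2
    show (if h : ∃ j, j < al.length ∧ w j = w i then s h.choose else 0) = _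
    rw [dif_pos h, h3]
  have hoff : ∀ x, x ∉ g.B → π x = x := by
    intro x hx
    apply p1
    intro i hi hix
    exact hx ((hB x).2 ⟨i, hi, hix⟩)
  refine ⟨π, fun x => s' (π x) - s' x, ?_, hoff, ?_, p3, ?_⟩
  · apply legal_of_frame (B := g.B) hoff
    intro x hx
    obtain ⟨i, hi, rfl⟩ := (hB x).1 hx
    obtain ⟨j, hj, hb, he⟩ := p2 i hi
    rw [he, hs' i hi, hs' j hj]
    exact hfr i hi j hj hb
  · intro x hx
    show s' (π x) - s' x = 0
    rw [hoff x hx, sub_self]
  · intro u hu v hv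
    obtain ⟨i, hi, rfl⟩ := (hB u).1 hu
    obtain ⟨j, hj, rfl⟩ := (hB v).1 hv
    exact p4 i hi j hj

end Abs

end Pool.OddHC
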