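import Pool.Agent.Work.MP_8f87b2_h35.Tsq
import Pool.Agent.Work.MP_8f87b2_base.Block

/-!
MP_8f87b2_co: the links of the gadgets. Block 1 = `[R; e, Q, e, e]` = `bw e Q e e R`, block 2 = `[B; e, Q, e, S]` =
`bw e Q e S B`, `(S, B) = sq R`; `T (T (word i of block 1)) = word j of block 2` for
`(i, j) = (0, 0), (1, 1), (3, 2), (6, 5), (8, 4), (9, 7)`. The mirror image of `T` is `T⁻¹`.
-/

namespace Pool.OddHC

open Finset Equiv BinaryTree

variable {k : ℕ}

namespace Tsq

theorem TT_eq {x y : X k} (hx : x.1 ≠ .nil) (h : y.1 = app (sq x.1).2 (sq x.1).1) :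
    TT (TT x) = y := Subtype.ext (by rw [TT_sq x hx, h])

/-- the links of the blocks which need only `ht Q ≤ ht R` -/
theorem link {R Q : BinaryTree Unit} (hR : R ≠ .nil) (hQ : ht Q ≤ ht R) {x y : X k} {i j : ℕ}
    (hij : (i, j) ∈ [(1, 1), (3, 2), (6, 5), (8, 4), (9, 7)])
    (hx : x.1 = bw .nil Q .nil .nil R i) (hy : y.1 = bw .nil Q .nil (sq R).1 (sq R).2 j) :
    TT (TT x) = y := by
  have hR1 : 1 ≤ ht R := ht_pos hR
  have hn0 : ht (BinaryTree.nil : BinaryTree Unit) = 0 := rfl
  simp only [List.mem_cons, Prod.mk.injEq, List.not_mem_nil, or_false] at hij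
  rcases hij with ⟨rfl, rfl⟩ | ⟨rfl, rfl⟩ | ⟨rfl, rfl⟩ | ⟨rfl, rfl⟩ | ⟨rfl, rfl⟩
  · -- `R()Q() -> B()Q()S`
    have e : x.1 = app R (.nil △ app Q (.nil △ .nil)) := hx
    have hs := sq_app R (.nil △ app Q (.nil △ .nil)) hR (by rw [ht_node, ht_app, ht_node]; omega)
    apply TT_eq
    · rw [e]; exact app_ne_nil hR
    · rw [e, hs, hy]
      show app (sq R).2 (.nil △ app Q (.nil △ (sq R).1)) = _
      rw [app_assoc]
      show _ = app (sq R).2 (.nil △ app (app Q (.nil △ .nil)) (sq R).1)
      rw [app_assoc]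
      rfl
  · -- `(R()Q) -> (S)B()Q`
    have e : x.1 = (app R (.nil △ Q)) △ .nil := hx
    have hs := sq_app R (.nil △ Q) hR (by rw [ht_node]; omega)
    have hs2 := sq_wrap (R := app R (.nil △ Q)) (Z := .nil) (app_ne_nil hR) (by rw [hn0]; omega)
    apply TT_eq
    · rw [e]; intro h; cases h
    · rw [e, hs2, hs, hy]
      rfl
  · -- `(R)(Q) -> (Q)(S)B`
    have e : x.1 = R △ (Q △ .nil) := hx
    have hs2 := sq_wrap (R := R) (Z := Q △ .nil) hR (by rw [ht_node]; omega)
    apply TT_eq
    · rw [e]; intro h; cases h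
    · rw [e, hs2, hy]
      rfl
  · -- `Q()(R) -> (Q()S)B`
    have e : x.1 = app (app Q (.nil △ .nil)) (R △ .nil) := by
      rw [app_assoc]; exact hx
    have hs2 := sq_wrap (R := R) (Z := .nil) hR (by rw [hn0]; omega)
    have hs3 := sq_pre (app Q (.nil △ .nil)) (R △ .nil) (by rw [ht_app, ht_node, ht_node]; omega)
    apply TT_eq
    · rw [e]
      intro h
      have := congrArg BinaryTree.numNodes h
      rw [num_app, num_app] at this
      simp [BinaryTree.numNodes] at this
    · rw [e, hs3, hs2, hy]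
      show _ = (app (app Q (.nil △ .nil)) (sq R).1) △ (sq R).2
      rw [app_assoc]
      rfl
  · -- `((R))Q -> Q((S)B)`
    have e : x.1 = (R △ .nil) △ Q := hx
    have hs := sq_wrap (R := R) (Z := .nil) hR (by rw [hn0]; omega)
    have hs2 := sq_wrap (R := R △ .nil) (Z := Q) (by intro h; cases h) (by rw [ht_node]; omega)
    apply TT_eq
    · rw [e]; intro h; cases h
    · rw [e, hs2, hs, hy]
      rfl

/-- `R((Q)) -> B((Q))S` -/
theorem link0 {R Q : BinaryTree Unit} (hQ : ht Q + 2 ≤ ht R) {x y : X k}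
    (hx : x.1 = bw .nil Q .nil .nil R 0) (hy : y.1 = bw .nil Q .nil (sq R).1 (sq R).2 0) :
    TT (TT x) = y := by
  have hn0 : ht (BinaryTree.nil : BinaryTree Unit) = 0 := rfl
  have hR : R ≠ .nil := by
    rintro rfl
    rw [hn0] at hQ
    omega
  have e : x.1 = app R ((Q △ .nil) △ .nil) := hx
  have hs := sq_app R ((Q △ .nil) △ .nil) hR (by rw [ht_node, ht_node]; omega)
  apply TT_eq
  · rw [e]; exact app_ne_nil hR
  · rw [e, hs, hy]
    show _ = app (app (sq R).2 ((Q △ .nil) △ .nil)) (sq R).1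
    rw [app_assoc]
    rfl

/-! ### Mirror -/

/-- the mirror image -/
def mir : BinaryTree Unit → BinaryTree Unit
  | .nil => .nil
  | .node _ A B => app (mir B) (mir A △ .nil)

theorem wd_mir (t : BinaryTree Unit) : wd (mir t) = ((wd t).map not).reverse := by
  induction t with
  | nil => rfl
  | node _ A B ihA ihB =>
    rw [mir, wd_app, wd_node, ihA, ihB, wd_node]
    simp [wd]

theorem mir_mir (t : BinaryTree Unit) : mir (mir t) = t := by
  apply wd_ext
  rw [wd_mir, wd_mir]
  simp [Function.comp_def]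

theorem mir_app (P Q : BinaryTree Unit) : mir (app P Q) = app (mir Q) (mir P) := by
  apply wd_ext
  simp only [wd_mir, wd_app, List.map_append, List.reverse_append]

theorem mir_node (A B : BinaryTree Unit) : mir (A △ B) = app (mir B) (mir A △ .nil) := rfl

theorem mir_num (t : BinaryTree Unit) : (mir t).numNodes = t.numNodes := by
  have h := congrArg List.length (wd_mir t)
  rw [wd_length, List.length_reverse, List.length_map, wd_length] at h
  omega

/-- the mirror image in `X k` -/
def mirX (x : X k) : X k := ⟨mir x.1, mem_treesOfNumNodesEq.2 (by rw [mir_num, X_num])⟩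

/-- `T` by a decomposition, existence -/
theorem TT_dec (x : X k) (hx : x.1 ≠ .nil) : ∃ a b : List Bool, wd x.1 = a ++ true :: b ∧
    wd (TT x).1 = b.map not ++ false :: a.map not := by
  obtain ⟨a, c, h1, h2, h3, h4, h5, h6, h7⟩ := sq_spec x.1 hx
  obtain ⟨t, ht⟩ := T_tree h3 h4 h5 h6 h7
  refine ⟨a, c ++ false :: wd (sq x.1).2, h1, ?_⟩
  have e1 : (TF x).1 = t := TF_of h1 (by rw [ht]; simp)
  rw [TT_apply, e1, ht]
  simp

/-- MIRROR: `T (mirror (T x)) = mirror x` -/
theorem TT_mir (x : X k) : TT (mirX (TT x)) = mirX x := by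
  by_cases hx : x.1 = .nil
  · have h0 : k = 0 := by
      have := X_num x
      rw [hx] at this
      exact this.symm
    subst h0
    have hall : ∀ y z : X 0, y = z := by
      intro y z
      apply Subtype.ext
      have hy := X_num y
      have hz := X_num z
      cases hy' : y.1 with
      | nil =>
        cases hz' : z.1 with
        | nil => rfl
        | node _ A B => rw [hz'] at hz; simp [BinaryTree.numNodes] at hz
      | node _ A B => rw [hy'] at hy; simp [BinaryTree.numNodes] at hy
    exact hall _ _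
  · obtain ⟨a, b, h1, h2⟩ := TT_dec x hx
    apply Subtype.ext
    show (TF (mirX (TT x))).1 = mir x.1
    apply TF_of (a := a.reverse) (b := b.reverse)
    · show wd (mir (TT x).1) = _
      rw [wd_mir, h2]
      simp [Function.comp_def]
    · rw [wd_mir, h1]
      simp

/-- links of the mirror images -/
theorem TT_mir2 {x y : X k} (h : TT (TT x) = y) : TT (TT (mirX y)) = mirX x := by
  rw [← h, TT_mir, TT_mir]

end Tsq

end Pool.OddHC
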