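import Pool.Agent.Work.MP_8f87b2_h58.InA0
import Pool.Agent.Work.MP_8f87b2_h40.JG

/-!
# MP_8f87b2_co: the inner words of the bare windows against the one soliton gadgets

`InnP.not_Mx`: no word with the start and the end of an inner word (helper58's `InnP`) is a mirrored mixed word, if it has a part 1
or if it is not `(Y)` with `fh Y = 2`. `One`: content with at most one part larger than 2. `InnP.not_JG`, `TyA0.inner_JG`.
-/

set_option autoImplicit false

namespace Pool.OddHC

open BinaryTree Multiset Equiv Pool.Agent.Work.MP_8f87b2_co HM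

namespace J

open H1

/-- one part larger than 2 -/
def One (M : Multiset ℕ) : Prop := ∃ h L, M = h ::ₘ L ∧ 3 ≤ h ∧ ∀ p ∈ L, p ≤ 2

theorem One.add {M L : Multiset ℕ} (h : One M) (hL : ∀ p ∈ L, p ≤ 2) : One (M + L) := by
  obtain ⟨a, L0, rfl, h1, h2⟩ := h
  refine ⟨a, L0 + L, by rw [cons_add], h1, ?_⟩
  intro p hp
  rcases Multiset.mem_add.1 hp with hp | hp
  · exact h2 p hp
  · exact hL p hp

theorem One.raise {M : Multiset ℕ} (h : One M) : One (raise M) := by
  obtain ⟨a, L, rfl, h1, h2⟩ := h
  have h3 : (a ::ₘ L).sup = a := by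
    rw [Multiset.sup_cons]
    apply sup_eq_left.2
    exact Multiset.sup_le.2 fun p hp => (h2 p hp).trans (by omega)
  refine ⟨a + 1, L, ?_, by omega, h2⟩
  unfold OddHC.raise
  rw [h3, Multiset.erase_cons_head]

theorem One.eq_sup {M : Multiset ℕ} (h : One M) {p : ℕ} (hp : p ∈ M) (h3 : 3 ≤ p) : M.sup ≤ p := by
  obtain ⟨a, L, rfl, h1, h2⟩ := h
  rw [Multiset.mem_cons] at hp
  have hp' : p = a := by
    rcases hp with hp | hp
    · exact hp
    · have := h2 p hp
      omega
  subst hp'
  rw [Multiset.sup_cons]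
  exact sup_le le_rfl (Multiset.sup_le.2 fun x hx => (h2 x hx).trans (by omega))

theorem one_RF {n : ℕ} (hn : 1 ≤ n) (G : ZMod (2 * n + 1) → ℕ) : One (cont (Ring1.RF n G)) := by
  rw [Ring1.cont_RF hn, Multiset.singleton_add]
  refine ⟨n + 2, _, rfl, by omega, ?_⟩
  intro p hp
  exact le_of_eq (Multiset.eq_of_mem_replicate hp)

theorem one_Pu {n : ℕ} (hn : 1 ≤ n) {Φ : ZMod (2 * n + 1) → ℕ} {t : BinaryTree Unit}
    (h : IsPu n Φ t) : One (cont t) := by
  obtain ⟨i, hi, _, _, rfl⟩ := h
  have h1 := one_RF hn Φ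
  have s1 : ∀ p ∈ ({1} : Multiset ℕ), p ≤ 2 := by
    intro p hp
    rw [Multiset.mem_singleton] at hp
    omega
  have s2 : ∀ p ∈ (OddHC.raise {1} : Multiset ℕ), p ≤ 2 := by
    have e : (OddHC.raise {1} : Multiset ℕ) = {2} := by decide
    rw [e]
    intro p hp
    rw [Multiset.mem_singleton] at hp
    omega
  have c1 : ∀ {M : Multiset ℕ}, One M → One ({1} + M) := fun h => by
    rw [add_comm]
    exact h.add s1
  interval_cases i <;>
    simp only [pw, W, cont_app, cont_node, cont_nil, raise_zero, app, add_zero, zero_add]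
  · exact h1.add s2
  · rw [← add_assoc]
    exact (h1.add s1).add s1
  · exact c1 (h1.add s1)
  · exact (h1.add s1).raise
  · rw [add_comm]
    exact h1.add s2
  · exact c1 (c1 h1)
  · exact h1.raise.add s1
  · exact (c1 h1).raise
  · exact c1 h1.raise
  · exact h1.raise.raise

theorem b2_succ (t : ℕ) : b2 (t + 1) = l1 △ b2 t := rfl

theorem b2_succ' (t : ℕ) : b2 (t + 1) = app (b2 t) (l1 △ .nil) := by
  apply cs_inj
  rw [cs_app, cs_b2, cs_b2, cs_node, cs_nil, List.replicate_succ']

theorem wd_b2 (t : ℕ) : wd (b2 (t + 1)) = wd (b2 t) ++ [true, true, false, false] := by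
  rw [b2_succ', wd_app]
  rfl

theorem ht_b2' (t : ℕ) : OddHC.ht (b2 (t + 1)) = 2 := by
  induction t with
  | zero => rfl
  | succ t ih =>
    rw [b2_succ, ht_node, ih]
    rfl

theorem mem_one_RR {t u : ℕ} {D : BinaryTree Unit} {n : ℕ} (hn : 1 ≤ n) {Ψ : ZMod (2 * n + 1) → ℕ}
    (h : Tsq.mir (Ring1.RF n Ψ) = RR t D u) : ∀ p ∈ cont (RR 0 D u), 2 ≤ p := by
  have h1 : cont (RR t D u) = {n + 2} + Multiset.replicate (∑ x, Ψ x) 2 := by
    rw [← h, HM.cont_mir, Ring1.cont_RF hn]
  have h2 : cont (RR t D u) = Multiset.replicate t 2 + cont (RR 0 D u) := by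
    change cont (lv2 t (RR 0 D u)) = _
    rw [cont_lv2]
  intro p hp
  have h3 : p ∈ cont (RR t D u) := by
    rw [h2]
    exact Multiset.mem_add.2 (Or.inr hp)
  rw [h1] at h3
  rcases Multiset.mem_add.1 h3 with h3 | h3
  · rw [Multiset.mem_singleton] at h3
    omega
  · rw [Multiset.eq_of_mem_replicate h3]

/-- number of parts larger than 2 -/
def c3 (M : Multiset ℕ) : ℕ := M.countP (3 ≤ ·)

theorem c3_add (M N : Multiset ℕ) : c3 (M + N) = c3 M + c3 N := Multiset.countP_add _ _ _

theorem c3_raise_le (M : Multiset ℕ) : c3 (OddHC.raise M) ≤ c3 M + 1 := by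
  unfold c3 OddHC.raise
  rw [Multiset.countP_cons]
  have h1 : (M.erase M.sup).countP (3 ≤ ·) ≤ M.countP (3 ≤ ·) :=
    Multiset.countP_le_of_le _ (Multiset.erase_le _ _)
  split <;> omega

theorem c3_raise {M : Multiset ℕ} (h : 3 ≤ M.sup) : c3 (OddHC.raise M) ≤ c3 M := by
  have h0 : M ≠ 0 := by
    rintro rfl
    simp at h
  have h1 := Multiset.cons_erase (sup_mem h0)
  have h2 : c3 M = c3 (M.erase M.sup) + 1 := by
    conv_lhs => rw [← h1]
    unfold c3
    rw [Multiset.countP_cons, if_pos h]
  have h3 : c3 (OddHC.raise M) ≤ c3 (M.erase M.sup) + 1 := by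
    unfold c3 OddHC.raise
    rw [Multiset.countP_cons]
    split <;> omega
  omega

theorem c3_raise_ge {M : Multiset ℕ} (h : 3 ≤ M.sup) : c3 M ≤ c3 (OddHC.raise M) := by
  have h0 : M ≠ 0 := by
    rintro rfl
    simp at h
  have h1 := Multiset.cons_erase (sup_mem h0)
  have h2 : c3 M = c3 (M.erase M.sup) + 1 := by
    conv_lhs => rw [← h1]
    unfold c3
    rw [Multiset.countP_cons, if_pos h]
  have h3 : c3 (OddHC.raise M) = c3 (M.erase M.sup) + 1 := by
    unfold c3 OddHC.raise
    rw [Multiset.countP_cons, if_pos (by omega)]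
  omega

theorem c3_all {M : Multiset ℕ} (h : ∀ p ∈ M, 3 ≤ p) : c3 M = Multiset.card M := by
  unfold c3
  rw [Multiset.countP_eq_card]
  exact h

theorem c3_two {M : Multiset ℕ} (h : ∀ p ∈ M, p ≤ 2) : c3 M = 0 := by
  unfold c3
  rw [Multiset.countP_eq_zero]
  intro p hp h3
  have := h p hp
  omega

theorem c3_one {M : Multiset ℕ} (h : One M) : c3 M = 1 := by
  obtain ⟨a, L, rfl, h1, h2⟩ := h
  have := c3_two h2
  unfold c3 at this ⊢
  rw [Multiset.countP_cons, if_pos h1, this]

theorem two_c3 {M : Multiset ℕ} {p : ℕ} (hp : p ∈ M) (h3 : 3 ≤ p) (h : p < M.sup) : 2 ≤ c3 M := by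
  have h0 : M ≠ 0 := by
    rintro rfl
    simp at h
  have h1 := Multiset.cons_erase (sup_mem h0)
  have h2 : c3 M = c3 (M.erase M.sup) + 1 := by
    conv_lhs => rw [← h1]
    unfold c3
    rw [Multiset.countP_cons, if_pos (show 3 ≤ M.sup by omega)]
  have h4 : p ∈ M.erase M.sup := (Multiset.mem_erase_of_ne (by omega)).2 hp
  have h5 : 0 < c3 (M.erase M.sup) := Multiset.countP_pos.2 ⟨p, h4, h3⟩
  omega

/-- **mixed words** -/
theorem _root_.Pool.OddHC.H1.InnP.not_Mx {g0 : ℕ} {x : BinaryTree Unit} (h : InnP g0 x) {n : ℕ}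
    (hn : 1 ≤ n) (hc : 4 ≤ g0 ∨ 1 ∈ cont x ∨ 3 ≤ c3 (cont x) ∨ ∀ Y, x = Y △ .nil → fh Y ≠ 2) (Ψ : ZMod (2 * n + 1) → ℕ) :
    ¬ IsMx n Ψ x := by
  rintro ⟨t, D, u, i, ht, hD, h1, hi, hi', e⟩
  have g3 := h.g3
  obtain ⟨t, rfl⟩ : ∃ t', t = t' + 1 := ⟨t - 1, by omega⟩
  have e' : Tsq.mir x = mw (t + 1) D u i := by rw [e, mir_mir']
  have hm : InnP g0 (mw (t + 1) D u i) := by
    rw [← e']
    exact ⟨g3, h.en.mir, h.sta.mir⟩
  have hx : cont x = cont (mw (t + 1) D u i) := by rw [← e', HM.cont_mir]
  obtain ⟨r, hr⟩ := H1.wd_last (t := RR 0 D u) (by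
    intro e0
    have := congrArg cs e0
    rw [cs_RR] at this
    simp at this)
  by_cases h19 : i = 19
  · subst h19
    have e1 : mw (t + 1) D u 19 = app (RR 0 D u) (b2 (t + 1) △ .nil) △ .nil := rfl
    have e2 : wd (mw (t + 1) D u 19) = true :: (wd (RR 0 D u) ++ true :: (wd (b2 t) ++
        [true, true, false, false, false, false])) := by
      rw [e1, wd_node, wd_app, wd_node, wd_b2]
      simp [wd]
    have h4 := hm.stop (n := 4) (v := true :: (wd (RR 0 D u) ++ true :: (wd (b2 t) ++ [true]))) (by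
      rw [e2]
      simp [List.replicate])
    -- `g0 = 4` is impossible
    have h5 : g0 ≠ 4 := by
      rintro rfl
      rcases hm.en with ⟨r', h6⟩ | ⟨r', h6⟩
      · rw [e2] at h6
        have h7 : (true :: (wd (RR 0 D u) ++ true :: (wd (b2 t) ++ [true]))) ++
            [true, false, false, false, false] = r' ++ [false, false, false, false, false] := by
          simpa [List.replicate] using h6
        have h8 := List.append_inj_right' h7 rfl
        simp at h8
      · rw [e2] at h6
        cases t with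
        | zero =>
          rw [hr] at h6
          have h7 : (true :: r) ++ [false, true, true, true, false, false, false, false] =
              r' ++ [true, true, true, true, false, false, false, false] := by
            simpa [List.replicate, b2, lv2, wd] using h6
          have h8 := List.append_inj_right' h7 rfl
          simp at h8
        | succ t =>
          have h7 : (true :: (wd (RR 0 D u) ++ true :: (wd (b2 t) ++ [true, true, false]))) ++
              [false, true, true, false, false, false, false] =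
              (r' ++ [true]) ++ [true, true, true, false, false, false, false] := by
            rw [wd_b2] at h6
            simpa [List.replicate] using h6
          have h8 := List.append_inj_right' h7 rfl
          simp at h8
    rcases hc with hc | hc | hc | hc
    · omega
    · -- a part 1
      have k1 := mem_one_RR hn h1
      have k2 : ∀ p ∈ cont (b2 (t + 1)), 2 ≤ p := by
        intro p hp
        have : cont (b2 (t + 1)) = Multiset.replicate (t + 1) 2 := by
          change cont (lv2 (t + 1) .nil) = _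
          rw [cont_lv2, cont_nil, add_zero]
        rw [this] at hp
        rw [Multiset.eq_of_mem_replicate hp]
      have k3 : ∀ {A : BinaryTree Unit}, A ≠ .nil → (∀ p ∈ cont A, 2 ≤ p) →
          ∀ p ∈ OddHC.raise (cont A), 2 ≤ p := by
        intro A hA h8 p hp
        rcases raise_mem hp with hp | hp
        · have : (cont A).sup ≠ 0 := by
            rw [← OddHC.ht_eq]
            cases A with
            | nil => exact absurd rfl hA
            | node _ A C =>
              change OddHC.ht (A △ C) ≠ 0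
              rw [ht_node]
              omega
          omega
        · exact h8 p hp
      have k4 : ∀ p ∈ cont (app (RR 0 D u) (b2 (t + 1) △ .nil)), 2 ≤ p := by
        intro p hp
        rw [cont_app, cont_node, cont_nil, add_zero] at hp
        rcases Multiset.mem_add.1 hp with hp | hp
        · exact k1 p hp
        · exact k3 (by rw [b2_succ]; simp) k2 p hp
      have k5 : ∀ p ∈ cont (mw (t + 1) D u 19), 2 ≤ p := by
        intro p hp
        rw [e1, cont_node, cont_nil, add_zero] at hp
        refine k3 ?_ k4 p hp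
        intro e0
        have := congrArg cs e0
        rw [cs_app, cs_RR] at this
        simp at this
      rw [hx] at hc
      have := k5 1 hc
      omega
    · -- three parts larger than 2
      exfalso
      have k1 : c3 (cont (RR 0 D u)) ≤ 1 := by
        have h8 : cont (RR (t + 1) D u) = {n + 2} + Multiset.replicate (∑ x, Ψ x) 2 := by
          rw [← h1, HM.cont_mir, Ring1.cont_RF hn]
        have h9 : cont (RR (t + 1) D u) = Multiset.replicate (t + 1) 2 + cont (RR 0 D u) := by
          change cont (lv2 (t + 1) (RR 0 D u)) = _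
          rw [cont_lv2]
        have h10 := c3_one (one_RF hn Ψ)
        rw [Ring1.cont_RF hn, ← h8, h9, c3_add] at h10
        omega
      have k2 : c3 (OddHC.raise (cont (b2 (t + 1)))) ≤ 1 := by
        have h8 : cont (b2 (t + 1)) = Multiset.replicate (t + 1) 2 := by
          change cont (lv2 (t + 1) .nil) = _
          rw [cont_lv2, cont_nil, add_zero]
        have h9 := c3_raise_le (cont (b2 (t + 1)))
        have h10 : c3 (cont (b2 (t + 1))) = 0 := by
          apply c3_two
          rw [h8]
          intro p hp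
          exact le_of_eq (Multiset.eq_of_mem_replicate hp)
        omega
      have k3 : c3 (cont (app (RR 0 D u) (b2 (t + 1) △ .nil))) ≤ 2 := by
        rw [cont_app, cont_node, cont_nil, add_zero, c3_add]
        omega
      have k4 : 3 ≤ (cont (app (RR 0 D u) (b2 (t + 1) △ .nil))).sup := by
        rw [← OddHC.ht_eq, ht_app, ht_node, ht_b2']
        omega
      have k5 := c3_raise k4
      rw [hx, e1, cont_node, cont_nil, add_zero] at hc
      omega
    · refine hc (Tsq.mir (b2 (t + 1)) △ Tsq.mir (RR 0 D u)) ?_ ?_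
      · have h0 : Tsq.mir BinaryTree.nil = BinaryTree.nil := rfl
        rw [e]
        change Tsq.mir (mw (t + 1) D u 19) = _
        rw [e1]
        simp only [Tsq.mir_node, Tsq.mir_app, h0, app, app_nil', app_assoc']
      · rw [fh_node (by
          intro e0
          have := congrArg Tsq.mir e0
          rw [mir_mir'] at this
          rw [b2_succ] at this
          exact absurd this (by simp [Tsq.mir])), HM.ht_mir, ht_b2']
  · have hi2 : i = 11 ∨ i = 12 ∨ i = 13 ∨ i = 14 ∨ i = 15 ∨ i = 16 ∨ i = 17 ∨ i = 18 := by omega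
    rcases hi2 with rfl | rfl | rfl | rfl | rfl | rfl | rfl | rfl
    · have h2 := hm.start (n := 2) (v := false :: (wd (b2 t) ++ wd (.nil △ (.nil △ RR 0 D u)))) (by
        change wd (app (b2 (t + 1)) (.nil △ (.nil △ RR 0 D u))) = _
        rw [wd_app, b2_succ, wd_node]
        simp [wd, wd_node])
      omega
    · exact hm.not_last (Y := RR 0 D u △ b2 (t + 1)) rfl
    · have h2 := hm.stop (n := 2) (v := wd (RR 0 D u) ++ true :: wd (b2 (t + 1)) ++ [] ) (by
        change wd (app (RR 0 D u) (app (b2 (t + 1)) (.nil △ .nil) △ .nil)) = _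
        rw [wd_app, wd_node, wd_app, wd_node]
        simp [wd, List.replicate])
      omega
    · have h2 := hm.stop (n := 2) (v := true :: (wd (.nil △ RR 0 D u) ++ false :: (wd (b2 t) ++ [true]))) (by
        change wd ((.nil △ RR 0 D u) △ b2 (t + 1)) = _
        rw [wd_node, wd_b2]
        simp [List.replicate])
      omega
    · exact hm.not_first (Y := RR 0 D u △ b2 (t + 1)) rfl
    · apply hm.not_last (Y := app (RR 0 D u) (b2 (t + 1) △ .nil))
      rw [app_assoc]
      rfl
    · have e1 : mw (t + 1) D u 17 = (RR 0 D u △ b2 (t + 1)) △ .nil := rfl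
      have e2 : wd (mw (t + 1) D u 17) = true :: (true :: (wd (RR 0 D u) ++ false :: (wd (b2 t) ++
          [true, true, false, false, false]))) := by
        rw [e1, wd_node, wd_node, wd_b2]
        simp [wd]
      have h2 := hm.stop (n := 3) (v := true :: (true :: (wd (RR 0 D u) ++ false :: (wd (b2 t) ++
          [true])))) (by
        rw [e2]
        simp [List.replicate])
      have h3 : g0 = 3 := by omega
      subst h3
      rcases hm.en with ⟨r', h6⟩ | ⟨r', h6⟩
      · rw [e2] at h6
        have h7 : (true :: (true :: (wd (RR 0 D u) ++ false :: (wd (b2 t) ++ [true])))) ++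
            [true, false, false, false] = r' ++ [false, false, false, false] := by
          simpa [List.replicate] using h6
        have h8 := List.append_inj_right' h7 rfl
        simp at h8
      · rw [e2] at h6
        cases t with
        | zero =>
          have h7 : (true :: (true :: (wd (RR 0 D u)))) ++ [false, true, true, false, false, false] =
              r' ++ [true, true, true, false, false, false] := by
            simpa [List.replicate, b2, lv2, wd] using h6
          have h8 := List.append_inj_right' h7 rfl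
          simp at h8
        | succ t =>
          have h7 : (true :: (true :: (wd (RR 0 D u) ++ false :: (wd (b2 t) ++ [true, true, false])))) ++
              [false, true, true, false, false, false] = r' ++ [true, true, true, false, false, false] := by
            rw [wd_b2] at h6
            simpa [List.replicate] using h6
          have h8 := List.append_inj_right' h7 rfl
          simp at h8
    · exact hm.not_first (Y := app (RR 0 D u) (b2 (t + 1) △ .nil)) rfl

/-- two parts larger than 2 -/
theorem not_one {M : Multiset ℕ} {p : ℕ} (hp : p ∈ M) (h3 : 3 ≤ p) (h : p < M.sup) : ¬ One M := by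
  intro h1
  have := h1.eq_sup hp h3
  omega

theorem c3_raise_mono (M : Multiset ℕ) : c3 M ≤ c3 (OddHC.raise M) := by
  unfold c3
  rcases eq_or_ne M 0 with rfl | h
  · simp
  · unfold OddHC.raise
    have h1 := Multiset.cons_erase (sup_mem h)
    conv_lhs => rw [← h1]
    rw [Multiset.countP_cons, Multiset.countP_cons]
    split
    · rw [if_pos (by omega)]
    · omega

theorem c3_node_le {A B : BinaryTree Unit} {a : ℕ} (hA : a ≤ c3 (cont A) ∨ a ≤ c3 (cont B)) :
    a ≤ c3 (cont (A △ B)) := by
  rw [cont_node, c3_add]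
  have := c3_raise_mono (cont A)
  rcases hA with h | h <;> omega

theorem c3_app_le {P Q : BinaryTree Unit} {a : ℕ} (hP : a ≤ c3 (cont P) ∨ a ≤ c3 (cont Q)) :
    a ≤ c3 (cont (app P Q)) := by
  rw [cont_app, c3_add]
  rcases hP with h | h <;> omega

/-- the number of parts at least 3 of the words 0, 1, 3, 6, 8, 9 -/
theorem c3_W (R Q B S : BinaryTree Unit) {i : ℕ} (hi : i ∈ [0, 1, 3, 6, 8, 9]) :
    c3 (cont R) ≤ c3 (cont (H1.W R Q B S i)) := by
  simp only [List.mem_cons, List.not_mem_nil, or_false] at hi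
  rcases hi with rfl | rfl | rfl | rfl | rfl | rfl
  · exact c3_app_le (Or.inl le_rfl)
  · exact c3_app_le (Or.inl le_rfl)
  · exact c3_node_le (Or.inl (c3_app_le (Or.inl le_rfl)))
  · exact c3_node_le (Or.inl le_rfl)
  · exact c3_app_le (Or.inr (c3_node_le (Or.inr (c3_node_le (Or.inl le_rfl)))))
  · exact c3_node_le (Or.inl (c3_node_le (Or.inl le_rfl)))

/-- **no word of the one soliton gadgets** -/
theorem _root_.Pool.OddHC.H1.InnP.not_JG1 {k g0 : ℕ} {w : X k} (h : InnP g0 w.1) {n : ℕ} (hn : 1 ≤ n)
    (h1 : ¬ One (cont w.1))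
    (hc : 4 ≤ g0 ∨ 1 ∈ cont w.1 ∨ 3 ≤ c3 (cont w.1) ∨ ∀ Y, w.1 = Y △ .nil → fh Y ≠ 2)
    {B : Finset (X k)} {P U M : Set (ZMod (2 * n + 1) → ℕ)} (h' : JG n B P U M) : w ∉ B := by
  intro hw
  rcases h' w hw with ⟨Φ, _, h2⟩ | ⟨G, _, h2⟩ | ⟨Ψ, _, h2⟩
  · exact h1 (one_Pu hn h2)
  · apply h1
    rw [h2.2]
    exact one_RF hn G
  · exact h.not_Mx hn hc Ψ h2

/-- **no word of the one soliton gadgets** -/
theorem _root_.Pool.OddHC.H1.InnP.not_JG {k g0 : ℕ} {w : X k} (h : InnP g0 w.1) {n : ℕ} (hn : 1 ≤ n) {p : ℕ}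
    (hp : p ∈ cont w.1) (h3 : 3 ≤ p) (hp' : p < OddHC.ht w.1)
    (hc : 4 ≤ g0 ∨ 1 ∈ cont w.1 ∨ 3 ≤ c3 (cont w.1) ∨ ∀ Y, w.1 = Y △ .nil → fh Y ≠ 2)
    {B : Finset (X k)} {P U M : Set (ZMod (2 * n + 1) → ℕ)} (h' : JG n B P U M) : w ∉ B := by
  intro hw
  have h1 : ¬ One (cont w.1) := not_one hp h3 (by rw [← OddHC.ht_eq]; exact hp')
  rcases h' w hw with ⟨Φ, _, h2⟩ | ⟨G, _, h2⟩ | ⟨Ψ, _, h2⟩
  · exact h1 (one_Pu hn h2)
  · apply h1
    rw [h2.2]
    exact one_RF hn G
  · exact h.not_Mx hn hc Ψ h2

end J

open J H1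

/-- **the windows**: words 0, 1, 3, 8, 9 for all `q`, word 6 for `1 ≤ q`, word 6 for `q = 0` if the word is not `(Y)` with `fh Y = 2`;
both orientations -/
theorem HM.NodeM.not_JG {k q : ℕ} {R B S : BinaryTree Unit} (h : HM.NodeM k q R B S) (w0 : X k) {i : ℕ}
    (hi : i ∈ [0, 1, 3, 6, 8, 9]) {w : X k}
    (hw : w = TT (wX R B S q w0 i) ∨ w = Tsq.mirX (TT (wX R B S q w0 i)))
    (hc : q = 0 → i = 6 → Multiset.card (cont R) = 2 → ∀ Y, w.1 = Y △ .nil → fh Y ≠ 2) {n : ℕ} (hn : 1 ≤ n)
    {A : Finset (X k)} {P U M : Set (ZMod (2 * n + 1) → ℕ)} (h' : JG n A P U M) : w ∉ A := by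
  have hi0 := hi
  obtain ⟨c1, c2, c3⟩ := h.winn w0 hi0 hw
  have htop := h.top
  have hin : InnP (q + 3) w.1 := by
    rcases hw with rfl | rfl
    · exact (h.inn w0 hi0).1
    · exact (h.inn w0 hi0).2
  obtain ⟨d1, d2⟩ := count_WQ (R := R) (B := B) (S := S) (q := q) (by omega)
  have k0 : J.c3 (cont R) = Multiset.card (cont R) := c3_all fun p hp => le_trans (by omega) (h.part p hp)
  have k1 : ¬ J.One (cont w.1) := by
    intro k2
    have k3 := J.c3_one k2
    have k4 := J.c3_W R (ch (q + 1)) B S hi0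
    have k5 := h.cardR
    rw [c1] at k3
    omega
  refine hin.not_JG1 hn k1 ?_ h'
  by_cases hq : q = 0
  · subst hq
    by_cases h6 : i = 6
    · subst h6
      have h5 : 2 ≤ J.c3 (cont R) := two_c3 h.mem (by omega) (by rw [← OddHC.ht_eq]; exact htop)
      have h8 : J.c3 (cont R) = Multiset.card (cont R) := c3_all fun p hp => h.part p hp
      rcases Nat.lt_or_ge 2 (Multiset.card (cont R)) with h9 | h9
      · right; right; left
        have h6 : cont (W R (ch (0 + 1)) B S 6) = OddHC.raise (cont R) + {2} := by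
          change cont (R △ (ch 1 △ .nil)) = _
          rw [cont_node]
          congr 1
        have h10 : J.c3 (cont R) ≤ J.c3 (OddHC.raise (cont R)) :=
          c3_raise_ge (by rw [← OddHC.ht_eq]; omega)
        rw [c1, h6, J.c3_add]
        omega
      · exact Or.inr (Or.inr (Or.inr (hc rfl rfl (by omega))))
    · by_cases hi1 : i = 0
      · subst hi1
        right; right; left
        have h5 : 2 ≤ J.c3 (cont R) := two_c3 h.mem (by omega) (by rw [← OddHC.ht_eq]; exact htop)
        have h6 : cont (W R (ch (0 + 1)) B S 0) = cont R + {3} := by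
          change cont (app R ((ch 1 △ .nil) △ .nil)) = _
          rw [cont_app]
          congr 1
        rw [c1, h6, J.c3_add]
        have h7 : J.c3 ({3} : Multiset ℕ) = 1 := by decide
        omega
      · right; left
        rw [c1]
        apply Multiset.count_pos.1
        refine d1 i ?_
        simp only [List.mem_cons, List.not_mem_nil, or_false] at hi ⊢
        omega
  · left
    omega

/-- **the inner words of a mirrored bare window**; `hc`: the phase is clean if the content is `{h, 3, 3}` (word 6) -/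
theorem TyA0.inner_JG {k : ℕ} {F : Set (Cyc k)} {g : DG k} (h : TyA0 F g)
    (hc : ∀ p ∈ g.arcs, ∀ w ∈ innA p, 3 ∈ cont w.1 → 2 ∈ cont w.1 → Multiset.card (cont w.1) = 3 →
      ∀ Y, w.1 = Y △ .nil → fh Y ≠ 2)
    {n : ℕ} (hn : 1 ≤ n) {A : Finset (X k)} {P U M : Set (ZMod (2 * n + 1) → ℕ)} (h' : JG n A P U M) :
    ∀ p ∈ g.arcs, ∀ w ∈ innA p, w ∉ A := by
  obtain ⟨q, R, B, S, w0, h1, rfl, h2⟩ := h.inn
  intro p hp w hw
  obtain ⟨i, hi, e⟩ := h2 p hp
  have hc' := hc p hp w hw
  rw [e, Set.mem_singleton_iff] at hw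
  refine h1.not_JG w0 hi (Or.inr hw) ?_ hn h'
  rintro rfl rfl hcard
  obtain ⟨c1, c2, c3⟩ := h1.winn w0 hi (Or.inr hw)
  obtain ⟨d1, d2⟩ := count_WQ (R := R) (B := B) (S := S) (q := 0) (by have := h1.top; omega)
  refine hc' ?_ ?_ ?_
  · rw [c1]
    apply Multiset.count_pos.1
    refine lt_of_lt_of_le ?_ (count_W (R := R) (B := B) (S := S) (q := 0) (x := 3) h1.top 6 hi)
    exact Multiset.count_pos.2 h1.mem
  · rw [c1]
    exact Multiset.count_pos.1 d2
  · rw [c1]
    change Multiset.card (cont (R △ (ch 1 △ .nil))) = 3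
    rw [cont_node, Multiset.card_add]
    have h6 : Multiset.card (OddHC.raise (cont R)) = 2 := by
      unfold OddHC.raise
      have h0 : cont R ≠ 0 := by
        intro h0
        rw [h0] at hcard
        simp at hcard
      rw [Multiset.card_cons, Multiset.card_erase_of_mem (sup_mem h0), hcard]
      rfl
    have h7 : Multiset.card (cont (ch 1 △ .nil)) = 1 := rfl
    omega

end Pool.OddHC
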