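import Pool.Agent.Work.MP_8f87b2_h35.Abs

/-!
MP_8f87b2_co: certificate of GadB0x (right).
-/

set_option autoImplicit false

namespace Pool.OddHC.CertB0x

/-- arcs, base 32 digits (31 = no arc) -/
def A : Nat := 1267650600228228890206615797759

/-- masks of the allowed images -/
def al : List Nat := [49, 22, 44, 11, 400, 224, 321, 644, 770, 584, 50176, 22528, 45056, 11264, 409600, 229376, 328704, 659456, 788480, 598016]

/-- new words -/
def F_0 : Nat := 265223

/-- successors on the new T-cycles -/
def Z_0 : Nat := 1231750339087837606716947548522

/-- first word of the lists -/
def x0_0 : Nat := 4

/-- a new word -/
def z0_0 : Nat := 0

/-- number of new words -/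
def cF_0 : Nat := 6

/-- the code -/
def code_0 : List Nat := [
  8, 14, 3, 12, 13, 9, 17, 766962471095632784664083597440, 17, 775434622095861729654982315076, 17, 7,
  766962471095632783633290364964, 766962471095632783633290397824, 766962471095632783633290397824,
  766962471095632994499004763264, 19, 538020933898512401366029175876, 5, 6, 15,
  775434694074954445037261329472, 15, 766769118635412031358512400421, 15, 538021005954984946051552744484,
  15, 766769118635412031358512400421, 15, 775434694187935229394869587077, 15,
  775628046757751079634678615173, 15, 775434622095861632719785069701, 15, 775434694074954445037261329472,
  766962471095632994499068793888, 766962471095632994499068793888, 766962471095632783633354328101,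
  775434622058864455375264977984, 766962471095632783633354328101, 6, 15, 766769118635412031358512400421, 15,
  775628046685153158095036322852, 15, 775628046685153158095036322852, 15, 766962471095632775938890008709,
  15, 766962471095632775938890008709, 15, 766962471205228091424656954404, 15,
  775434694074954445037261329472, 15, 766769118635412031358512400421, 539181503902931137030007032900,
  538020933935509472304877800516, 538020933935509472304877800516, 538020933935509472304877800516, 17,
  766962471095632784664083597440, 766962471095632994670800373792, 9, 17, 766962471095632784664083564580, 17,
  6, 15, 5, 766769118635412031358512400421, 766769118522431353406575609893, 766962471095632994664391477285,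
  766962471095632994664391477285, 766769118635412031358512400421, 766769118635412031358512400421, 15,
  775434694074954648378130041924, 15, 766962471095632890210757478436, 15, 16,
  775427406395865044594838244416, 775620830981770981251523546180, 775620830981770981251523546180,
  775427406395865044586252504132, 775427406395865044594838244416, 775427406395865044594838244416, 15, 5,
  766769118522431353406575609893, 766962471095632994664391477285, 766962471095632994664391477285,
  766769118635412031358512400421, 766769118635412031358512400421, 766769118522431353406575609893, 17,
  766962471095632784664083597440, 17, 6, 15, 775434694187935326330066832452, 15,
  766962471095632890210757478436, 15, 766962471095632890219343218720, 15, 775434694074954648378130041924,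
  15, 766962471095632890210757478436, 12, 775628046757751176569875860548]

theorem runB0x : Pool.OddHC.Abs.run A F_0 Z_0 x0_0 z0_0 cF_0 al code_0 [[x0_0]] = true := by
  decide +kernel

end Pool.OddHC.CertB0x
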