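import Pool.Agent.Work.MP_8f87b2_h13.TyR3
import Pool.Agent.Work.MP_8f87b2_h35.GadB11
import Pool.Agent.Work.MP_8f87b2_h35.GadB0x

/-!
# MP_8f87b2_co: a right window with `B = nil`, smallest part `q + 3 ≥ 4`, merged with the E pair `{()X, X()}`, `X = Q()S`

The words `0..19` of `wX R nil S q w0`; new T-cycles: `{0, 10}`, `{1, 11}`, `{18}` (the word 2 may be on the T-cycle of 18);
arcs `3 > 12, 6 > 15, 8 > 14, 9 > 17`. `BeD`: what is needed of the node.
-/

set_option autoImplicit false

set_option synthInstance.maxSize 1000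

namespace Pool.OddHC

open Finset Equiv BinaryTree Pool.Agent.Work.MP_8f87b2_co HM

variable {k : ℕ} {F F' : Set (Cyc k)} {g g' : DG k} {q : ℕ} {R S : BinaryTree Unit}

/-- what is needed of the node of the merged window -/
structure BeD (k q : ℕ) (R S : BinaryTree Unit) : Prop where
  dat : H1.Dat q R .nil S
  q1 : 1 ≤ q
  part3 : ∀ x ∈ cont R, 3 ≤ x
  size : R.numNodes + q + 3 = k
  inj : ∀ i < 20, ∀ j < 20, H1.W R (H1.ch (q + 1)) .nil S i = H1.W R (H1.ch (q + 1)) .nil S j → i = j

namespace BeD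

theorem num (h : BeD k q R S) : S.numNodes = R.numNodes := by
  have := h.dat.num
  simpa using this

theorem contS (h : BeD k q R S) : cont S = cont R := by
  have := h.dat.cont
  simpa [cont_nil] using this

theorem htS (h : BeD k q R S) : ht S = ht R := h.dat.htS

theorem W (h : BeD k q R S) (w0 : X k) {i : ℕ} (hi : i < 20) :
    (H1.wX R .nil S q w0 i).1 = H1.W R (H1.ch (q + 1)) .nil S i := H1.wX_eq h.dat h.size w0 hi

theorem W20 (h : BeD k q R S) (w0 : X k) {i : ℕ} (hi : i < 20) :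
    (H1.wX R .nil S q w0 i).1 = w20 R (H1.ch (q + 1)) .nil S i := by
  rw [h.W w0 hi, H1.W_w20 _ _ _ _ i hi]

theorem winj (h : BeD k q R S) (w0 : X k) : ∀ i < 20, ∀ j < 20,
    H1.wX R .nil S q w0 i = H1.wX R .nil S q w0 j → i = j := by
  intro i hi j hj e
  have e1 := congrArg Subtype.val e
  rw [h.W w0 hi, h.W w0 hj] at e1
  exact h.inj i hi j hj e1

theorem link (h : BeD k q R S) (w0 : X k) {i j : ℕ}
    (hij : (i, j) ∈ [(0, 10), (1, 11), (3, 12), (6, 15), (8, 14), (9, 17)]) :
    TT (TT (H1.wX R .nil S q w0 i)) = H1.wX R .nil S q w0 j := H1.wX_link h.dat h.size w0 hij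

theorem same (h : BeD k q R S) (w0 : X k) {i j : ℕ}
    (hij : (i, j) ∈ [(0, 10), (1, 11), (3, 12), (6, 15), (8, 14), (9, 17)]) :
    TT.SameCycle (H1.wX R .nil S q w0 i) (H1.wX R .nil S q w0 j) := by
  refine ⟨2, ?_⟩
  rw [show (2 : ℤ) = ((2 : ℕ) : ℤ) from rfl, zpow_natCast, pow_two, Perm.mul_apply, h.link w0 hij]

theorem hold0 (h : BeD k q R S) (w0 : X k) : ∀ i < 20, i ≠ 0 → i ≠ 10 →
    ¬ TT.SameCycle (H1.wX R .nil S q w0 0) (H1.wX R .nil S q w0 i) := H1.wX_hold h.dat h.size w0

theorem rank0 (h : BeD k q R S) (w0 : X k) : ∀ i < 20, i ≠ 0 → i ≠ 10 →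
    H1.Lower (cont (H1.wX R .nil S q w0 i).1) (cont (H1.wX R .nil S q w0 0).1) := by
  intro i hi h0 h10
  rw [H1.wX_cont0 h.dat h.size, h.W w0 hi]
  exact H1.rank_W h.dat i hi h0 h10

/-- no part 1 in `R` -/
theorem no1 (h : BeD k q R S) : (cont R).count 1 = 0 := by
  rw [Multiset.count_eq_zero]
  intro h1
  have := h.part3 1 h1
  omega

theorem cont_ne (h : BeD k q R S) : cont R ≠ 0 := fun e => h.dat.ne (cont_eq_zero.1 e)

/-- the contents of the words 1, 2, 11, 18 -/
theorem contE (h : BeD k q R S) (w0 : X k) {i : ℕ} (hi : i = 1 ∨ i = 2 ∨ i = 11 ∨ i = 18) :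
    cont (H1.wX R .nil S q w0 i).1 = cont R + {1, 1, q + 1} := by
  have hS := h.contS
  have e0 : cont (BinaryTree.nil △ BinaryTree.nil) = {1} := H1.ch_cont 0
  have e1 : ∀ t : BinaryTree Unit, cont (BinaryTree.nil △ t) = {1} + cont t := by
    intro t
    have : BinaryTree.nil △ t = app (BinaryTree.nil △ BinaryTree.nil) t := rfl
    rw [this, cont_app, e0]
  have hq : cont (H1.ch (q + 1)) = {q + 1} := H1.ch_cont q
  have key : ({1, 1, q + 1} : Multiset ℕ) = {1} + {1} + {q + 1} := rfl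
  rcases hi with rfl | rfl | rfl | rfl
  · rw [h.W w0 (by norm_num)]
    simp only [H1.W, cont_app, e1, hq, cont_nil, key, hS]
    ac_rfl
  · rw [h.W w0 (by norm_num)]
    simp only [H1.W, cont_app, e1, hq, cont_nil, key, hS]
    ac_rfl
  · rw [h.W w0 (by norm_num)]
    simp only [H1.W, cont_app, e1, hq, cont_nil, key, hS, app]
    ac_rfl
  · rw [h.W w0 (by norm_num)]
    simp only [H1.W, cont_app, e1, hq, cont_nil, key, hS]
    ac_rfl

/-- at most one part 1 in the other words -/
theorem cnt1 (h : BeD k q R S) (w0 : X k) {i : ℕ} (hi : i < 20) (h1 : i ≠ 1) (h2 : i ≠ 2) (h11 : i ≠ 11)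
    (h18 : i ≠ 18) : (cont (H1.wX R .nil S q w0 i).1).count 1 ≤ 1 := by
  have hS := h.contS
  have e0 : cont (BinaryTree.nil △ BinaryTree.nil) = {1} := H1.ch_cont 0
  have e1 : ∀ t : BinaryTree Unit, cont (BinaryTree.nil △ t) = {1} + cont t := by
    intro t
    have : BinaryTree.nil △ t = app (BinaryTree.nil △ BinaryTree.nil) t := rfl
    rw [this, cont_app, e0]
  have hq : cont (H1.ch (q + 1)) = {q + 1} := H1.ch_cont q
  have hq2 : cont (H1.ch (q + 1) △ BinaryTree.nil) = {q + 2} := H1.ch_cont (q + 1)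
  have hq2' : ∀ t, cont (H1.ch (q + 1) △ t) = {q + 2} + cont t := by
    intro t
    have : H1.ch (q + 1) △ t = app (H1.ch (q + 1) △ BinaryTree.nil) t := rfl
    rw [this, cont_app, hq2]
  have hc := h.no1
  obtain ⟨x, hx⟩ := Multiset.exists_mem_of_ne_zero h.cont_ne
  have hx3 := h.part3 x hx
  have cr : ∀ M : Multiset ℕ, (∃ y ∈ M, 2 ≤ y) → (raise M).count 1 = M.count 1 := by
    rintro M ⟨y, hy, hy2⟩
    exact H1.raise_one (hy2.trans (Multiset.le_sup hy))
  have hq1 := h.q1
  have s1 : ∀ a : ℕ, 2 ≤ a → Multiset.count 1 ({a} : Multiset ℕ) = 0 := by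
    intro a ha
    rw [Multiset.count_singleton, if_neg (by omega)]
  have s2 : Multiset.count 1 ({1} : Multiset ℕ) = 1 := by
    rw [Multiset.count_singleton, if_pos rfl]
  have mR : ∀ M N : Multiset ℕ, ∃ y ∈ M + cont R + N, 2 ≤ y := fun M N =>
    ⟨x, Multiset.mem_add.2 (Or.inl (Multiset.mem_add.2 (Or.inr hx))), by omega⟩
  have rR : ∃ y ∈ cont R, 2 ≤ y := ⟨x, hx, by omega⟩
  have rrR : ∃ y ∈ raise (cont R), 2 ≤ y := by
    refine ⟨(cont R).sup + 1, ?_, ?_⟩
    · unfold raise
      exact Multiset.mem_cons_self _ _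
    · have := Multiset.le_sup hx
      omega
  by_cases h0 : i = 0 ∨ i = 10
  · rcases h0 with rfl | rfl
    · rw [H1.wX_cont0 h.dat h.size, Multiset.count_add, hc, s1 _ (by omega)]
      omega
    · rw [← cont_same (h.same w0 (i := 0) (j := 10) (by simp)), H1.wX_cont0 h.dat h.size,
        Multiset.count_add, hc, s1 _ (by omega)]
      omega
  have h0' : i ≠ 0 := fun e => h0 (Or.inl e)
  have h10' : i ≠ 10 := fun e => h0 (Or.inr e)
  rw [h.W w0 hi]
  interval_cases i <;> first | omega | skip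
  · simp only [H1.W, cont_app, cont_node, e1, hq, cont_nil, add_zero]
    rw [cr _ ⟨x, Multiset.mem_add.2 (Or.inl hx), by omega⟩]
    simp only [Multiset.count_add, hc, s1 (q + 1) (by omega), s2]
    omega
  · simp only [H1.W, cont_app, cont_node, e0, hq, cont_nil, add_zero]
    rw [Multiset.count_add, cr _ ⟨q + 1, by simp, by omega⟩]
    simp only [Multiset.count_add, hc, s1 (q + 1) (by omega), s2]
    omega
  · simp only [H1.W, hq2', e1]
    simp only [Multiset.count_add, hc, s1 (q + 2) (by omega), s2]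
    omega
  · simp only [H1.W, cont_node, hq2]
    rw [Multiset.count_add, cr _ rR, hc, s1 _ (by omega)]
    omega
  · simp only [H1.W, cont_app]
    rw [cont_node, e1, hq, Multiset.count_add, Multiset.count_add, cr _ ⟨x, by simp [hx], by omega⟩]
    simp only [Multiset.count_add, hc, s1 (q + 1) (by omega), s2, cont_nil, Multiset.count_zero]
    omega
  · simp only [H1.W, cont_app, e1]
    rw [cont_node, hq, Multiset.count_add, Multiset.count_add, Multiset.count_add, cr _ rR]
    simp only [Multiset.count_add, hc, s1 (q + 1) (by omega), s2, cont_nil, Multiset.count_zero]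
    omega
  · simp only [H1.W]
    rw [cont_node, cont_node, hq, cont_nil, add_zero, Multiset.count_add, cr _ rrR, cr _ rR, hc,
      s1 _ (by omega)]
    omega
  · simp only [H1.W, app]
    rw [cont_node, e1, hq, hS]
    simp only [Multiset.count_add, cr _ rR, hc, s1 (q + 1) (by omega), s2]
    omega
  · simp only [H1.W, app, cont_app]
    rw [cont_node, e1, hq, hS, Multiset.count_add, Multiset.count_add, cr _ ⟨q + 1, by simp, by omega⟩]
    simp only [Multiset.count_add, hc, s1 (q + 1) (by omega), s2, cont_nil, Multiset.count_zero]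
    omega
  · simp only [H1.W]
    rw [cont_node, cont_app, e1, hq, hS, Multiset.count_add, cr _ ⟨x, by simp [hx], by omega⟩]
    simp only [Multiset.count_add, hc, s1 (q + 1) (by omega), s2, cont_nil, Multiset.count_zero]
    omega
  · simp only [H1.W, hq2']
    rw [cont_node, hS, cont_nil, add_zero, Multiset.count_add, cr _ rR, hc, s1 _ (by omega)]
    omega
  · simp only [H1.W, cont_app, e1, hq2]
    simp only [hS, Multiset.count_add, hc, s1 (q + 2) (by omega), s2]
    omega
  · simp only [H1.W, cont_app, hq]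
    rw [cont_node, cont_node, cont_nil, add_zero, add_zero, hS, Multiset.count_add, cr _ rrR, cr _ rR, hc,
      s1 _ (by omega)]
    omega
  · simp only [H1.W]
    rw [cont_node, cont_app, e0, hq, hS, Multiset.count_add, cr _ ⟨x, by simp [hx], by omega⟩]
    simp only [Multiset.count_add, hc, s1 (q + 1) (by omega), s2]
    omega

theorem cntE (h : BeD k q R S) (w0 : X k) {i : ℕ} (hi : i = 1 ∨ i = 2 ∨ i = 11 ∨ i = 18) :
    (cont (H1.wX R .nil S q w0 i).1).count 1 = 2 := by
  rw [h.contE w0 hi]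
  have hq1 := h.q1
  have key : ({1, 1, q + 1} : Multiset ℕ) = {1} + {1} + {q + 1} := rfl
  have s1 : Multiset.count 1 ({q + 1} : Multiset ℕ) = 0 := by
    rw [Multiset.count_singleton, if_neg (by omega)]
  rw [key, Multiset.count_add, Multiset.count_add, Multiset.count_add, h.no1, s1,
    Multiset.count_singleton_self]

/-- the words `≠ 0, 10, 1, 2, 11, 18` are on none of the T-cycles of 0, 1, 18 -/
theorem holdE (h : BeD k q R S) (w0 : X k) {i j : ℕ} (hi : i < 20) (h1 : i ≠ 1) (h2 : i ≠ 2) (h11 : i ≠ 11)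
    (h18 : i ≠ 18) (hj : j = 1 ∨ j = 2 ∨ j = 11 ∨ j = 18) :
    ¬ TT.SameCycle (H1.wX R .nil S q w0 j) (H1.wX R .nil S q w0 i) := by
  intro e
  have e1 := cont_same e
  have e2 := h.cnt1 w0 hi h1 h2 h11 h18
  rw [← e1, h.cntE w0 hj] at e2
  omega

end BeD

end Pool.OddHC
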