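import Pool.Agent.Work.MP_8f87b2_h13.TyRq
import Pool.Agent.Work.MP_8f87b2_h76.B0w
import Pool.Agent.Work.MP_8f87b2_h35.BwD

/-!
# MP_8f87b2_co: TYPE RqE = the right window of a bead free T-cycle with `B = nil`, `c = q + 3 ≥ 4`, merged with the E pair
`{()X, X()}`, `X = Q()S` (words 11, 18; host 14)

`TyRqE q F g`: `F = {cyc w0, cyc w1, cyc w18}` (`w1` and `w11` are on one T-cycle), the 20 words, arcs `3 > 12, 6 > 15, 8 > 14,
9 > 17`; the word 2 may be on the T-cycle of 18 or not. Fields `hF, new, old, abs, htg, rank, path, words, words', inn, inn0`,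
existence `HM.NodeM.exE`.
-/

set_option autoImplicit false

set_option linter.all false

set_option synthInstance.maxSize 1000

namespace Pool.OddHC

open Finset Equiv BinaryTree Pool.Agent.Work.MP_8f87b2_co HM

variable {k : ℕ} {F F' : Set (Cyc k)} {g g' : DG k} {q q' : ℕ} {R B S : BinaryTree Unit}

/-- TYPE RqE -/
def TyRqE (q : ℕ) (F : Set (Cyc k)) (g : DG k) : Prop :=
  ∃ (R S : BinaryTree Unit) (w0 : OddHC.X k), NodeM k q R .nil S ∧ 1 ≤ q ∧
    H1.wX R .nil S q w0 0 ≠ H1.wX R .nil S q w0 10 ∧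
    F = {cyc (H1.wX R .nil S q w0 0), cyc (H1.wX R .nil S q w0 1), cyc (H1.wX R .nil S q w0 18)} ∧
    g = gadB11 (H1.wX R .nil S q w0)

theorem HM.NodeM.bwD (h : NodeM k q R .nil S) (hq : 1 ≤ q) (w0 : OddHC.X k)
    (hne : H1.wX R .nil S q w0 0 ≠ H1.wX R .nil S q w0 10) : BeD k q R S where
  dat := h.dat
  q1 := hq
  part3 := fun x hx => by
    have := h.part x hx
    omega
  size := h.size
  inj := by
    intro i hi j hj e
    apply h.rinj w0 hne i hi j hj
    apply Subtype.ext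
    rw [H1.wX_eq h.dat h.size w0 hi, H1.wX_eq h.dat h.size w0 hj, e]

theorem mem_ixB11 {i : ℕ} : i ∈ ixB11 ↔ i < 20 := by
  have h : ixB11 = List.range 20 := by decide
  rw [h, List.mem_range]

theorem mem_gadB11 {w : ℕ → OddHC.X k} {x : OddHC.X k} : x ∈ (gadB11 w).B ↔ ∃ i < 20, w i = x := by
  unfold gadB11
  rw [mem_gadOf_B]
  constructor
  · rintro ⟨i, hi, e⟩
    exact ⟨i, mem_ixB11.1 hi, e⟩
  · rintro ⟨i, hi, e⟩
    exact ⟨i, mem_ixB11.2 hi, e⟩

theorem gadB11_arcs {w : ℕ → OddHC.X k} {p : OddHC.X k × OddHC.X k} : p ∈ (gadB11 w).arcs ↔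
    p = (w 3, w 12) ∨ p = (w 6, w 15) ∨ p = (w 8, w 14) ∨ p = (w 9, w 17) := by
  unfold gadB11
  rw [mem_gadOf_arcs]
  simp only [arB11, List.mem_cons, List.not_mem_nil, or_false]
  constructor
  · rintro ⟨r, rfl | rfl | rfl | rfl, e⟩
    · exact Or.inl e
    · exact Or.inr (Or.inl e)
    · exact Or.inr (Or.inr (Or.inl e))
    · exact Or.inr (Or.inr (Or.inr e))
  · rintro (e | e | e | e)
    · exact ⟨_, Or.inl rfl, e⟩
    · exact ⟨_, Or.inr (Or.inl rfl), e⟩
    · exact ⟨_, Or.inr (Or.inr (Or.inl rfl)), e⟩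
    · exact ⟨_, Or.inr (Or.inr (Or.inr rfl)), e⟩

theorem gadB11_F {w : ℕ → OddHC.X k} {x : OddHC.X k} : x ∈ (gadB11 w).F ↔
    TT.SameCycle (w 0) x ∨ TT.SameCycle (w 1) x ∨ TT.SameCycle (w 18) x := by
  unfold gadB11
  rw [mem_gadOf_F]
  simp only [sgB11, prB11, List.map_cons, List.map_nil, List.cons_append, List.nil_append, List.mem_cons,
    List.not_mem_nil, or_false]
  constructor
  · rintro ⟨c, rfl | rfl | rfl, e⟩
    · exact Or.inr (Or.inr e)
    · exact Or.inl e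
    · exact Or.inr (Or.inl e)
  · rintro (e | e | e)
    · exact ⟨_, Or.inr (Or.inl rfl), e⟩
    · exact ⟨_, Or.inr (Or.inr rfl), e⟩
    · exact ⟨_, Or.inl rfl, e⟩

theorem TyRqE.hF (h : TyRqE q F g) : ∀ w, w ∈ g.F ↔ cyc w ∈ F := by
  obtain ⟨R, S, w0, h1, hq, hne, rfl, rfl⟩ := h
  intro w
  rw [gadB11_F]
  change (TT.SameCycle _ _ ∨ TT.SameCycle _ _ ∨ TT.SameCycle _ _) ↔
    (cyc w = _ ∨ cyc w = _ ∨ cyc w = _)
  rw [← cyc_eq, ← cyc_eq, ← cyc_eq]
  constructor
  · rintro (e | e | e)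
    · exact Or.inl e.symm
    · exact Or.inr (Or.inl e.symm)
    · exact Or.inr (Or.inr e.symm)
  · rintro (e | e | e)
    · exact Or.inl e.symm
    · exact Or.inr (Or.inl e.symm)
    · exact Or.inr (Or.inr e.symm)

theorem TyRqE.new (h : TyRqE q F g) : ∀ c ∈ F, ∃ u ∈ g.B, cyc u = c := by
  obtain ⟨R, S, w0, h1, hq, hne, rfl, rfl⟩ := h
  rintro c (rfl | rfl | rfl)
  · exact ⟨_, mem_gadB11.2 ⟨0, by norm_num, rfl⟩, rfl⟩
  · exact ⟨_, mem_gadB11.2 ⟨1, by norm_num, rfl⟩, rfl⟩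
  · exact ⟨_, mem_gadB11.2 ⟨18, by norm_num, rfl⟩, rfl⟩

/-- 1 and 18 are on different T-cycles -/
theorem HM.NodeM.r118 (h : NodeM k q R .nil S) (hq : 1 ≤ q) (w0 : OddHC.X k) :
    ¬ TT.SameCycle (H1.wX R .nil S q w0 1) (H1.wX R .nil S q w0 18) :=
  fun e => h.h118 hq rfl w0 (same_mX.2 e)

theorem HM.NodeM.r12 (h : NodeM k q R B S) (hq : 1 ≤ q) (w0 : OddHC.X k) :
    ¬ TT.SameCycle (H1.wX R B S q w0 1) (H1.wX R B S q w0 2) :=
  fun e => h.h12 hq w0 (same_mX.2 e)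

theorem TyRqE.old (h : TyRqE q F g) : ∃ u ∈ g.B, cyc u ∉ F := by
  obtain ⟨R, S, w0, h1, hq, hne, rfl, rfl⟩ := h
  have hb := h1.bwD hq w0 hne
  refine ⟨_, mem_gadB11.2 ⟨3, by norm_num, rfl⟩, ?_⟩
  rintro (e | e | e)
  · exact hb.hold0 w0 3 (by norm_num) (by norm_num) (by norm_num) (cyc_eq.1 e).symm
  · exact hb.holdE w0 (i := 3) (j := 1) (by norm_num) (by norm_num) (by norm_num) (by norm_num) (by norm_num)
      (Or.inl rfl) (cyc_eq.1 e).symm
  · exact hb.holdE w0 (i := 3) (j := 18) (by norm_num) (by norm_num) (by norm_num) (by norm_num) (by norm_num)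
      (by simp) (cyc_eq.1 e).symm

/-- **abs** for any node with `B = nil` -/
theorem BeD.abs (h : BeD k q R S) (w0 : OddHC.X k)
    (h12 : ¬ TT.SameCycle (H1.wX R .nil S q w0 1) (H1.wX R .nil S q w0 2))
    (h118 : ¬ TT.SameCycle (H1.wX R .nil S q w0 1) (H1.wX R .nil S q w0 18)) :
    (gadB11 (H1.wX R .nil S q w0)).Abs := by
  have es := h.size
  have en := h.num
  have s0 := h.same w0 (i := 0) (j := 10) (by simp)
  have s1 := h.same w0 (i := 1) (j := 11) (by simp)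
  have hR : (H1.ch (q + 1)).numNodes + R.numNodes + 2 = k := by rw [H1.ch_num]; omega
  have hB : (H1.ch (q + 1)).numNodes + S.numNodes + (BinaryTree.nil : BinaryTree Unit).numNodes + 2 = k := by
    rw [H1.ch_num]
    change q + 1 + S.numNodes + 0 + 2 = k
    omega
  have w01 := h.hold0 w0 1 (by norm_num) (by norm_num) (by norm_num)
  have w018 := h.hold0 w0 18 (by norm_num) (by norm_num) (by norm_num)
  have w02 := h.hold0 w0 2 (by norm_num) (by norm_num) (by norm_num)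
  by_cases h2 : TT.SameCycle (H1.wX R .nil S q w0 2) (H1.wX R .nil S q w0 18)
  · have key : (gadB0x (H1.wX R .nil S q w0)).Abs := by
      refine gadB0x_abs (R := R) (Q := H1.ch (q + 1)) (B := .nil) (S := S) hR hB
        (fun i hi => h.W20 w0 ((by decide : ∀ i ∈ ixB0x, i < 20) i hi))
        (fun i hi j hj => h.winj w0 i ((by decide : ∀ i ∈ ixB0x, i < 20) i hi) j
          ((by decide : ∀ i ∈ ixB0x, i < 20) j hj)) ?_ ?_ ?_
      · intro p hp
        simp only [prB0x, List.mem_cons, List.not_mem_nil, or_false] at hp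
        rcases hp with rfl | rfl | rfl
        · exact s0
        · exact s1
        · exact h2
      · intro i hi j hj e
        simp only [sgB0x, prB0x, List.map_cons, List.map_nil, List.nil_append, List.mem_cons,
          List.not_mem_nil, or_false] at hi hj
        rcases hi with rfl | rfl | rfl <;> rcases hj with rfl | rfl | rfl
        · rfl
        · exact absurd e w01
        · exact absurd e w02
        · exact absurd e.symm w01
        · rfl
        · exact absurd e h12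
        · exact absurd e.symm w02
        · exact absurd e.symm h12
        · rfl
      · intro i hi j hj e
        have hj' : j < 20 ∧ j ≠ 0 ∧ j ≠ 10 ∧ j ≠ 1 ∧ j ≠ 2 ∧ j ≠ 11 ∧ j ≠ 18 :=
          (by decide : ∀ j ∈ odB0x, j < 20 ∧ j ≠ 0 ∧ j ≠ 10 ∧ j ≠ 1 ∧ j ≠ 2 ∧ j ≠ 11 ∧ j ≠ 18) j hj
        obtain ⟨a, b, c, d, e', f, g'⟩ := hj'
        simp only [sgB0x, prB0x, List.map_cons, List.map_nil, List.nil_append, List.mem_cons,
          List.not_mem_nil, or_false] at hi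
        rcases hi with rfl | rfl | rfl
        · exact h.hold0 w0 j a b c e
        · exact h.holdE w0 a d e' f g' (Or.inl rfl) e
        · exact h.holdE w0 a d e' f g' (Or.inr (Or.inl rfl)) e
    have e : gadB11 (H1.wX R .nil S q w0) = gadB0x (H1.wX R .nil S q w0) := by
      unfold gadB11 gadB0x
      have e1 : ixB11 = ixB0x := rfl
      have e2 : arB11 = arB0x := rfl
      rw [e1, e2]
      unfold gadOf
      congr 1
      ext x
      change (∃ c ∈ sgB11 ++ prB11.map Prod.fst, TT.SameCycle (H1.wX R .nil S q w0 c) x) ↔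
        (∃ c ∈ sgB0x ++ prB0x.map Prod.fst, TT.SameCycle (H1.wX R .nil S q w0 c) x)
      simp only [sgB11, prB11, sgB0x, prB0x, List.map_cons, List.map_nil, List.nil_append, List.cons_append,
        List.mem_cons, List.not_mem_nil, or_false]
      constructor
      · rintro ⟨c, rfl | rfl | rfl, e⟩
        · exact ⟨2, by simp, h2.trans e⟩
        · exact ⟨0, by simp, e⟩
        · exact ⟨1, by simp, e⟩
      · rintro ⟨c, rfl | rfl | rfl, e⟩
        · exact ⟨0, by simp, e⟩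
        · exact ⟨1, by simp, e⟩
        · exact ⟨18, by simp, h2.symm.trans e⟩
    rw [e]
    exact key
  · refine gadB11_abs (R := R) (Q := H1.ch (q + 1)) (B := .nil) (S := S) hR hB
      (fun i hi => h.W20 w0 (mem_ixB11.1 hi))
      (fun i hi j hj => h.winj w0 i (mem_ixB11.1 hi) j (mem_ixB11.1 hj)) ?_ ?_ ?_
    · intro p hp
      simp only [prB11, List.mem_cons, List.not_mem_nil, or_false] at hp
      rcases hp with rfl | rfl
      · exact s0
      · exact s1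
    · intro i hi j hj e
      simp only [sgB11, prB11, List.map_cons, List.map_nil, List.nil_append, List.cons_append, List.mem_cons,
        List.not_mem_nil, or_false] at hi hj
      rcases hi with rfl | rfl | rfl <;> rcases hj with rfl | rfl | rfl
      · rfl
      · exact absurd e.symm w018
      · exact absurd e.symm h118
      · exact absurd e w018
      · rfl
      · exact absurd e w01
      · exact absurd e h118
      · exact absurd e.symm w01
      · rfl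
    · intro i hi j hj e
      have hj' : j < 20 ∧ j ≠ 0 ∧ j ≠ 10 ∧ j ≠ 1 ∧ j ≠ 11 ∧ j ≠ 18 :=
        (by decide : ∀ j ∈ odB11, j < 20 ∧ j ≠ 0 ∧ j ≠ 10 ∧ j ≠ 1 ∧ j ≠ 11 ∧ j ≠ 18) j hj
      obtain ⟨a, b, c, d, f, g'⟩ := hj'
      simp only [sgB11, prB11, List.map_cons, List.map_nil, List.nil_append, List.cons_append, List.mem_cons,
        List.not_mem_nil, or_false] at hi
      by_cases hj2 : j = 2
      · subst hj2
        rcases hi with rfl | rfl | rfl
        · exact h2 e.symm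
        · exact w02 e
        · exact h12 e
      · rcases hi with rfl | rfl | rfl
        · exact h.holdE w0 a d hj2 f g' (by simp) e
        · exact h.hold0 w0 j a b c e
        · exact h.holdE w0 a d hj2 f g' (Or.inl rfl) e

theorem TyRqE.abs (h : TyRqE q F g) : g.Abs := by
  obtain ⟨R, S, w0, h1, hq, hne, rfl, rfl⟩ := h
  exact (h1.bwD hq w0 hne).abs w0 (h1.r12 hq w0) (h1.r118 hq w0)

/-- all T-cycles of the group have the same height -/
theorem TyRqE.htg (h : TyRqE q F g) : ∀ c ∈ F, ∀ d ∈ F, htc c = htc d := by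
  obtain ⟨R, S, w0, h1, hq, hne, rfl, rfl⟩ := h
  have hb := h1.bwD hq w0 hne
  have e1 := hb.contE w0 (i := 1) (Or.inl rfl)
  have e18 := hb.contE w0 (i := 18) (by simp)
  have key : ∀ c ∈ ({cyc (H1.wX R .nil S q w0 0), cyc (H1.wX R .nil S q w0 1),
      cyc (H1.wX R .nil S q w0 18)} : Set (Cyc k)), htc c = ht R := by
    have h01 : htc (cyc (H1.wX R .nil S q w0 1)) = ht R := by
      rw [htc_cyc, ← ht_wX, h1.ht012 w0 (Or.inr (Or.inl rfl))]
    rintro c (rfl | rfl | rfl)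
    · rw [htc_cyc, ← ht_wX, h1.ht012 w0 (Or.inl rfl)]
    · exact h01
    · rw [← h01]
      unfold htc
      rw [contc_cyc, contc_cyc, e1, e18]
  intro c hc d hd
  rw [key c hc, key d hd]

/-- rank: every old word is strictly higher, or one of the words 2, 4, 5, 13, 16 and `Lower` than the bare T-cycle; the word 2 has the
content of the E pair -/
theorem TyRqE.rank (h : TyRqE q F g) : ∀ w ∈ g.B, cyc w ∈ F ∨ (∀ c ∈ F, htc c < htc (cyc w)) ∨
    ∃ (R S : BinaryTree Unit) (w0 : OddHC.X k) (i : ℕ), NodeM k q R .nil S ∧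
      cyc (H1.wX R .nil S q w0 0) ∈ F ∧ cyc (H1.wX R .nil S q w0 1) ∈ F ∧
      (i = 2 ∨ i = 4 ∨ i = 5 ∨ i = 13 ∨ i = 16) ∧
      w = H1.wX R .nil S q w0 i ∧ H1.Lower (contc (cyc w)) (contc (cyc (H1.wX R .nil S q w0 0))) ∧
      (i = 2 → contc (cyc w) = contc (cyc (H1.wX R .nil S q w0 1))) := by
  have hg := h.htg
  obtain ⟨R, S, w0, h1, hq, hne, rfl, rfl⟩ := h
  have hb := h1.bwD hq w0 hne
  intro w hw
  obtain ⟨i, hi, rfl⟩ := mem_gadB11.1 hw
  by_cases i0 : i = 0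
  · left; rw [i0]; exact Or.inl rfl
  by_cases i1 : i = 1
  · left; rw [i1]; exact Or.inr (Or.inl rfl)
  by_cases i18 : i = 18
  · left; rw [i18]; exact Or.inr (Or.inr rfl)
  by_cases i10 : i = 10
  · left; rw [i10]; exact Or.inl (cyc_eq.2 (h1.rsame10 w0).symm)
  by_cases i11 : i = 11
  · left; rw [i11]; exact Or.inr (Or.inl (cyc_eq.2 (h1.rsame11 w0).symm))
  by_cases hi2 : i = 2 ∨ i = 4 ∨ i = 5 ∨ i = 13 ∨ i = 16
  · right; right
    refine ⟨R, S, w0, i, h1, Or.inl rfl, Or.inr (Or.inl rfl), hi2, rfl, h1.rrank w0 i hi i0 i10, ?_⟩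
    intro e2
    rw [contc_cyc, contc_cyc, hb.contE w0 (Or.inl rfl), e2, hb.contE w0 (Or.inr (Or.inl rfl))]
  · right; left
    intro c hc
    have h2 := h1.htB w0 i hi (by omega)
    have h3 := hg c hc (cyc (H1.wX R .nil S q w0 0)) (Or.inl rfl)
    rw [h3, htc_cyc, htc_cyc, ← ht_wX, ← ht_wX, h1.ht012 w0 (Or.inl rfl)]
    exact h2

theorem TyRqE.path (h : TyRqE q F g) : ∀ a ∈ g.arcs, ∃ n : ℕ, (TT ^ (n + 1)) a.1 = a.2 ∧ a.1 ∈ g.B ∧
    ∀ i < n, (TT ^ (i + 1)) a.1 ∈ innA a := by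
  obtain ⟨R, S, w0, h1, hq, hne, rfl, rfl⟩ := h
  intro p hp
  have key : ∀ i j, (i, j) ∈ [(0, 10), (1, 11), (3, 12), (6, 15), (8, 14), (9, 17)] → i < 20 →
      p = (H1.wX R .nil S q w0 i, H1.wX R .nil S q w0 j) →
      ∃ n : ℕ, (TT ^ (n + 1)) p.1 = p.2 ∧ p.1 ∈ (gadB11 (H1.wX R .nil S q w0)).B ∧
        ∀ i < n, (TT ^ (i + 1)) p.1 ∈ innA p := by
    rintro i j hij hj rfl
    refine ⟨1, ?_, mem_gadB11.2 ⟨i, hj, rfl⟩, ?_⟩
    · rw [pow_succ, pow_one, Perm.mul_apply]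
      exact h1.rlink w0 hij
    · intro n hn
      obtain rfl : n = 0 := by omega
      rw [pow_one]
      rfl
  rcases gadB11_arcs.1 hp with e | e | e | e
  · exact key 3 12 (by simp) (by norm_num) e
  · exact key 6 15 (by simp) (by norm_num) e
  · exact key 8 14 (by simp) (by norm_num) e
  · exact key 9 17 (by simp) (by norm_num) e

/-- every word of a RqE gadget is a word of a right window -/
theorem TyRqE.words' (h : TyRqE q F g) : ∀ w ∈ g.B, ∃ (R B S : BinaryTree Unit) (w0 : OddHC.X k) (i : ℕ),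
    NodeM k q R B S ∧ i < 20 ∧ w = H1.wX R B S q w0 i ∧
      cyc (H1.wX R B S q w0 0) ∈ F := by
  obtain ⟨R, S, w0, h1, hq, hne, rfl, rfl⟩ := h
  intro w hw
  obtain ⟨i, hi, rfl⟩ := mem_gadB11.1 hw
  exact ⟨R, .nil, S, w0, i, h1, hi, rfl, Or.inl rfl⟩

/-- the words, with `B = nil` and the three T-cycles -/
theorem TyRqE.words (h : TyRqE q F g) : ∀ w ∈ g.B, ∃ (R S : BinaryTree Unit) (w0 : OddHC.X k) (i : ℕ),
    NodeM k q R .nil S ∧ 1 ≤ q ∧ i < 20 ∧ w = H1.wX R .nil S q w0 i ∧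
      F = {cyc (H1.wX R .nil S q w0 0), cyc (H1.wX R .nil S q w0 1), cyc (H1.wX R .nil S q w0 18)} := by
  obtain ⟨R, S, w0, h1, hq, hne, rfl, rfl⟩ := h
  intro w hw
  obtain ⟨i, hi, rfl⟩ := mem_gadB11.1 hw
  exact ⟨R, S, w0, i, h1, hq, hi, rfl, rfl⟩

theorem TyRqE.inn (h : TyRqE q F g) : ∀ a ∈ g.arcs, ∃ (R B S : BinaryTree Unit) (w0 : OddHC.X k) (i : ℕ),
    NodeM k q R B S ∧ i ∈ [3, 6, 8, 9] ∧ a.1 = H1.wX R B S q w0 i ∧
      cyc (H1.wX R B S q w0 0) ∈ F := by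
  obtain ⟨R, S, w0, h1, hq, hne, rfl, rfl⟩ := h
  intro p hp
  rcases gadB11_arcs.1 hp with rfl | rfl | rfl | rfl
  · exact ⟨R, .nil, S, w0, 3, h1, by simp, rfl, Or.inl rfl⟩
  · exact ⟨R, .nil, S, w0, 6, h1, by simp, rfl, Or.inl rfl⟩
  · exact ⟨R, .nil, S, w0, 8, h1, by simp, rfl, Or.inl rfl⟩
  · exact ⟨R, .nil, S, w0, 9, h1, by simp, rfl, Or.inl rfl⟩

theorem TyRqE.inn0 (h : TyRqE q F g) : ∀ p ∈ g.arcs, ∀ w ∈ innA p, ∃ (R B S : BinaryTree Unit)
    (w0 : OddHC.X k) (i : ℕ),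
    NodeM k q R B S ∧ i ∈ [3, 6, 8, 9] ∧ w = TT (H1.wX R B S q w0 i) ∧ cyc (H1.wX R B S q w0 0) ∈ F := by
  intro p hp w hw
  obtain ⟨R, B, S, w0, i, h1, hi, e, hm⟩ := h.inn p hp
  refine ⟨R, B, S, w0, i, h1, hi, ?_, hm⟩
  have hw' : w = TT p.1 := hw
  rw [hw', e]

/-- **existence** -/
theorem HM.NodeM.exE (h : NodeM k q R .nil S) (hq : 1 ≤ q) (w0 : OddHC.X k)
    (hne : H1.wX R .nil S q w0 0 ≠ H1.wX R .nil S q w0 10) :
    TyRqE q {cyc (H1.wX R .nil S q w0 0), cyc (H1.wX R .nil S q w0 1), cyc (H1.wX R .nil S q w0 18)}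
      (gadB11 (H1.wX R .nil S q w0)) := ⟨R, S, w0, h, hq, hne, rfl, rfl⟩

end Pool.OddHC
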