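import Pool.Agent.Work.MP_8f87b2_h35.Gen20
import Pool.Agent.Work.MP_8f87b2_h35.CertJB

/-!
MP_8f87b2_co: J2B, RIGHT: the 20 words, new T-cycles {0, 10}, {4}; arcs 1 -> 11, 3 -> 12, 6 -> 15, 8 -> 14 (no arc at 9).
-/

set_option autoImplicit false

set_option synthInstance.maxSize 1000

namespace Pool.OddHC

open Finset BinaryTree Equiv

variable {k : ℕ}

/-- numbers of the words -/
def ixJB : List ℕ := [0, 1, 2, 3, 4, 5, 6, 7, 8, 9, 10, 11, 12, 13, 14, 15, 16, 17, 18, 19]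

/-- new T-cycles with one word -/
def sgJB : List ℕ := [4]

/-- new T-cycles with two words -/
def prJB : List (ℕ × ℕ) := [(0, 10)]

/-- arcs -/
def arJB : List (ℕ × ℕ) := [(1, 11), (3, 12), (6, 15), (8, 14)]

/-- old words -/
def odJB : List ℕ := [1, 2, 3, 5, 6, 7, 8, 9, 11, 12, 13, 14, 15, 16, 17, 18, 19]

/-- the gadget -/
noncomputable def gadJB (w : ℕ → X k) : DG k := gadOf w ixJB (sgJB ++ prJB.map Prod.fst) arJB

theorem okJB : CertOk ixJB sgJB prJB arJB odJB CertJB.A CertJB.F_0 CertJB.Z_0 CertJB.x0_0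
    CertJB.z0_0 CertJB.al Cert.al := by
  refine ⟨?_, ?_, ?_, ?_, ?_, ?_, ?_, ?_, ?_, ?_, ?_, ?_, ?_, ?_, ?_⟩ <;> decide +kernel

/-- THE GADGET ABSORBS. -/
theorem gadJB_abs {R Q B S : BinaryTree Unit} (hR : Q.numNodes + R.numNodes + 2 = k)
    (hB : Q.numNodes + S.numNodes + B.numNodes + 2 = k)
    {w : ℕ → X k} (hw : ∀ i ∈ ixJB, (w i).1 = w20 R Q B S i)
    (hinj : ∀ i ∈ ixJB, ∀ j ∈ ixJB, w i = w j → i = j)
    (hpair : ∀ p ∈ prJB, TT.SameCycle (w p.1) (w p.2))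
    (hsep : ∀ i ∈ sgJB ++ prJB.map Prod.fst, ∀ j ∈ sgJB ++ prJB.map Prod.fst,
      TT.SameCycle (w i) (w j) → i = j)
    (hold : ∀ i ∈ sgJB ++ prJB.map Prod.fst, ∀ j ∈ odJB, ¬ TT.SameCycle (w i) (w j)) :
    (gadJB w).Abs :=
  gadOf_abs hR hB okJB CertJB.runJB hw hinj hpair hsep hold

end Pool.OddHC
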