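import Pool.Agent.Work.MP_8f87b2_h35.Abs

/-!
MP_8f87b2_co: certificate of helper47's gadget J5: words 0, 1, 2, 3, 4, 8, 11, 13, 14, 18, 19 of the 20-word absorber, arc 8 -> 14,
new loops {0}, {4}, {13}, {1, 11}, {2, 18}.
-/

set_option autoImplicit false

namespace Pool.OddHC.CertJ5

/-- arcs, base 32 digits (31 = no arc) -/
def A : Nat := 36028796247212031

/-- masks of the allowed images -/
def al : List Nat := [17, 22, 12, 11, 48, 34, 320, 192, 768, 1600, 1152]

/-- new words -/
def F_0 : Nat := 727

/-- successors on the new T-cycles -/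
def Z_0 : Nat := 35007593354077376

/-- first word of the lists -/
def x0_0 : Nat := 3

/-- a new word -/
def z0_0 : Nat := 0

/-- number of new words -/
def cF_0 : Nat := 7

/-- the code -/
def code_0 : List Nat := [
  5, 8, 10, 8243253460601924, 8243253460601924]

theorem runJ5 : Pool.OddHC.Abs.run A F_0 Z_0 x0_0 z0_0 cF_0 al code_0 [[x0_0]] = true := by
  decide +kernel

end Pool.OddHC.CertJ5
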