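import Pool.Agent.Work.MP_8f87b2_h35.Sub20
import Pool.Agent.Work.MP_8f87b2_h35.CertJ5

/-!
MP_8f87b2_co: helper47's gadget J5 with its real words: the words 0, 1, 2, 3, 4, 8, 11, 13, 14, 18, 19 of `w20 R nil B S`. Five
new T-cycles: those of the words 0, 4, 13 (three places of the moving bead), 1 (with 11) and 2 (with 18); the words 3, 8, 14, 19
are on other T-cycles, one arc 8 -> 14.
-/

set_option autoImplicit false

namespace Pool.OddHC

open Finset BinaryTree Equiv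

variable {k : ℕ}

/-- the numbers of the words of J5 -/
def ixJ5 : List ℕ := [0, 1, 2, 3, 4, 8, 11, 13, 14, 18, 19]

/-- representatives of the five new T-cycles of J5 -/
def nwJ5 : List ℕ := [0, 4, 13, 1, 2]

/-- the old words of J5 -/
def odJ5 : List ℕ := [3, 8, 14, 19]

/-- helper47's gadget J5 -/
noncomputable def gadJ5 (w : ℕ → X k) : DG k := by
  classical
  exact
    { B := ixJ5.toFinset.image w
      F := {x | TT.SameCycle (w 0) x ∨ TT.SameCycle (w 4) x ∨ TT.SameCycle (w 13) x ∨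
        TT.SameCycle (w 1) x ∨ TT.SameCycle (w 2) x}
      arcs := {(w 8, w 14)} }

theorem mem_gadJ5_B {w : ℕ → X k} {x : X k} : x ∈ (gadJ5 w).B ↔ ∃ i ∈ ixJ5, w i = x := by
  classical
  change x ∈ ixJ5.toFinset.image w ↔ _
  rw [mem_image]
  constructor
  · rintro ⟨i, hi, rfl⟩
    exact ⟨i, List.mem_toFinset.1 hi, rfl⟩
  · rintro ⟨i, hi, rfl⟩
    exact ⟨i, List.mem_toFinset.2 hi, rfl⟩

theorem mem_gadJ5_F {w : ℕ → X k} {x : X k} :
    x ∈ (gadJ5 w).F ↔ ∃ c ∈ nwJ5, TT.SameCycle (w c) x := by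
  change (TT.SameCycle (w 0) x ∨ TT.SameCycle (w 4) x ∨ TT.SameCycle (w 13) x ∨
        TT.SameCycle (w 1) x ∨ TT.SameCycle (w 2) x) ↔ _
  simp only [nwJ5, List.mem_cons, List.not_mem_nil, or_false, exists_eq_or_imp, exists_eq_left]

theorem J5_next (i : ℕ) (hi : i < ixJ5.length) (hb : Abs.bit CertJ5.F_0 i = true) :
    Abs.bit CertJ5.F_0 (Abs.dig CertJ5.Z_0 i) = true ∧
    ((ixJ5.getD i 0 ∈ nwJ5 ∧ ixJ5.getD i 0 ≠ 1 ∧ ixJ5.getD i 0 ≠ 2 ∧
        ixJ5.getD (Abs.dig CertJ5.Z_0 i) 0 = ixJ5.getD i 0) ∨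
      (ixJ5.getD i 0 = 1 ∧ ixJ5.getD (Abs.dig CertJ5.Z_0 i) 0 = 11) ∨
      (ixJ5.getD i 0 = 11 ∧ ixJ5.getD (Abs.dig CertJ5.Z_0 i) 0 = 1) ∨
      (ixJ5.getD i 0 = 2 ∧ ixJ5.getD (Abs.dig CertJ5.Z_0 i) 0 = 18) ∨
      (ixJ5.getD i 0 = 18 ∧ ixJ5.getD (Abs.dig CertJ5.Z_0 i) 0 = 2)) := by
  have hi' : i < 11 := hi
  interval_cases i <;> first
    | exact absurd hb (by decide)
    | exact ⟨by decide, Or.inl ⟨by decide, by decide, by decide, by decide⟩⟩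
    | exact ⟨by decide, Or.inr (Or.inl ⟨by decide, by decide⟩)⟩
    | exact ⟨by decide, Or.inr (Or.inr (Or.inl ⟨by decide, by decide⟩))⟩
    | exact ⟨by decide, Or.inr (Or.inr (Or.inr (Or.inl ⟨by decide, by decide⟩)))⟩
    | exact ⟨by decide, Or.inr (Or.inr (Or.inr (Or.inr ⟨by decide, by decide⟩)))⟩

/-- HELPER47'S GADGET J5 ABSORBS: the T-cycles of the words 0, 4, 13, 1 (with 11), 2 (with 18) are new and pairwise different, the
words 3, 8, 14, 19 are on other T-cycles. -/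
theorem gadJ5_abs {R B S : BinaryTree Unit} (hR : R.numNodes + 2 = k)
    (hB : S.numNodes + B.numNodes + 2 = k)
    {w : ℕ → X k} (hw : ∀ i ∈ ixJ5, (w i).1 = w20 R .nil B S i)
    (hinj : ∀ i ∈ ixJ5, ∀ j ∈ ixJ5, w i = w j → i = j)
    (h11 : TT.SameCycle (w 1) (w 11)) (h18 : TT.SameCycle (w 2) (w 18))
    (hsep : ∀ i ∈ nwJ5, ∀ j ∈ nwJ5, TT.SameCycle (w i) (w j) → i = j)
    (hold : ∀ i ∈ nwJ5, ∀ j ∈ odJ5, ¬ TT.SameCycle (w i) (w j)) :
    (gadJ5 w).Abs := by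
  classical
  have h0 : (0 : ℕ) ∈ nwJ5 := by decide
  have h4 : (4 : ℕ) ∈ nwJ5 := by decide
  have h13 : (13 : ℕ) ∈ nwJ5 := by decide
  have h1 : (1 : ℕ) ∈ nwJ5 := by decide
  have h2 : (2 : ℕ) ∈ nwJ5 := by decide
  have hix : ∀ j ∈ ixJ5, j ∈ nwJ5 ∨ j = 11 ∨ j = 18 ∨ j ∈ odJ5 := by decide
  -- a word of the gadget on the T-cycle of `w c`
  have hin : ∀ c ∈ nwJ5, ∀ j ∈ ixJ5, TT.SameCycle (w c) (w j) →
      j = c ∨ (c = 1 ∧ j = 11) ∨ (c = 2 ∧ j = 18) := by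
    intro c hc j hj hs
    rcases hix j hj with h | rfl | rfl | h
    · exact Or.inl (hsep c hc j h hs).symm
    · exact Or.inr (Or.inl ⟨hsep c hc 1 h1 (hs.trans h11.symm), rfl⟩)
    · exact Or.inr (Or.inr ⟨hsep c hc 2 h2 (hs.trans h18.symm), rfl⟩)
    · exact absurd hs (hold c hc j h)
  have hself : ∀ c ∈ nwJ5, c ≠ 1 → c ≠ 2 → FR TT (gadJ5 w).B (w c) (w c) := by
    intro c hc n1 n2
    refine FR_self TT _ _ ?_
    intro x hx hs
    obtain ⟨j, hj, rfl⟩ := mem_gadJ5_B.1 hx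
    rcases hin c hc j hj hs with rfl | ⟨rfl, _⟩ | ⟨rfl, _⟩
    · rfl
    · exact absurd rfl n1
    · exact absurd rfl n2
  have hne1 : w 1 ≠ w 11 := by
    intro h
    have := hinj 1 (by decide) 11 (by decide) h
    omega
  have hne2 : w 2 ≠ w 18 := by
    intro h
    have := hinj 2 (by decide) 18 (by decide) h
    omega
  have hin1 : ∀ x ∈ (gadJ5 w).B, TT.SameCycle (w 1) x → x = w 1 ∨ x = w 11 := by
    intro x hx hs
    obtain ⟨j, hj, rfl⟩ := mem_gadJ5_B.1 hx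
    rcases hin 1 h1 j hj hs with rfl | ⟨_, rfl⟩ | ⟨h, _⟩
    · exact Or.inl rfl
    · exact Or.inr rfl
    · omega
  have hin2 : ∀ x ∈ (gadJ5 w).B, TT.SameCycle (w 2) x → x = w 2 ∨ x = w 18 := by
    intro x hx hs
    obtain ⟨j, hj, rfl⟩ := mem_gadJ5_B.1 hx
    rcases hin 2 h2 j hj hs with rfl | ⟨h, _⟩ | ⟨_, rfl⟩
    · exact Or.inl rfl
    · omega
    · exact Or.inr rfl
  have hlt : ∀ i < ixJ5.length, ixJ5.getD i 0 < 20 ∧ ixJ5.getD i 0 ∈ ixJ5 := by decide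
  apply cert_sub (gadJ5 w) ixJ5 w (fun i => ((s20 0 S.numNodes i : ℕ) : ZMod (2 * k + 1)))
    CertJ5.A CertJ5.F_0 CertJ5.Z_0 CertJ5.x0_0 CertJ5.z0_0 CertJ5.cF_0 CertJ5.al CertJ5.code_0
    (by decide) (by decide) (fun x => mem_gadJ5_B) hinj
  · -- the new words
    have hdec : ∀ i < ixJ5.length, (Abs.bit CertJ5.F_0 i = true ↔
        (ixJ5.getD i 0 ∈ nwJ5 ∨ ixJ5.getD i 0 = 11 ∨ ixJ5.getD i 0 = 18)) := by decide
    intro i hi
    rw [hdec i hi, mem_gadJ5_F]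
    constructor
    · rintro ⟨c, hc, hs⟩
      rcases hin c hc _ (hlt i hi).2 hs with h | ⟨_, h⟩ | ⟨_, h⟩
      · rw [h]
        exact Or.inl hc
      · exact Or.inr (Or.inl h)
      · exact Or.inr (Or.inr h)
    · rintro (h | h | h)
      · exact ⟨_, h, Perm.SameCycle.refl _ _⟩
      · rw [h]
        exact ⟨1, h1, h11⟩
      · rw [h]
        exact ⟨2, h2, h18⟩
  · exact fun i h => bit_small (n := 11) (by decide) i h
  · intro x y hxy hx
    rw [mem_gadJ5_F] at hx ⊢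
    obtain ⟨c, hc, hs⟩ := hx
    exact ⟨c, hc, hs.trans hxy⟩
  · -- arcs
    intro i hi hd
    have hdec : ∀ i < ixJ5.length, Abs.dig CertJ5.A i < ixJ5.length →
        ixJ5.getD i 0 = 8 ∧ ixJ5.getD (Abs.dig CertJ5.A i) 0 = 14 := by decide
    obtain ⟨e1, e2⟩ := hdec i hi hd
    rw [e1, e2]
    exact rfl
  · -- first returns
    intro i hi hb
    obtain ⟨hb', hc⟩ := J5_next i hi hb
    refine ⟨hb', ?_⟩
    rcases hc with ⟨e1, e2, e3, e4⟩ | ⟨e1, e2⟩ | ⟨e1, e2⟩ | ⟨e1, e2⟩ | ⟨e1, e2⟩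
    · rw [e4]
      exact hself _ e1 e2 e3
    · rw [e1, e2]
      exact FR_pair TT _ _ _ (mem_gadJ5_B.2 ⟨11, by decide, rfl⟩) hne1 h11 hin1
    · rw [e1, e2]
      refine FR_pair TT _ _ _ (mem_gadJ5_B.2 ⟨1, by decide, rfl⟩) hne1.symm h11.symm ?_
      intro x hx hs
      exact (hin1 x hx (h11.trans hs)).symm
    · rw [e1, e2]
      exact FR_pair TT _ _ _ (mem_gadJ5_B.2 ⟨18, by decide, rfl⟩) hne2 h18 hin2
    · rw [e1, e2]
      refine FR_pair TT _ _ _ (mem_gadJ5_B.2 ⟨2, by decide, rfl⟩) hne2.symm h18.symm ?_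
      intro x hx hs
      exact (hin2 x hx (h18.trans hs)).symm
  · -- the moves
    have hdec : ∀ i < ixJ5.length, ∀ j < ixJ5.length, Abs.bit (CertJ5.al.getD i 0) j = true →
        Abs.bit (Cert.al.getD (ixJ5.getD i 0) 0) (ixJ5.getD j 0) = true := by decide
    intro i hi j hj hb
    exact hfr20_pair (Q := .nil) (by
      change 0 + R.numNodes + 2 = k
      omega) (by
      change 0 + S.numNodes + B.numNodes + 2 = k
      omega) (hlt i hi).1 (hlt j hj).1 (hw _ (hlt i hi).2) (hw _ (hlt j hj).2) (hdec i hi j hj hb)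
  · decide
  · decide
  · decide
  · exact CertJ5.runJ5

end Pool.OddHC
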