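import Pool.Agent.Work.MP_8f87b2_h6.TyJ3V
import Pool.Agent.Work.MP_8f87b2_h35.GadJ5

/-!
# MP_8f87b2_co: type J5V = three places of the moving square and the E pair, for any `R` without a part 1, at least two solitons

Right version, `B = nil` (tallest component of `R` last): the words `W R nil nil S i`, `i` = 0, 1, 2, 3, 4, 8, 11, 13, 14, 18, 19
(`gadJ5`), one link 8 > 14. New T-cycles: `z₀ = cyc (())R` (word 4), `z₁ = cyc R(())` (word 0), `z₂ = cyc S(())` (word 13),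
`y = cyc R()()` (words 1, 11), `y' = cyc ()R()` (words 2, 18). All old words (3, 8, 14, 19) are HIGHER.
-/

set_option autoImplicit false

namespace Pool.OddHC

open Finset Equiv BinaryTree Pool.Agent.Work.MP_8f87b2_co

namespace J3

variable {k : ℕ} {R S : BinaryTree Unit}

/-- the conditions of J5V: the words 0, 4, 13 are on three T-cycles, the words 1, 2 on two, word 18 is on the one of word 2 -/
structure J5OK (R S : BinaryTree Unit) (w0 : X k) : Prop where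
  n04 : cyc (sX R .nil S w0 0) ≠ cyc (sX R .nil S w0 4)
  n0d : cyc (sX R .nil S w0 0) ≠ cyc (sX R .nil S w0 13)
  n4d : cyc (sX R .nil S w0 4) ≠ cyc (sX R .nil S w0 13)
  n12 : cyc (sX R .nil S w0 1) ≠ cyc (sX R .nil S w0 2)
  s18 : cyc (sX R .nil S w0 18) = cyc (sX R .nil S w0 2)

theorem SqD.inj5 (h : SqD k R .nil S) {w0 : X k} (hp : J5OK R S w0) : ∀ i ∈ ixJ5, ∀ j ∈ ixJ5,
    sX R .nil S w0 i = sX R .nil S w0 j → i = j := by
  have hlt : ∀ i ∈ ixJ5, i < 20 ∧ i ≠ 9 ∧ i ≠ 10 := by decide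
  have key : ∀ i ∈ ixJ5, ∀ j ∈ ixJ5, i < j → sX R .nil S w0 i ≠ sX R .nil S w0 j := by
    intro i hi j hj hij e
    obtain ⟨a1, a2, a3⟩ := hlt i hi
    obtain ⟨b1, b2, b3⟩ := hlt j hj
    have e1 := congrArg Subtype.val e
    rw [h.word w0 a1, h.word w0 b1] at e1
    have hm := h.inj' hij b1 a2 b2 e1
    simp only [List.mem_cons, Prod.mk.injEq, List.not_mem_nil, or_false] at hm
    rcases hm with ⟨rfl, rfl⟩ | ⟨rfl, rfl⟩ | ⟨rfl, rfl⟩ | ⟨rfl, rfl⟩ | ⟨rfl, rfl⟩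
    · exact hp.n04 (by rw [e])
    · exact b3 rfl
    · exact b3 rfl
    · exact hp.n4d (by rw [e])
    · exact a3 rfl
  intro i hi j hj e
  rcases lt_trichotomy i j with h1 | h1 | h1
  · exact absurd e (key i hi j hj h1)
  · exact h1
  · exact absurd e.symm (key j hj i hi h1)

/-- heights of the new words -/
theorem SqD.ht5 (h : SqD k R .nil S) (w0 : X k) : ∀ i ∈ nwJ5, OddHC.ht (sX R .nil S w0 i).1 = OddHC.ht R := by
  intro i hi
  have hz := h.supz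
  have hy := h.supy
  simp only [nwJ5, List.mem_cons, List.not_mem_nil, or_false] at hi
  rcases hi with rfl | rfl | rfl | rfl | rfl
  · rw [OddHC.ht_eq, h.cont0, hz]
  · rw [OddHC.ht_eq, h.cont4, hz]
  · rw [OddHC.ht_eq, h.cont13, hz]
  · rw [OddHC.ht_eq, h.cont1, hy]
  · rw [OddHC.ht_eq, h.cont2, hy]

/-- heights of the old words -/
theorem SqD.ht5o (h : SqD k R .nil S) (w0 : X k) : ∀ i ∈ odJ5, OddHC.ht R < OddHC.ht (sX R .nil S w0 i).1 := by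
  intro i hi
  have hi' : i < 20 := (by decide : ∀ i ∈ odJ5, i < 20) i hi
  rw [h.word w0 hi']
  have hS := h.htS
  have h3 := h.h3
  have h00 : ht (BinaryTree.nil : BinaryTree Unit) = 0 := rfl
  simp only [odJ5, List.mem_cons, List.not_mem_nil, or_false] at hi
  rcases hi with rfl | rfl | rfl | rfl
  · simp only [H1.W, ht_app, ht_node, h00]; omega
  · simp only [H1.W, app, ht_node, h00]; omega
  · simp only [H1.W, app, ht_node, h00]; omega
  · simp only [H1.W, ht_app, ht_node, h00]; omega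

theorem SqD.old5 (h : SqD k R .nil S) (w0 : X k) : ∀ i ∈ nwJ5, ∀ j ∈ odJ5,
    ¬ TT.SameCycle (sX R .nil S w0 i) (sX R .nil S w0 j) := by
  intro i hi j hj hs
  have h1 := h.ht5 w0 i hi
  have h2 := h.ht5o w0 j hj
  have h3 := cont_same hs
  rw [OddHC.ht_eq, h3, ← OddHC.ht_eq] at h1
  omega

theorem SqD.sep5 (h : SqD k R .nil S) {w0 : X k} (hp : J5OK R S w0) : ∀ i ∈ nwJ5, ∀ j ∈ nwJ5,
    TT.SameCycle (sX R .nil S w0 i) (sX R .nil S w0 j) → i = j := by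
  have hz1 := h.onez
  have hy1 := h.oney
  have c0 := h.cont0 w0
  have c4 := h.cont4 w0
  have c13 := h.cont13 w0
  have c1 := h.cont1 w0
  have c2 := h.cont2 w0
  have zy : ∀ {a b : X k}, OddHC.cont a.1 = OddHC.cont R + {2} → OddHC.cont b.1 = OddHC.cont R + ({1} + {1}) →
      ¬ TT.SameCycle a b := by
    intro a b ha hb hs
    have h1 := cont_same hs
    rw [ha, hb] at h1
    rw [h1] at hz1
    omega
  have key : ∀ i ∈ nwJ5, ∀ j ∈ nwJ5, TT.SameCycle (sX R .nil S w0 i) (sX R .nil S w0 j) → i = j := by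
    intro i hi j hj hs
    simp only [nwJ5, List.mem_cons, List.not_mem_nil, or_false] at hi hj
    rcases hi with rfl | rfl | rfl | rfl | rfl <;> rcases hj with rfl | rfl | rfl | rfl | rfl <;>
      first
        | rfl
        | exact absurd (cyc_eq.2 hs) hp.n04
        | exact absurd (cyc_eq.2 hs) hp.n04.symm
        | exact absurd (cyc_eq.2 hs) hp.n0d
        | exact absurd (cyc_eq.2 hs) hp.n0d.symm
        | exact absurd (cyc_eq.2 hs) hp.n4d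
        | exact absurd (cyc_eq.2 hs) hp.n4d.symm
        | exact absurd (cyc_eq.2 hs) hp.n12
        | exact absurd (cyc_eq.2 hs) hp.n12.symm
        | exact absurd hs (zy (by assumption) (by assumption))
        | exact absurd hs.symm (zy (by assumption) (by assumption))
  exact key

/-- the absorber -/
theorem SqD.abs5 (h : SqD k R .nil S) {w0 : X k} (hp : J5OK R S w0) : (gadJ5 (sX R .nil S w0)).Abs := by
  have e := h.num
  have es := h.size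
  have n0 : (BinaryTree.nil : BinaryTree Unit).numNodes = 0 := rfl
  have hlt : ∀ i ∈ ixJ5, i < 20 := by decide
  refine gadJ5_abs (R := R) (B := .nil) (S := S) es (by omega) ?_ (h.inj5 hp)
    (h.same w0 (i := 1) (j := 11) (by simp)) (cyc_eq.1 hp.s18.symm) (h.sep5 hp) (h.old5 w0)
  intro i hi
  rw [h.word w0 (hlt i hi), H1.W_w20 _ _ _ _ i (hlt i hi)]

end J3

open J3

variable {k : ℕ} {F : Set (Cyc k)} {g : DG k}

/-- TYPE J5V -/
def TyJ5V (F : Set (Cyc k)) (g : DG k) : Prop :=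
  ∃ (R S : BinaryTree Unit) (w0 : X k), SqD k R .nil S ∧ J5OK R S w0 ∧
    F = {c | ∃ i ∈ nwJ5, c = cyc (sX R .nil S w0 i)} ∧ g = gadJ5 (sX R .nil S w0)

theorem TyJ5V.hF (h : TyJ5V F g) : ∀ w, w ∈ g.F ↔ cyc w ∈ F := by
  obtain ⟨R, S, w0, h1, hp, rfl, rfl⟩ := h
  intro w
  rw [mem_gadJ5_F]
  constructor
  · rintro ⟨c, hc, hs⟩
    exact ⟨c, hc, (cyc_eq.2 hs).symm⟩
  · rintro ⟨c, hc, hs⟩
    exact ⟨c, hc, cyc_eq.1 hs.symm⟩

theorem TyJ5V.new (h : TyJ5V F g) : ∀ c ∈ F, ∃ u ∈ g.B, cyc u = c := by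
  obtain ⟨R, S, w0, h1, hp, rfl, rfl⟩ := h
  rintro c ⟨i, hi, rfl⟩
  have hix : ∀ i ∈ nwJ5, i ∈ ixJ5 := by decide
  exact ⟨_, mem_gadJ5_B.2 ⟨i, hix i hi, rfl⟩, rfl⟩

theorem TyJ5V.abs (h : TyJ5V F g) : g.Abs := by
  obtain ⟨R, S, w0, h1, hp, rfl, rfl⟩ := h
  exact h1.abs5 hp

/-- the group has one height -/
theorem TyJ5V.htg (h : TyJ5V F g) : ∀ c ∈ F, ∀ d ∈ F, htc c = htc d := by
  obtain ⟨R, S, w0, h1, hp, rfl, rfl⟩ := h
  rintro c ⟨i, hi, rfl⟩ d ⟨j, hj, rfl⟩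
  rw [htc_cyc, htc_cyc, h1.ht5 w0 i hi, h1.ht5 w0 j hj]

/-- every old word is HIGHER -/
theorem TyJ5V.rank (h : TyJ5V F g) : ∀ w ∈ g.B, cyc w ∈ F ∨ ∀ c ∈ F, htc c < htc (cyc w) := by
  obtain ⟨R, S, w0, h1, hp, rfl, rfl⟩ := h
  intro w hw
  obtain ⟨i, hi, rfl⟩ := mem_gadJ5_B.1 hw
  have hr : ∀ i ∈ ixJ5, i ∈ nwJ5 ∨ i = 11 ∨ i = 18 ∨ i ∈ odJ5 := by decide
  rcases hr i hi with h2 | rfl | rfl | h2
  · exact Or.inl ⟨i, h2, rfl⟩
  · exact Or.inl ⟨1, by decide, (cyc_eq.2 (h1.same w0 (i := 1) (j := 11) (by simp))).symm⟩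
  · exact Or.inl ⟨2, by decide, hp.s18⟩
  · right
    rintro c ⟨j, hj, rfl⟩
    rw [htc_cyc, htc_cyc, h1.ht5 w0 j hj]
    exact h1.ht5o w0 i h2

theorem TyJ5V.old (h : TyJ5V F g) : ∃ u ∈ g.B, cyc u ∉ F := by
  obtain ⟨R, S, w0, h1, hp, rfl, rfl⟩ := h
  refine ⟨_, mem_gadJ5_B.2 ⟨3, by decide, rfl⟩, ?_⟩
  rintro ⟨i, hi, e⟩
  exact h1.old5 w0 i hi 3 (by decide) (cyc_eq.1 e.symm)

theorem TyJ5V.path (h : TyJ5V F g) : ∀ a ∈ g.arcs, ∃ n : ℕ, (TT ^ (n + 1)) a.1 = a.2 ∧ a.1 ∈ g.B ∧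
    ∀ i < n, (TT ^ (i + 1)) a.1 ∈ innA a := by
  obtain ⟨R, S, w0, h1, hp, rfl, rfl⟩ := h
  intro p hq
  have e : p = (sX R .nil S w0 8, sX R .nil S w0 14) := hq
  subst e
  refine ⟨1, ?_, mem_gadJ5_B.2 ⟨8, by decide, rfl⟩, ?_⟩
  · rw [pow_succ, pow_one, Perm.mul_apply]
    exact h1.link w0 (by simp)
  · intro n hn
    obtain rfl : n = 0 := by omega
    rw [pow_one]
    rfl

/-- the words: a part of the 19 words of J3V -/
theorem TyJ5V.words (h : TyJ5V F g) : ∃ (R S : BinaryTree Unit), SqD k R .nil S ∧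
    ∀ w ∈ g.B, ∃ i ∈ ixJ5, w.1 = H1.W R .nil .nil S i := by
  obtain ⟨R, S, w0, h1, hp, rfl, rfl⟩ := h
  refine ⟨R, S, h1, ?_⟩
  intro w hw
  obtain ⟨i, hi, rfl⟩ := mem_gadJ5_B.1 hw
  exact ⟨i, hi, h1.word w0 ((by decide : ∀ i ∈ ixJ5, i < 20) i hi)⟩

/-- the same form as `TyJ3V.words` -/
theorem TyJ5V.words' (h : TyJ5V F g) : ∃ (R B S : BinaryTree Unit), SqD k R B S ∧
    ∀ w ∈ g.B, ∃ i < 20, i ≠ 9 ∧ w.1 = H1.W R .nil B S i := by
  obtain ⟨R, S, h1, h2⟩ := h.words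
  refine ⟨R, .nil, S, h1, ?_⟩
  intro w hw
  obtain ⟨i, hi, e⟩ := h2 w hw
  have := (by decide : ∀ i ∈ ixJ5, i < 20 ∧ i ≠ 9) i hi
  exact ⟨i, this.1, this.2, e⟩

/-- the only inner word -/
theorem TyJ5V.inn (h : TyJ5V F g) : ∃ (R S : BinaryTree Unit) (w0 : X k), SqD k R .nil S ∧
    (∀ w ∈ g.B, ∃ i ∈ ixJ5, w = sX R .nil S w0 i) ∧
    F = {c | ∃ i ∈ nwJ5, c = cyc (sX R .nil S w0 i)} ∧
    ∀ a ∈ g.arcs, ∀ w ∈ innA a, w = TT (sX R .nil S w0 8) := by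
  obtain ⟨R, S, w0, h1, hp, rfl, rfl⟩ := h
  refine ⟨R, S, w0, h1, ?_, rfl, ?_⟩
  · intro w hw
    obtain ⟨i, hi, rfl⟩ := mem_gadJ5_B.1 hw
    exact ⟨i, hi, rfl⟩
  · intro a ha w hw
    have e : a = (sX R .nil S w0 8, sX R .nil S w0 14) := ha
    subst e
    exact hw

/-- existence of the group from the data -/
theorem TyJ5V.ex {R S : BinaryTree Unit} {w0 : X k} (h : SqD k R .nil S) (hp : J5OK R S w0)
    {z₀ z₁ z₂ y y' : X k} (e4 : z₀.1 = (.nil △ .nil) △ R) (e0 : z₁.1 = app R ((.nil △ .nil) △ .nil))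
    (e13 : z₂.1 = app S ((.nil △ .nil) △ .nil)) (e1 : y.1 = app R (.nil △ (.nil △ .nil)))
    (e2 : y'.1 = .nil △ app R (.nil △ .nil)) :
    TyJ5V {cyc z₁, cyc z₀, cyc z₂, cyc y, cyc y'} (gadJ5 (sX R .nil S w0)) := by
  refine ⟨R, S, w0, h, hp, ?_, rfl⟩
  have k0 : z₁ = sX R .nil S w0 0 := Subtype.ext (by rw [h.word w0 (by norm_num), e0]; rfl)
  have k4 : z₀ = sX R .nil S w0 4 := Subtype.ext (by rw [h.word w0 (by norm_num), e4]; rfl)
  have k13 : z₂ = sX R .nil S w0 13 := Subtype.ext (by rw [h.word w0 (by norm_num), e13]; rfl)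
  have k1 : y = sX R .nil S w0 1 := Subtype.ext (by rw [h.word w0 (by norm_num), e1]; rfl)
  have k2 : y' = sX R .nil S w0 2 := Subtype.ext (by rw [h.word w0 (by norm_num), e2]; rfl)
  subst k0 k4 k13 k1 k2
  ext c
  simp only [nwJ5, List.mem_cons, List.not_mem_nil, or_false, exists_eq_or_imp, exists_eq_left,
    Set.mem_insert_iff, Set.mem_singleton_iff, Set.mem_ofPred_eq]

end Pool.OddHC
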