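import Pool.Agent.Work.MP_8f87b2_h35.Gen20
import Pool.Agent.Work.MP_8f87b2_h35.CertV


/-!
MP_8f87b2_co: THE 24 FORMS OF J2B, RIGHT: the 20 words of `w20 R Q B S`, arcs 1 > 11, 3 > 12, 6 > 15, 8 > 14 (no arc at 9),
new T-cycles {0, 10}, {4} and those of the E pairs which are merged:
a = {1, 11}, {2} (host 3); b = {2}, {5} (host 7); c = {6, 15}, {8, 14} (host 9); d = {3, 12}, {6, 15} (host 17);
e = {16}, {18} (host 19); f = {1, 11}, {18} (host 14).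
Form 0: none; 1: a; 2: b; 3: c; 4: d; 5: e; 6: f; 7: ac; 8: ad; 9: ae; 10: bc; 11: bd; 12: be; 13: bf; 14: ce; 15: cf; 16: de; 17: df; 18: ace; 19: ade; 20: bce; 21: bcf; 22: bde; 23: bdf.
-/

set_option autoImplicit false

set_option synthInstance.maxSize 1000

namespace Pool.OddHC

open Finset BinaryTree Equiv

variable {k : ℕ}

/-- numbers of the words -/
def ixJBv : List ℕ := [0, 1, 2, 3, 4, 5, 6, 7, 8, 9, 10, 11, 12, 13, 14, 15, 16, 17, 18, 19]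

/-- arcs, right -/
def arJBv : List (ℕ × ℕ) := [(1, 11), (3, 12), (6, 15), (8, 14)]

/-- new T-cycles with one word -/
def sgJBv : ℕ → List ℕ
  | 0 => [4]
  | 1 => [4, 2]
  | 2 => [4, 2, 5]
  | 3 => [4]
  | 4 => [4]
  | 5 => [4, 16, 18]
  | 6 => [4, 18]
  | 7 => [4, 2]
  | 8 => [4, 2]
  | 9 => [4, 2, 16, 18]
  | 10 => [4, 2, 5]
  | 11 => [4, 2, 5]
  | 12 => [4, 2, 5, 16, 18]
  | 13 => [4, 2, 5, 18]
  | 14 => [4, 16, 18]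
  | 15 => [4, 18]
  | 16 => [4, 16, 18]
  | 17 => [4, 18]
  | 18 => [4, 2, 16, 18]
  | 19 => [4, 2, 16, 18]
  | 20 => [4, 2, 5, 16, 18]
  | 21 => [4, 2, 5, 18]
  | 22 => [4, 2, 5, 16, 18]
  | _ => [4, 2, 5, 18]

/-- new T-cycles with two words -/
def prJBv : ℕ → List (ℕ × ℕ)
  | 0 => [(0, 10)]
  | 1 => [(0, 10), (1, 11)]
  | 2 => [(0, 10)]
  | 3 => [(0, 10), (6, 15), (8, 14)]
  | 4 => [(0, 10), (3, 12), (6, 15)]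
  | 5 => [(0, 10)]
  | 6 => [(0, 10), (1, 11)]
  | 7 => [(0, 10), (1, 11), (6, 15), (8, 14)]
  | 8 => [(0, 10), (1, 11), (3, 12), (6, 15)]
  | 9 => [(0, 10), (1, 11)]
  | 10 => [(0, 10), (6, 15), (8, 14)]
  | 11 => [(0, 10), (3, 12), (6, 15)]
  | 12 => [(0, 10)]
  | 13 => [(0, 10), (1, 11)]
  | 14 => [(0, 10), (6, 15), (8, 14)]
  | 15 => [(0, 10), (6, 15), (8, 14), (1, 11)]
  | 16 => [(0, 10), (3, 12), (6, 15)]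
  | 17 => [(0, 10), (3, 12), (6, 15), (1, 11)]
  | 18 => [(0, 10), (1, 11), (6, 15), (8, 14)]
  | 19 => [(0, 10), (1, 11), (3, 12), (6, 15)]
  | 20 => [(0, 10), (6, 15), (8, 14)]
  | 21 => [(0, 10), (6, 15), (8, 14), (1, 11)]
  | 22 => [(0, 10), (3, 12), (6, 15)]
  | _ => [(0, 10), (3, 12), (6, 15), (1, 11)]

/-- old words -/
def odJBv : ℕ → List ℕ
  | 0 => [1, 2, 3, 5, 6, 7, 8, 9, 11, 12, 13, 14, 15, 16, 17, 18, 19]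
  | 1 => [3, 5, 6, 7, 8, 9, 12, 13, 14, 15, 16, 17, 18, 19]
  | 2 => [1, 3, 6, 7, 8, 9, 11, 12, 13, 14, 15, 16, 17, 18, 19]
  | 3 => [1, 2, 3, 5, 7, 9, 11, 12, 13, 16, 17, 18, 19]
  | 4 => [1, 2, 5, 7, 8, 9, 11, 13, 14, 16, 17, 18, 19]
  | 5 => [1, 2, 3, 5, 6, 7, 8, 9, 11, 12, 13, 14, 15, 17, 19]
  | 6 => [2, 3, 5, 6, 7, 8, 9, 12, 13, 14, 15, 16, 17, 19]
  | 7 => [3, 5, 7, 9, 12, 13, 16, 17, 18, 19]
  | 8 => [5, 7, 8, 9, 13, 14, 16, 17, 18, 19]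
  | 9 => [3, 5, 6, 7, 8, 9, 12, 13, 14, 15, 17, 19]
  | 10 => [1, 3, 7, 9, 11, 12, 13, 16, 17, 18, 19]
  | 11 => [1, 7, 8, 9, 11, 13, 14, 16, 17, 18, 19]
  | 12 => [1, 3, 6, 7, 8, 9, 11, 12, 13, 14, 15, 17, 19]
  | 13 => [3, 6, 7, 8, 9, 12, 13, 14, 15, 16, 17, 19]
  | 14 => [1, 2, 3, 5, 7, 9, 11, 12, 13, 17, 19]
  | 15 => [2, 3, 5, 7, 9, 12, 13, 16, 17, 19]
  | 16 => [1, 2, 5, 7, 8, 9, 11, 13, 14, 17, 19]
  | 17 => [2, 5, 7, 8, 9, 13, 14, 16, 17, 19]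
  | 18 => [3, 5, 7, 9, 12, 13, 17, 19]
  | 19 => [5, 7, 8, 9, 13, 14, 17, 19]
  | 20 => [1, 3, 7, 9, 11, 12, 13, 17, 19]
  | 21 => [3, 7, 9, 12, 13, 16, 17, 19]
  | 22 => [1, 7, 8, 9, 11, 13, 14, 17, 19]
  | _ => [7, 8, 9, 13, 14, 16, 17, 19]

/-- one word of each new T-cycle -/
def nwJBv (v : ℕ) : List ℕ := sgJBv v ++ (prJBv v).map Prod.fst

theorem mem_ixJBv {i : ℕ} : i ∈ ixJBv ↔ i < 20 := by
  have h : ixJBv = List.range 20 := by decide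
  rw [h, List.mem_range]

/-- J2B, form `v` -/
noncomputable def gadJBv (v : ℕ) (w : ℕ → X k) : DG k := gadOf w ixJBv (nwJBv v) arJBv

theorem okJBv0 : CertOk ixJBv (sgJBv 0) (prJBv 0) arJBv (odJBv 0) CertV0.A CertV0.F_0 CertV0.Z_0
    CertV0.x0_0 CertV0.z0_0 CertV0.al Cert.al := by
  refine ⟨?_, ?_, ?_, ?_, ?_, ?_, ?_, ?_, ?_, ?_, ?_, ?_, ?_, ?_, ?_⟩ <;> decide +kernel

theorem okJBv1 : CertOk ixJBv (sgJBv 1) (prJBv 1) arJBv (odJBv 1) CertV1.A CertV1.F_0 CertV1.Z_0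
    CertV1.x0_0 CertV1.z0_0 CertV1.al Cert.al := by
  refine ⟨?_, ?_, ?_, ?_, ?_, ?_, ?_, ?_, ?_, ?_, ?_, ?_, ?_, ?_, ?_⟩ <;> decide +kernel

theorem okJBv2 : CertOk ixJBv (sgJBv 2) (prJBv 2) arJBv (odJBv 2) CertV2.A CertV2.F_0 CertV2.Z_0
    CertV2.x0_0 CertV2.z0_0 CertV2.al Cert.al := by
  refine ⟨?_, ?_, ?_, ?_, ?_, ?_, ?_, ?_, ?_, ?_, ?_, ?_, ?_, ?_, ?_⟩ <;> decide +kernel

theorem okJBv3 : CertOk ixJBv (sgJBv 3) (prJBv 3) arJBv (odJBv 3) CertV3.A CertV3.F_0 CertV3.Z_0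
    CertV3.x0_0 CertV3.z0_0 CertV3.al Cert.al := by
  refine ⟨?_, ?_, ?_, ?_, ?_, ?_, ?_, ?_, ?_, ?_, ?_, ?_, ?_, ?_, ?_⟩ <;> decide +kernel

theorem okJBv4 : CertOk ixJBv (sgJBv 4) (prJBv 4) arJBv (odJBv 4) CertV4.A CertV4.F_0 CertV4.Z_0
    CertV4.x0_0 CertV4.z0_0 CertV4.al Cert.al := by
  refine ⟨?_, ?_, ?_, ?_, ?_, ?_, ?_, ?_, ?_, ?_, ?_, ?_, ?_, ?_, ?_⟩ <;> decide +kernel

theorem okJBv5 : CertOk ixJBv (sgJBv 5) (prJBv 5) arJBv (odJBv 5) CertV5.A CertV5.F_0 CertV5.Z_0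
    CertV5.x0_0 CertV5.z0_0 CertV5.al Cert.al := by
  refine ⟨?_, ?_, ?_, ?_, ?_, ?_, ?_, ?_, ?_, ?_, ?_, ?_, ?_, ?_, ?_⟩ <;> decide +kernel

theorem okJBv6 : CertOk ixJBv (sgJBv 6) (prJBv 6) arJBv (odJBv 6) CertV6.A CertV6.F_0 CertV6.Z_0
    CertV6.x0_0 CertV6.z0_0 CertV6.al Cert.al := by
  refine ⟨?_, ?_, ?_, ?_, ?_, ?_, ?_, ?_, ?_, ?_, ?_, ?_, ?_, ?_, ?_⟩ <;> decide +kernel

theorem okJBv7 : CertOk ixJBv (sgJBv 7) (prJBv 7) arJBv (odJBv 7) CertV7.A CertV7.F_0 CertV7.Z_0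
    CertV7.x0_0 CertV7.z0_0 CertV7.al Cert.al := by
  refine ⟨?_, ?_, ?_, ?_, ?_, ?_, ?_, ?_, ?_, ?_, ?_, ?_, ?_, ?_, ?_⟩ <;> decide +kernel

theorem okJBv8 : CertOk ixJBv (sgJBv 8) (prJBv 8) arJBv (odJBv 8) CertV8.A CertV8.F_0 CertV8.Z_0
    CertV8.x0_0 CertV8.z0_0 CertV8.al Cert.al := by
  refine ⟨?_, ?_, ?_, ?_, ?_, ?_, ?_, ?_, ?_, ?_, ?_, ?_, ?_, ?_, ?_⟩ <;> decide +kernel

theorem okJBv9 : CertOk ixJBv (sgJBv 9) (prJBv 9) arJBv (odJBv 9) CertV9.A CertV9.F_0 CertV9.Z_0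
    CertV9.x0_0 CertV9.z0_0 CertV9.al Cert.al := by
  refine ⟨?_, ?_, ?_, ?_, ?_, ?_, ?_, ?_, ?_, ?_, ?_, ?_, ?_, ?_, ?_⟩ <;> decide +kernel

theorem okJBv10 : CertOk ixJBv (sgJBv 10) (prJBv 10) arJBv (odJBv 10) CertV10.A CertV10.F_0 CertV10.Z_0
    CertV10.x0_0 CertV10.z0_0 CertV10.al Cert.al := by
  refine ⟨?_, ?_, ?_, ?_, ?_, ?_, ?_, ?_, ?_, ?_, ?_, ?_, ?_, ?_, ?_⟩ <;> decide +kernel

theorem okJBv11 : CertOk ixJBv (sgJBv 11) (prJBv 11) arJBv (odJBv 11) CertV11.A CertV11.F_0 CertV11.Z_0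
    CertV11.x0_0 CertV11.z0_0 CertV11.al Cert.al := by
  refine ⟨?_, ?_, ?_, ?_, ?_, ?_, ?_, ?_, ?_, ?_, ?_, ?_, ?_, ?_, ?_⟩ <;> decide +kernel

theorem okJBv12 : CertOk ixJBv (sgJBv 12) (prJBv 12) arJBv (odJBv 12) CertV12.A CertV12.F_0 CertV12.Z_0
    CertV12.x0_0 CertV12.z0_0 CertV12.al Cert.al := by
  refine ⟨?_, ?_, ?_, ?_, ?_, ?_, ?_, ?_, ?_, ?_, ?_, ?_, ?_, ?_, ?_⟩ <;> decide +kernel

theorem okJBv13 : CertOk ixJBv (sgJBv 13) (prJBv 13) arJBv (odJBv 13) CertV13.A CertV13.F_0 CertV13.Z_0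
    CertV13.x0_0 CertV13.z0_0 CertV13.al Cert.al := by
  refine ⟨?_, ?_, ?_, ?_, ?_, ?_, ?_, ?_, ?_, ?_, ?_, ?_, ?_, ?_, ?_⟩ <;> decide +kernel

theorem okJBv14 : CertOk ixJBv (sgJBv 14) (prJBv 14) arJBv (odJBv 14) CertV14.A CertV14.F_0 CertV14.Z_0
    CertV14.x0_0 CertV14.z0_0 CertV14.al Cert.al := by
  refine ⟨?_, ?_, ?_, ?_, ?_, ?_, ?_, ?_, ?_, ?_, ?_, ?_, ?_, ?_, ?_⟩ <;> decide +kernel

theorem okJBv15 : CertOk ixJBv (sgJBv 15) (prJBv 15) arJBv (odJBv 15) CertV15.A CertV15.F_0 CertV15.Z_0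
    CertV15.x0_0 CertV15.z0_0 CertV15.al Cert.al := by
  refine ⟨?_, ?_, ?_, ?_, ?_, ?_, ?_, ?_, ?_, ?_, ?_, ?_, ?_, ?_, ?_⟩ <;> decide +kernel

theorem okJBv16 : CertOk ixJBv (sgJBv 16) (prJBv 16) arJBv (odJBv 16) CertV16.A CertV16.F_0 CertV16.Z_0
    CertV16.x0_0 CertV16.z0_0 CertV16.al Cert.al := by
  refine ⟨?_, ?_, ?_, ?_, ?_, ?_, ?_, ?_, ?_, ?_, ?_, ?_, ?_, ?_, ?_⟩ <;> decide +kernel

theorem okJBv17 : CertOk ixJBv (sgJBv 17) (prJBv 17) arJBv (odJBv 17) CertV17.A CertV17.F_0 CertV17.Z_0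
    CertV17.x0_0 CertV17.z0_0 CertV17.al Cert.al := by
  refine ⟨?_, ?_, ?_, ?_, ?_, ?_, ?_, ?_, ?_, ?_, ?_, ?_, ?_, ?_, ?_⟩ <;> decide +kernel

theorem okJBv18 : CertOk ixJBv (sgJBv 18) (prJBv 18) arJBv (odJBv 18) CertV18.A CertV18.F_0 CertV18.Z_0
    CertV18.x0_0 CertV18.z0_0 CertV18.al Cert.al := by
  refine ⟨?_, ?_, ?_, ?_, ?_, ?_, ?_, ?_, ?_, ?_, ?_, ?_, ?_, ?_, ?_⟩ <;> decide +kernel

theorem okJBv19 : CertOk ixJBv (sgJBv 19) (prJBv 19) arJBv (odJBv 19) CertV19.A CertV19.F_0 CertV19.Z_0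
    CertV19.x0_0 CertV19.z0_0 CertV19.al Cert.al := by
  refine ⟨?_, ?_, ?_, ?_, ?_, ?_, ?_, ?_, ?_, ?_, ?_, ?_, ?_, ?_, ?_⟩ <;> decide +kernel

theorem okJBv20 : CertOk ixJBv (sgJBv 20) (prJBv 20) arJBv (odJBv 20) CertV20.A CertV20.F_0 CertV20.Z_0
    CertV20.x0_0 CertV20.z0_0 CertV20.al Cert.al := by
  refine ⟨?_, ?_, ?_, ?_, ?_, ?_, ?_, ?_, ?_, ?_, ?_, ?_, ?_, ?_, ?_⟩ <;> decide +kernel

theorem okJBv21 : CertOk ixJBv (sgJBv 21) (prJBv 21) arJBv (odJBv 21) CertV21.A CertV21.F_0 CertV21.Z_0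
    CertV21.x0_0 CertV21.z0_0 CertV21.al Cert.al := by
  refine ⟨?_, ?_, ?_, ?_, ?_, ?_, ?_, ?_, ?_, ?_, ?_, ?_, ?_, ?_, ?_⟩ <;> decide +kernel

theorem okJBv22 : CertOk ixJBv (sgJBv 22) (prJBv 22) arJBv (odJBv 22) CertV22.A CertV22.F_0 CertV22.Z_0
    CertV22.x0_0 CertV22.z0_0 CertV22.al Cert.al := by
  refine ⟨?_, ?_, ?_, ?_, ?_, ?_, ?_, ?_, ?_, ?_, ?_, ?_, ?_, ?_, ?_⟩ <;> decide +kernel

theorem okJBv23 : CertOk ixJBv (sgJBv 23) (prJBv 23) arJBv (odJBv 23) CertV23.A CertV23.F_0 CertV23.Z_0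
    CertV23.x0_0 CertV23.z0_0 CertV23.al Cert.al := by
  refine ⟨?_, ?_, ?_, ?_, ?_, ?_, ?_, ?_, ?_, ?_, ?_, ?_, ?_, ?_, ?_⟩ <;> decide +kernel

/-- **J2B ABSORBS, every form.** -/
theorem gadJBv_abs {R Q B S : BinaryTree Unit} (hR : Q.numNodes + R.numNodes + 2 = k)
    (hB : Q.numNodes + S.numNodes + B.numNodes + 2 = k) {v : ℕ} (hv : v < 24)
    {w : ℕ → X k} (hw : ∀ i < 20, (w i).1 = w20 R Q B S i)
    (hinj : ∀ i < 20, ∀ j < 20, w i = w j → i = j)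
    (hpair : ∀ p ∈ prJBv v, TT.SameCycle (w p.1) (w p.2))
    (hsep : ∀ i ∈ nwJBv v, ∀ j ∈ nwJBv v, TT.SameCycle (w i) (w j) → i = j)
    (hold : ∀ i ∈ nwJBv v, ∀ j ∈ odJBv v, ¬ TT.SameCycle (w i) (w j)) :
    (gadJBv v w).Abs := by
  have hw' : ∀ i ∈ ixJBv, (w i).1 = w20 R Q B S i := fun i hi => hw i (mem_ixJBv.1 hi)
  have hinj' : ∀ i ∈ ixJBv, ∀ j ∈ ixJBv, w i = w j → i = j := fun i hi j hj =>
    hinj i (mem_ixJBv.1 hi) j (mem_ixJBv.1 hj)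
  interval_cases v
  · exact gadOf_abs hR hB okJBv0 CertV0.run hw' hinj' hpair hsep hold
  · exact gadOf_abs hR hB okJBv1 CertV1.run hw' hinj' hpair hsep hold
  · exact gadOf_abs hR hB okJBv2 CertV2.run hw' hinj' hpair hsep hold
  · exact gadOf_abs hR hB okJBv3 CertV3.run hw' hinj' hpair hsep hold
  · exact gadOf_abs hR hB okJBv4 CertV4.run hw' hinj' hpair hsep hold
  · exact gadOf_abs hR hB okJBv5 CertV5.run hw' hinj' hpair hsep hold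
  · exact gadOf_abs hR hB okJBv6 CertV6.run hw' hinj' hpair hsep hold
  · exact gadOf_abs hR hB okJBv7 CertV7.run hw' hinj' hpair hsep hold
  · exact gadOf_abs hR hB okJBv8 CertV8.run hw' hinj' hpair hsep hold
  · exact gadOf_abs hR hB okJBv9 CertV9.run hw' hinj' hpair hsep hold
  · exact gadOf_abs hR hB okJBv10 CertV10.run hw' hinj' hpair hsep hold
  · exact gadOf_abs hR hB okJBv11 CertV11.run hw' hinj' hpair hsep hold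
  · exact gadOf_abs hR hB okJBv12 CertV12.run hw' hinj' hpair hsep hold
  · exact gadOf_abs hR hB okJBv13 CertV13.run hw' hinj' hpair hsep hold
  · exact gadOf_abs hR hB okJBv14 CertV14.run hw' hinj' hpair hsep hold
  · exact gadOf_abs hR hB okJBv15 CertV15.run hw' hinj' hpair hsep hold
  · exact gadOf_abs hR hB okJBv16 CertV16.run hw' hinj' hpair hsep hold
  · exact gadOf_abs hR hB okJBv17 CertV17.run hw' hinj' hpair hsep hold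
  · exact gadOf_abs hR hB okJBv18 CertV18.run hw' hinj' hpair hsep hold
  · exact gadOf_abs hR hB okJBv19 CertV19.run hw' hinj' hpair hsep hold
  · exact gadOf_abs hR hB okJBv20 CertV20.run hw' hinj' hpair hsep hold
  · exact gadOf_abs hR hB okJBv21 CertV21.run hw' hinj' hpair hsep hold
  · exact gadOf_abs hR hB okJBv22 CertV22.run hw' hinj' hpair hsep hold
  · exact gadOf_abs hR hB okJBv23 CertV23.run hw' hinj' hpair hsep hold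

theorem mem_gadJBv {v : ℕ} {w : ℕ → X k} {x : X k} : x ∈ (gadJBv v w).B ↔ ∃ i < 20, w i = x := by
  unfold gadJBv
  rw [mem_gadOf_B]
  constructor
  · rintro ⟨i, hi, e⟩
    exact ⟨i, mem_ixJBv.1 hi, e⟩
  · rintro ⟨i, hi, e⟩
    exact ⟨i, mem_ixJBv.2 hi, e⟩

theorem gadJBv_arcs {v : ℕ} {w : ℕ → X k} {p : X k × X k} : p ∈ (gadJBv v w).arcs ↔
    p = (w 1, w 11) ∨ p = (w 3, w 12) ∨ p = (w 6, w 15) ∨ p = (w 8, w 14) := by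
  unfold gadJBv
  rw [mem_gadOf_arcs]
  simp only [arJBv, List.mem_cons, List.not_mem_nil, or_false]
  constructor
  · rintro ⟨r, rfl | rfl | rfl | rfl, e⟩
    · exact Or.inl e
    · exact Or.inr (Or.inl e)
    · exact Or.inr (Or.inr (Or.inl e))
    · exact Or.inr (Or.inr (Or.inr e))
  · rintro (e | e | e | e)
    · exact ⟨_, Or.inl rfl, e⟩
    · exact ⟨_, Or.inr (Or.inl rfl), e⟩
    · exact ⟨_, Or.inr (Or.inr (Or.inl rfl)), e⟩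
    · exact ⟨_, Or.inr (Or.inr (Or.inr rfl)), e⟩

theorem gadJBv_F {v : ℕ} {w : ℕ → X k} {x : X k} : x ∈ (gadJBv v w).F ↔ ∃ c ∈ nwJBv v, TT.SameCycle (w c) x := Iff.rfl

end Pool.OddHC
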