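import Pool.Agent.Work.MP_8f87b2_h35.Abs

/-!
MP_8f87b2_co: certificates for the 13-word gadget G13, right: words 0..9, 12, 15, 17, arcs 3 -> 12, 6 -> 15, 9 -> 17; new T-cycles
a: {0}, {4}, {1, 5}, {2}; b: {0}, {4}, {1}, {2}; c: {0}, {4}, {1}, {2, 5}
-/

set_option autoImplicit false

namespace Pool.OddHC.CertG13a

/-- arcs, base 32 digits (31 = no arc) -/
def A : Nat := 36892819622873890815

/-- masks of the allowed images -/
def al : List Nat := [49, 22, 44, 11, 400, 224, 321, 644, 770, 584, 3072, 6144, 5120]

/-- new words -/
def F_0 : Nat := 55

/-- successors on the new T-cycles -/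
def Z_0 : Nat := 36893488146384128160

/-- first word of the lists -/
def x0_0 : Nat := 7

/-- a new word -/
def z0_0 : Nat := 0

/-- number of new words -/
def cF_0 : Nat := 5

/-- the code -/
def code_0 : List Nat := [
  3, 10, 6, 11, 9, 12, 14242854033297542212, 12, 8, 14242749345685312548, 14242854892359226404,
  11974166580071339044, 14242749347798193188, 12, 8, 11974061033397425188, 14242854892359226404,
  14242854892359226404, 11974061035510305828, 11, 14242959345929194629]

theorem runG13a : Pool.OddHC.Abs.run A F_0 Z_0 x0_0 z0_0 cF_0 al code_0 [[x0_0]] = true := by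
  decide +kernel

end Pool.OddHC.CertG13a

namespace Pool.OddHC.CertG13b

/-- arcs, base 32 digits (31 = no arc) -/
def A : Nat := 36892819622873890815

/-- masks of the allowed images -/
def al : List Nat := [49, 22, 44, 11, 400, 224, 321, 644, 770, 584, 3072, 6144, 5120]

/-- new words -/
def F_0 : Nat := 23

/-- successors on the new T-cycles -/
def Z_0 : Nat := 36893488147390760992

/-- first word of the lists -/
def x0_0 : Nat := 7

/-- a new word -/
def z0_0 : Nat := 0

/-- number of new words -/
def cF_0 : Nat := 4

/-- the code -/
def code_0 : List Nat := [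
  3, 10, 9, 12, 6, 11, 5, 14242748480214832196, 11974271033641307269, 8, 14242740790110458948,
  14242846345306049604, 11974166751802854468, 11974166751802854468, 11974158033018162244,
  14242959345929194629, 11, 14242854033297542212, 11, 14242854033297542212, 12, 6, 11, 5,
  11974060167926944836, 8, 11974052477822571588, 14242855064090741828, 14242855064090741828,
  11974158033018162244, 14242846345306049604, 14242959345929194629, 14242959345929194629, 11,
  11974165721009654852, 11, 14242854033297542212]

theorem runG13b : Pool.OddHC.Abs.run A F_0 Z_0 x0_0 z0_0 cF_0 al code_0 [[x0_0]] = true := by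
  decide +kernel

end Pool.OddHC.CertG13b

namespace Pool.OddHC.CertG13c

/-- arcs, base 32 digits (31 = no arc) -/
def A : Nat := 36892819622873890815

/-- masks of the allowed images -/
def al : List Nat := [49, 22, 44, 11, 400, 224, 321, 644, 770, 584, 3072, 6144, 5120]

/-- new words -/
def F_0 : Nat := 55

/-- successors on the new T-cycles -/
def Z_0 : Nat := 36893488146417685536

/-- first word of the lists -/
def x0_0 : Nat := 8

/-- a new word -/
def z0_0 : Nat := 0

/-- number of new words -/
def cF_0 : Nat := 5

/-- the code -/
def code_0 : List Nat := [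
  6, 11, 14242951821147605125]

theorem runG13c : Pool.OddHC.Abs.run A F_0 Z_0 x0_0 z0_0 cF_0 al code_0 [[x0_0]] = true := by
  decide +kernel

end Pool.OddHC.CertG13c
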