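import Pool.Agent.Work.MP_8f87b2_h35.Abs

/-!
MP_8f87b2_co: certificates for the 13-word gadget G13, mirror: words 0..9, 12, 15, 17, arcs 12 -> 3, 15 -> 6, 17 -> 9; new T-cycles
a: {0}, {4}, {1, 5}, {2}; b: {0}, {4}, {1}, {2}; c: {0}, {4}, {1}, {2, 5}
-/

set_option autoImplicit false

namespace Pool.OddHC.CertG13Ma

/-- arcs, base 32 digits (31 = no arc) -/
def A : Nat := 10596969923202777087

/-- masks of the allowed images -/
def al : List Nat := [73, 266, 134, 524, 19, 37, 608, 176, 336, 896, 5120, 3072, 6144]

/-- new words -/
def F_0 : Nat := 55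

/-- successors on the new T-cycles -/
def Z_0 : Nat := 36893488146384128160

/-- first word of the lists -/
def x0_0 : Nat := 7

/-- a new word -/
def z0_0 : Nat := 0

/-- number of new words -/
def cF_0 : Nat := 5

/-- the code -/
def code_0 : List Nat := [
  10, 3, 11, 6, 14242959419809799270, 6, 12, 9, 8, 13056221371078843427, 14242919872890969123,
  14242919876111997990, 13056221371078843427, 9, 8, 14242919872890969123, 13056221374299872294,
  14242919872890969123, 14242919872890969123, 9, 14242889055527306342]

theorem runG13Ma : Pool.OddHC.Abs.run A F_0 Z_0 x0_0 z0_0 cF_0 al code_0 [[x0_0]] = true := by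
  decide +kernel

end Pool.OddHC.CertG13Ma

namespace Pool.OddHC.CertG13Mb

/-- arcs, base 32 digits (31 = no arc) -/
def A : Nat := 10596969923202777087

/-- masks of the allowed images -/
def al : List Nat := [73, 266, 134, 524, 19, 37, 608, 176, 336, 896, 5120, 3072, 6144]

/-- new words -/
def F_0 : Nat := 23

/-- successors on the new T-cycles -/
def Z_0 : Nat := 36893488147390760992

/-- first word of the lists -/
def x0_0 : Nat := 7

/-- a new word -/
def z0_0 : Nat := 0

/-- number of new words -/
def cF_0 : Nat := 4

/-- the code -/
def code_0 : List Nat := [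
  10, 3, 12, 9, 11, 6, 14242889055527306342, 6, 13056190553715180646, 6, 5, 14242959419809799270,
  14242959419809799270, 8, 14242886856504050947, 13056188354691925251, 14242919944932099174,
  13056186186706748675, 13056186186706748675, 13056190549319779430, 9, 11, 6, 14242889055527306342, 6,
  14242889055527306342, 6, 5, 14242959419809799270, 8, 13056188354691925251, 13056221443119973478,
  14242884688518874371, 14242886856504050947, 14242884688518874371, 13056260917997673574,
  14242889051131905126]

theorem runG13Mb : Pool.OddHC.Abs.run A F_0 Z_0 x0_0 z0_0 cF_0 al code_0 [[x0_0]] = true := by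
  decide +kernel

end Pool.OddHC.CertG13Mb

namespace Pool.OddHC.CertG13Mc

/-- arcs, base 32 digits (31 = no arc) -/
def A : Nat := 10596969923202777087

/-- masks of the allowed images -/
def al : List Nat := [73, 266, 134, 524, 19, 37, 608, 176, 336, 896, 5120, 3072, 6144]

/-- new words -/
def F_0 : Nat := 55

/-- successors on the new T-cycles -/
def Z_0 : Nat := 36893488146417685536

/-- first word of the lists -/
def x0_0 : Nat := 8

/-- a new word -/
def z0_0 : Nat := 0

/-- number of new words -/
def cF_0 : Nat := 5

/-- the code -/
def code_0 : List Nat := [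
  11, 6, 14242955124842531078]

theorem runG13Mc : Pool.OddHC.Abs.run A F_0 Z_0 x0_0 z0_0 cF_0 al code_0 [[x0_0]] = true := by
  decide +kernel

end Pool.OddHC.CertG13Mc
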