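import Pool.Agent.Work.MP_8f87b2_h35.Gen20L
import Pool.Agent.Work.MP_8f87b2_h35.CertG13
import Pool.Agent.Work.MP_8f87b2_h35.CertG13M

/-!
MP_8f87b2_co: THE 13-WORD GADGET G13 = a pair JV (`Is9`) merged with the E pair: the ten block words 0..9 and the words 12, 15, 17 of
`w20 R Q B S` (`w20M`), arcs 3 -> 12, 6 -> 15, 9 -> 17 (12 -> 3, 15 -> 6, 17 -> 9). Four new T-cycles, those of the words 0, 4, 1, 2;
the word 5 may be on that of 1, on that of 2 or on another T-cycle, the words 3, 6, 7, 8, 9, 12, 15, 17 are on other T-cycles.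
-/

set_option autoImplicit false

set_option synthInstance.maxSize 1000

namespace Pool.OddHC

open Finset BinaryTree Equiv

variable {k : ℕ}

/-- numbers of the words of G13 -/
def ixG13 : List ℕ := [0, 1, 2, 3, 4, 5, 6, 7, 8, 9, 12, 15, 17]

/-- one word of each new T-cycle -/
def nwG13 : List ℕ := [0, 4, 1, 2]

/-- the old words, 5 excepted -/
def odG13 : List ℕ := [3, 6, 7, 8, 9, 12, 15, 17]

theorem fr_one {w : ℕ → X k} (c : ℕ) : ∀ p ∈ nxL [c], ∃ C : Finset (X k), (∀ i ∈ [c], w i ∈ C) ∧
    FR TT C (w p.1) (w p.2) := by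
  intro p hp
  have e : nxL [c] = [(c, c)] := by
    simp [nxL, List.rotate]
  rw [e] at hp
  have hp' : p = (c, c) := List.mem_singleton.1 hp
  subst hp'
  refine ⟨{w c}, ?_, FR_self TT _ _ ?_⟩
  · intro i hi
    rw [List.mem_singleton.1 hi]
    exact mem_singleton_self _
  · intro x hx _
    exact mem_singleton.1 hx

theorem fr_two' {w : ℕ → X k} {c d : ℕ} (hne : w c ≠ w d) (hs : TT.SameCycle (w c) (w d)) :
    ∀ p ∈ nxL [c, d], ∃ C : Finset (X k), (∀ i ∈ [c, d], w i ∈ C) ∧ FR TT C (w p.1) (w p.2) := by
  classical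
  intro p hp
  have hp' : p = (c, d) ∨ p = (d, c) := by
    have e : nxL [c, d] = [(c, d), (d, c)] := by
      simp [nxL, List.rotate]
    rw [e] at hp
    simpa using hp
  refine ⟨{w c, w d}, ?_, ?_⟩
  · intro i hi
    simp only [List.mem_cons, List.not_mem_nil, or_false] at hi
    rcases hi with rfl | rfl
    · simp
    · simp
  · rcases hp' with rfl | rfl
    · refine FR_pair TT _ _ _ (by simp) hne hs ?_
      intro x hx _
      simpa using hx
    · refine FR_pair TT _ _ _ (by simp) hne.symm hs.symm ?_
      intro x hx _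
      have : x = w c ∨ x = w d := by simpa using hx
      exact this.symm

/-! ### Right -/

/-- arcs -/
def arG13 : List (ℕ × ℕ) := [(3, 12), (6, 15), (9, 17)]

/-- the gadget G13 -/
noncomputable def gadG13 (w : ℕ → X k) : DG k := gadOf w ixG13 nwG13 arG13

theorem okG13a : CertOkL ixG13 [[0], [4], [1, 5], [2]] arG13 odG13 CertG13a.A CertG13a.F_0 CertG13a.Z_0
    CertG13a.x0_0 CertG13a.z0_0 CertG13a.al Cert.al := by
  refine ⟨?_, ?_, ?_, ?_, ?_, ?_, ?_, ?_, ?_, ?_, ?_, ?_, ?_, ?_⟩ <;> decide +kernel

theorem okG13b : CertOkL ixG13 [[0], [4], [1], [2]] arG13 (5 :: odG13) CertG13b.A CertG13b.F_0 CertG13b.Z_0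
    CertG13b.x0_0 CertG13b.z0_0 CertG13b.al Cert.al := by
  refine ⟨?_, ?_, ?_, ?_, ?_, ?_, ?_, ?_, ?_, ?_, ?_, ?_, ?_, ?_⟩ <;> decide +kernel

theorem okG13c : CertOkL ixG13 [[0], [4], [1], [2, 5]] arG13 odG13 CertG13c.A CertG13c.F_0 CertG13c.Z_0
    CertG13c.x0_0 CertG13c.z0_0 CertG13c.al Cert.al := by
  refine ⟨?_, ?_, ?_, ?_, ?_, ?_, ?_, ?_, ?_, ?_, ?_, ?_, ?_, ?_⟩ <;> decide +kernel

/-- **G13 ABSORBS**: the words 0, 4, 1, 2 are on four new T-cycles, the word 5 is not on those of 0, 4 (it may be on that of 1, on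
that of 2 or on none), the words 3, 6, 7, 8, 9, 12, 15, 17 are on none. -/
theorem gadG13_abs {R Q B S : BinaryTree Unit} (hR : Q.numNodes + R.numNodes + 2 = k)
    (hB : Q.numNodes + S.numNodes + B.numNodes + 2 = k)
    {w : ℕ → X k} (hw : ∀ i ∈ ixG13, (w i).1 = w20 R Q B S i)
    (hinj : ∀ i ∈ ixG13, ∀ j ∈ ixG13, w i = w j → i = j)
    (hsep : ∀ i ∈ nwG13, ∀ j ∈ nwG13, TT.SameCycle (w i) (w j) → i = j)
    (h05 : ¬ TT.SameCycle (w 0) (w 5)) (h45 : ¬ TT.SameCycle (w 4) (w 5))
    (hold : ∀ i ∈ nwG13, ∀ j ∈ odG13, ¬ TT.SameCycle (w i) (w j)) :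
    (gadG13 w).Abs := by
  classical
  have n15 : w 1 ≠ w 5 := fun h => absurd (hinj 1 (by decide) 5 (by decide) h) (by decide)
  have n25 : w 2 ≠ w 5 := fun h => absurd (hinj 2 (by decide) 5 (by decide) h) (by decide)
  by_cases h1 : TT.SameCycle (w 1) (w 5)
  · refine gadOfL_abs hR hB okG13a CertG13a.runG13a hw hinj ?_ ?_ hsep hold
    · intro c hc i hi
      simp only [List.mem_cons, List.not_mem_nil, or_false] at hc
      rcases hc with rfl | rfl | rfl | rfl
      · rw [List.mem_singleton.1 hi]; exact Perm.SameCycle.refl _ _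
      · rw [List.mem_singleton.1 hi]; exact Perm.SameCycle.refl _ _
      · simp only [List.mem_cons, List.not_mem_nil, or_false] at hi
        rcases hi with rfl | rfl
        · exact Perm.SameCycle.refl _ _
        · exact h1
      · rw [List.mem_singleton.1 hi]; exact Perm.SameCycle.refl _ _
    · intro c hc
      simp only [List.mem_cons, List.not_mem_nil, or_false] at hc
      rcases hc with rfl | rfl | rfl | rfl
      · exact fr_one 0
      · exact fr_one 4
      · exact fr_two' n15 h1
      · exact fr_one 2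
  · by_cases h2 : TT.SameCycle (w 2) (w 5)
    · refine gadOfL_abs hR hB okG13c CertG13c.runG13c hw hinj ?_ ?_ hsep hold
      · intro c hc i hi
        simp only [List.mem_cons, List.not_mem_nil, or_false] at hc
        rcases hc with rfl | rfl | rfl | rfl
        · rw [List.mem_singleton.1 hi]; exact Perm.SameCycle.refl _ _
        · rw [List.mem_singleton.1 hi]; exact Perm.SameCycle.refl _ _
        · rw [List.mem_singleton.1 hi]; exact Perm.SameCycle.refl _ _
        · simp only [List.mem_cons, List.not_mem_nil, or_false] at hi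
          rcases hi with rfl | rfl
          · exact Perm.SameCycle.refl _ _
          · exact h2
      · intro c hc
        simp only [List.mem_cons, List.not_mem_nil, or_false] at hc
        rcases hc with rfl | rfl | rfl | rfl
        · exact fr_one 0
        · exact fr_one 4
        · exact fr_one 1
        · exact fr_two' n25 h2
    · refine gadOfL_abs hR hB okG13b CertG13b.runG13b hw hinj ?_ ?_ hsep ?_
      · intro c hc i hi
        simp only [List.mem_cons, List.not_mem_nil, or_false] at hc
        rcases hc with rfl | rfl | rfl | rfl <;>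
          (rw [List.mem_singleton.1 hi]; exact Perm.SameCycle.refl _ _)
      · intro c hc
        simp only [List.mem_cons, List.not_mem_nil, or_false] at hc
        rcases hc with rfl | rfl | rfl | rfl
        · exact fr_one 0
        · exact fr_one 4
        · exact fr_one 1
        · exact fr_one 2
      · intro i hi j hj
        rcases List.mem_cons.1 hj with rfl | hj
        · have hi' : i ∈ nwG13 := hi
          simp only [nwG13, List.mem_cons, List.not_mem_nil, or_false] at hi'
          rcases hi' with rfl | rfl | rfl | rfl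
          · exact h05
          · exact h45
          · exact h1
          · exact h2
        · exact hold i hi j hj

/-! ### Mirror -/

/-- arcs -/
def arG13M : List (ℕ × ℕ) := [(12, 3), (15, 6), (17, 9)]

/-- the gadget G13 , mirror -/
noncomputable def gadG13M (w : ℕ → X k) : DG k := gadOf w ixG13 nwG13 arG13M

theorem okG13Ma : CertOkL ixG13 [[0], [4], [1, 5], [2]] arG13M odG13 CertG13Ma.A CertG13Ma.F_0 CertG13Ma.Z_0
    CertG13Ma.x0_0 CertG13Ma.z0_0 CertG13Ma.al CertM.al := by
  refine ⟨?_, ?_, ?_, ?_, ?_, ?_, ?_, ?_, ?_, ?_, ?_, ?_, ?_, ?_⟩ <;> decide +kernel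

theorem okG13Mb : CertOkL ixG13 [[0], [4], [1], [2]] arG13M (5 :: odG13) CertG13Mb.A CertG13Mb.F_0 CertG13Mb.Z_0
    CertG13Mb.x0_0 CertG13Mb.z0_0 CertG13Mb.al CertM.al := by
  refine ⟨?_, ?_, ?_, ?_, ?_, ?_, ?_, ?_, ?_, ?_, ?_, ?_, ?_, ?_⟩ <;> decide +kernel

theorem okG13Mc : CertOkL ixG13 [[0], [4], [1], [2, 5]] arG13M odG13 CertG13Mc.A CertG13Mc.F_0 CertG13Mc.Z_0
    CertG13Mc.x0_0 CertG13Mc.z0_0 CertG13Mc.al CertM.al := by
  refine ⟨?_, ?_, ?_, ?_, ?_, ?_, ?_, ?_, ?_, ?_, ?_, ?_, ?_, ?_⟩ <;> decide +kernel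

/-- **G13 ABSORBS**: the words 0, 4, 1, 2 are on four new T-cycles, the word 5 is not on those of 0, 4 (it may be on that of 1, on
that of 2 or on none), the words 3, 6, 7, 8, 9, 12, 15, 17 are on none. -/
theorem gadG13M_abs {R Q B S : BinaryTree Unit} (hR : Q.numNodes + R.numNodes + 2 = k)
    (hB : Q.numNodes + S.numNodes + B.numNodes + 2 = k)
    {w : ℕ → X k} (hw : ∀ i ∈ ixG13, (w i).1 = w20M R Q B S i)
    (hinj : ∀ i ∈ ixG13, ∀ j ∈ ixG13, w i = w j → i = j)
    (hsep : ∀ i ∈ nwG13, ∀ j ∈ nwG13, TT.SameCycle (w i) (w j) → i = j)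
    (h05 : ¬ TT.SameCycle (w 0) (w 5)) (h45 : ¬ TT.SameCycle (w 4) (w 5))
    (hold : ∀ i ∈ nwG13, ∀ j ∈ odG13, ¬ TT.SameCycle (w i) (w j)) :
    (gadG13M w).Abs := by
  classical
  have n15 : w 1 ≠ w 5 := fun h => absurd (hinj 1 (by decide) 5 (by decide) h) (by decide)
  have n25 : w 2 ≠ w 5 := fun h => absurd (hinj 2 (by decide) 5 (by decide) h) (by decide)
  by_cases h1 : TT.SameCycle (w 1) (w 5)
  · refine gadOfML_abs hR hB okG13Ma CertG13Ma.runG13Ma hw hinj ?_ ?_ hsep hold
    · intro c hc i hi
      simp only [List.mem_cons, List.not_mem_nil, or_false] at hc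
      rcases hc with rfl | rfl | rfl | rfl
      · rw [List.mem_singleton.1 hi]; exact Perm.SameCycle.refl _ _
      · rw [List.mem_singleton.1 hi]; exact Perm.SameCycle.refl _ _
      · simp only [List.mem_cons, List.not_mem_nil, or_false] at hi
        rcases hi with rfl | rfl
        · exact Perm.SameCycle.refl _ _
        · exact h1
      · rw [List.mem_singleton.1 hi]; exact Perm.SameCycle.refl _ _
    · intro c hc
      simp only [List.mem_cons, List.not_mem_nil, or_false] at hc
      rcases hc with rfl | rfl | rfl | rfl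
      · exact fr_one 0
      · exact fr_one 4
      · exact fr_two' n15 h1
      · exact fr_one 2
  · by_cases h2 : TT.SameCycle (w 2) (w 5)
    · refine gadOfML_abs hR hB okG13Mc CertG13Mc.runG13Mc hw hinj ?_ ?_ hsep hold
      · intro c hc i hi
        simp only [List.mem_cons, List.not_mem_nil, or_false] at hc
        rcases hc with rfl | rfl | rfl | rfl
        · rw [List.mem_singleton.1 hi]; exact Perm.SameCycle.refl _ _
        · rw [List.mem_singleton.1 hi]; exact Perm.SameCycle.refl _ _
        · rw [List.mem_singleton.1 hi]; exact Perm.SameCycle.refl _ _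
        · simp only [List.mem_cons, List.not_mem_nil, or_false] at hi
          rcases hi with rfl | rfl
          · exact Perm.SameCycle.refl _ _
          · exact h2
      · intro c hc
        simp only [List.mem_cons, List.not_mem_nil, or_false] at hc
        rcases hc with rfl | rfl | rfl | rfl
        · exact fr_one 0
        · exact fr_one 4
        · exact fr_one 1
        · exact fr_two' n25 h2
    · refine gadOfML_abs hR hB okG13Mb CertG13Mb.runG13Mb hw hinj ?_ ?_ hsep ?_
      · intro c hc i hi
        simp only [List.mem_cons, List.not_mem_nil, or_false] at hc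
        rcases hc with rfl | rfl | rfl | rfl <;>
          (rw [List.mem_singleton.1 hi]; exact Perm.SameCycle.refl _ _)
      · intro c hc
        simp only [List.mem_cons, List.not_mem_nil, or_false] at hc
        rcases hc with rfl | rfl | rfl | rfl
        · exact fr_one 0
        · exact fr_one 4
        · exact fr_one 1
        · exact fr_one 2
      · intro i hi j hj
        rcases List.mem_cons.1 hj with rfl | hj
        · have hi' : i ∈ nwG13 := hi
          simp only [nwG13, List.mem_cons, List.not_mem_nil, or_false] at hi'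
          rcases hi' with rfl | rfl | rfl | rfl
          · exact h05
          · exact h45
          · exact h1
          · exact h2
        · exact hold i hi j hj

end Pool.OddHC
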