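import Pool.Agent.Work.MP_8f87b2_base.Frame

/-!
MP_8f87b2_co: the square of `T` on trees. For `w = a 1 c 0 B` (`a 1` = first maximum, `c 0` = the next return to `0`):
`T w = c' 1 B' 0 a'` (primes = complements) and `T (T w) = B 1 a 0 c`. `sq w = (S, B)` with `S = 1 a 0 c`.
-/

namespace Pool.OddHC

open Finset Equiv BinaryTree

variable {k : ℕ}

namespace Tsq

/-! ### Dyck lists are trees -/

theorem dw_tree : ∀ (n : ℕ) (p : DyckWord), p.semilength ≤ n →
    ∃ t : BinaryTree Unit, wd t = p.toList.map (fun s => decide (s = DyckStep.U)) := by
  intro n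
  induction n with
  | zero =>
    intro p hp
    have h0 : p = 0 := by
      have : p.semilength = 0 := by omega
      rw [← DyckWord.toList_eq_nil, ← List.length_eq_zero_iff, ← DyckWord.two_mul_semilength_eq_length, this]
    subst h0
    exact ⟨.nil, rfl⟩
  | succ n ih =>
    intro p hp
    by_cases h0 : p = 0
    · subst h0
      exact ⟨.nil, rfl⟩
    · obtain ⟨A, hA⟩ := ih p.insidePart (by have := DyckWord.semilength_insidePart_lt h0; omega)
      obtain ⟨B, hB⟩ := ih p.outsidePart (by have := DyckWord.semilength_outsidePart_lt h0; omega)
      refine ⟨A △ B, ?_⟩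
      have h1 := congrArg DyckWord.toList (DyckWord.nest_insidePart_add_outsidePart h0)
      rw [← h1]
      show _ = List.map _ ((([DyckStep.U] ++ p.insidePart.toList ++ [DyckStep.D]) ++ p.outsidePart.toList))
      rw [wd_node, hA, hB]
      simp

/-- a balanced list with nonnegative prefixes is the word of a tree -/
theorem dyck_tree (l : List Bool) (h1 : l.count true = l.count false)
    (h2 : ∀ m, (l.take m).count false ≤ (l.take m).count true) : ∃ t : BinaryTree Unit, wd t = l := by
  let g : Bool → DyckStep := fun b => if b then DyckStep.U else DyckStep.D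
  have cU : ∀ l : List Bool, (l.map g).count DyckStep.U = l.count true := by
    intro l
    induction l with
    | nil => rfl
    | cons a l ih => cases a <;> simp [g, ih]
  have cD : ∀ l : List Bool, (l.map g).count DyckStep.D = l.count false := by
    intro l
    induction l with
    | nil => rfl
    | cons a l ih => cases a <;> simp [g, ih]
  let p : DyckWord := ⟨l.map g, by rw [cU, cD, h1], fun i => by rw [← List.map_take, cU, cD]; exact h2 i⟩
  obtain ⟨t, ht⟩ := dw_tree p.semilength p le_rfl
  refine ⟨t, ?_⟩
  rw [ht]
  show (l.map g).map _ = l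
  rw [List.map_map]
  conv_rhs => rw [← List.map_id l]
  apply List.map_congr_left
  intro b _
  cases b <;> simp [g]

/-! ### Height -/

/-- height -/
def ht : BinaryTree Unit → ℕ
  | .nil => 0
  | .node _ A B => max (ht A + 1) (ht B)

theorem ht_node (A B : BinaryTree Unit) : ht (A △ B) = max (ht A + 1) (ht B) := rfl

theorem ht_app (P Q : BinaryTree Unit) : ht (app P Q) = max (ht P) (ht Q) := by
  induction P with
  | nil => simp [app, ht]
  | node _ A B _ ihB => rw [app, ht_node, ihB, ht_node, max_assoc]

theorem ht_pos {t : BinaryTree Unit} (h : t ≠ .nil) : 0 < ht t := by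
  cases t with
  | nil => exact absurd rfl h
  | node _ A B => rw [ht_node]; omega

/-- the height bounds the prefixes -/
theorem ht_take (t : BinaryTree Unit) : ∀ m : ℕ,
    ((wd t).take m).count true ≤ ((wd t).take m).count false + ht t := by
  induction t with
  | nil => intro m; simp [wd]
  | node _ A B ihA ihB =>
    intro m
    rcases m with _ | m
    · simp
    · rw [wd_node, ht_node, List.take_succ_cons, List.take_append, List.count_cons, List.count_append,
        List.count_cons, List.count_append]
      have h1 := ihA m
      have cA := wd_counts A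
      rcases le_or_gt m (wd A).length with hm | hm
      · have e : m - (wd A).length = 0 := by omega
        rw [e]
        simp only [List.take_zero, List.count_nil]
        simp
        omega
      · obtain ⟨q, hq⟩ : ∃ q, m - (wd A).length = q + 1 := ⟨m - (wd A).length - 1, by omega⟩
        rw [hq, List.take_succ_cons, List.take_of_length_le hm.le, cA.1, cA.2, List.count_cons,
          List.count_cons]
        have h2 := ihB q
        simp
        omega

/-! ### The recursion -/

/-- `sq w = (S, B)`: `w = a 1 c 0 B`, `S = 1 a 0 c` -/
def sq : BinaryTree Unit → BinaryTree Unit × BinaryTree Unit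
  | .nil => (.nil, .nil)
  | .node _ A C =>
    if ht A + 1 < ht C then
      (match (sq C).1 with
        | .nil => .nil
        | .node _ Xx Y => (A △ Xx) △ Y, (sq C).2)
    else (match A with
      | .nil => .nil △ .nil
      | .node u A1 A2 => (sq (.node u A1 A2)).1 △ (sq (.node u A1 A2)).2, C)

theorem sq_node (A C : BinaryTree Unit) : sq (A △ C) = (if ht A + 1 < ht C then
      (match (sq C).1 with
        | .nil => .nil
        | .node _ Xx Y => (A △ Xx) △ Y, (sq C).2)
    else (match A with
      | .nil => .nil △ .nil
      | .node u A1 A2 => (sq (.node u A1 A2)).1 △ (sq (.node u A1 A2)).2, C)) := by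
  cases A <;> rfl

theorem sq_lt {A C : BinaryTree Unit} (h : ht A + 1 < ht C) {Xx Y : BinaryTree Unit}
    (hX : (sq C).1 = Xx △ Y) : sq (A △ C) = ((A △ Xx) △ Y, (sq C).2) := by
  rw [sq_node, if_pos h, hX]

theorem sq_nil {C : BinaryTree Unit} (h : ht C ≤ 1) : sq (.nil △ C) = (.nil △ .nil, C) := by
  have e : sq (.nil △ C) = (if ht (BinaryTree.nil : BinaryTree Unit) + 1 < ht C then
      (match (sq C).1 with
        | .nil => .nil
        | .node _ Xx Y => ((.nil : BinaryTree Unit) △ Xx) △ Y, (sq C).2)
    else ((.nil : BinaryTree Unit) △ .nil, C)) := rfl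
  rw [e, if_neg (by simp [ht]; omega)]

theorem sq_ge {A C : BinaryTree Unit} (hA : A ≠ .nil) (h : ht C ≤ ht A + 1) :
    sq (A △ C) = ((sq A).1 △ (sq A).2, C) := by
  cases A with
  | nil => exact absurd rfl hA
  | node u A1 A2 =>
    rw [sq_node, if_neg (by omega)]

/-- the decomposition `w = a 1 c 0 B` -/
theorem sq_spec : ∀ t : BinaryTree Unit, t ≠ .nil → ∃ a c : List Bool,
    wd t = a ++ true :: (c ++ false :: wd (sq t).2) ∧ wd (sq t).1 = true :: (a ++ false :: c) ∧
    (∀ m, (a.take m).count true + 1 ≤ (a.take m).count false + ht t) ∧
    a.count true + 1 = a.count false + ht t ∧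
    (∀ m, (c.take m).count true ≤ (c.take m).count false) ∧
    c.count false + 1 = c.count true + ht t ∧ ht (sq t).2 ≤ ht t := by
  intro t
  induction t with
  | nil => intro h; exact absurd rfl h
  | node u A C ihA ihC =>
    intro _
    by_cases h : ht A + 1 < ht C
    · have hC : C ≠ .nil := by
        rintro rfl
        simp [ht] at h
      obtain ⟨a, c, h1, h2, h3, h4, h5, h6, h7⟩ := ihC hC
      have hhh : ht (A △ C) = ht C := by rw [ht_node]; omega
      obtain ⟨Xx, Y, hX⟩ : ∃ Xx Y, (sq C).1 = Xx △ Y := by
        cases hS : (sq C).1 with
        | nil => rw [hS] at h2; simp [wd] at h2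
        | node _ Xx Y => exact ⟨Xx, Y, rfl⟩
      have hs := sq_lt h hX
      show ∃ a c : List Bool, wd (A △ C) = a ++ true :: (c ++ false :: wd (sq (A △ C)).2) ∧ _
      refine ⟨true :: (wd A ++ false :: a), c, ?_, ?_, ?_, ?_, h5, ?_, ?_⟩
      · rw [hs, wd_node, h1]; simp
      · show wd (sq (A △ C)).1 = _
        rw [hs]
        rw [hX, wd_node, List.cons.injEq] at h2
        show wd ((A △ Xx) △ Y) = _
        rw [wd_node, wd_node]
        have h2' := h2.2
        simp only [List.cons_append, List.append_assoc, List.cons.injEq, true_and]
        rw [h2']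
      · intro m
        show _ ≤ _ + ht (A △ C)
        rw [hhh]
        rcases m with _ | m
        · simp; omega
        · rw [List.take_succ_cons, List.take_append, List.count_cons, List.count_append,
            List.count_cons, List.count_append]
          have g1 := ht_take A m
          have cA := wd_counts A
          rcases le_or_gt m (wd A).length with hm | hm
          · have e : m - (wd A).length = 0 := by omega
            rw [e]
            simp only [List.take_zero, List.count_nil]
            simp
            omega
          · obtain ⟨q, hq⟩ : ∃ q, m - (wd A).length = q + 1 := ⟨m - (wd A).length - 1, by omega⟩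
            rw [hq, List.take_succ_cons, List.take_of_length_le hm.le, cA.1, cA.2, List.count_cons,
              List.count_cons]
            have g2 := h3 q
            simp
            omega
      · show _ = _ + ht (A △ C)
        rw [hhh]
        have cA := wd_counts A
        simp only [List.count_cons, List.count_append, cA.1, cA.2]
        simp
        omega
      · show _ = _ + ht (A △ C)
        rw [hhh]; exact h6
      · show ht (sq (A △ C)).2 ≤ ht (A △ C)
        rw [hs, hhh]; exact h7
    · push Not at h
      have hhh : ht (A △ C) = ht A + 1 := by rw [ht_node]; omega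
      by_cases hA : A = .nil
      · subst hA
        have hs := sq_nil (C := C) (by simpa [ht] using h)
        refine ⟨[], [], ?_, ?_, ?_, ?_, ?_, ?_, ?_⟩
        · show wd (.nil △ C) = _ ++ true :: (_ ++ false :: wd (sq (.nil △ C)).2)
          rw [hs]; simp [wd]
        · show wd (sq (.nil △ C)).1 = _
          rw [hs]; simp [wd]
        · intro m
          show _ ≤ _ + ht (.nil △ C)
          rw [hhh]; simp [ht]
        · show _ = _ + ht (.nil △ C)
          rw [hhh]; simp [ht]
        · intro m; simp
        · show _ = _ + ht (.nil △ C)
          rw [hhh]; simp [ht]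
        · show ht (sq (.nil △ C)).2 ≤ ht (.nil △ C)
          rw [hs, hhh]; exact h
      · obtain ⟨a, c, h1, h2, h3, h4, h5, h6, h7⟩ := ihA hA
        have hs := sq_ge hA h
        refine ⟨true :: a, c ++ false :: wd (sq A).2, ?_, ?_, ?_, ?_, ?_, ?_, ?_⟩
        · show wd (A △ C) = _ ++ true :: (_ ++ false :: wd (sq (A △ C)).2)
          rw [hs, wd_node, h1]; simp
        · show wd (sq (A △ C)).1 = _
          rw [hs]
          show wd ((sq A).1 △ (sq A).2) = _
          rw [wd_node, h2]; simp
        · intro m
          show _ ≤ _ + ht (A △ C)
          rw [hhh]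
          rcases m with _ | m
          · simp
          · rw [List.take_succ_cons, List.count_cons, List.count_cons]
            have := h3 m
            simp
            omega
        · show _ = _ + ht (A △ C)
          rw [hhh, List.count_cons, List.count_cons]
          simp
          omega
        · intro m
          rw [List.take_append, List.count_append, List.count_append]
          have g1 := h5 m
          rcases le_or_gt m c.length with hm | hm
          · have e : m - c.length = 0 := by omega
            rw [e]
            simp only [List.take_zero, List.count_nil]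
            omega
          · obtain ⟨q, hq⟩ : ∃ q, m - c.length = q + 1 := ⟨m - c.length - 1, by omega⟩
            rw [hq, List.take_succ_cons, List.take_of_length_le hm.le, List.count_cons, List.count_cons]
            have g2 := ht_take (sq A).2 q
            have g3 := ht_pos hA
            simp
            omega
        · show _ = _ + ht (A △ C)
          have cB := wd_counts (sq A).2
          rw [hhh]
          simp only [List.count_append, List.count_cons, cB.1, cB.2]
          simp
          omega
        · show ht (sq (A △ C)).2 ≤ ht (A △ C)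
          rw [hs, hhh]; exact h

/-! ### `T` and its square -/

theorem cw_rot' {k : ℕ} (t : X k) : (cw t.1).rotate (Vo t).val = sl (TF t).1 := by
  have h1 := TF_spec t 0
  rw [zero_add] at h1
  have h2 := rot_of_st (cw_len t) (sl_len (TF t)) h1.symm
  rwa [sub_zero] at h2

/-- `T` by a decomposition -/
theorem TF_of {x : X k} {y : BinaryTree Unit} {a b : List Bool} (hx : wd x.1 = a ++ true :: b)
    (hy : wd y = b.map not ++ false :: a.map not) : (TF x).1 = y := by
  have e1 : cw x.1 = (false :: a.map not) ++ (false :: b.map not) := by
    unfold cw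
    rw [hx]
    simp
  have e2 : (cw x.1).rotate (a.length + 1) = sl y := by
    have : a.length + 1 = (false :: a.map not).length := by simp
    rw [e1, this, List.rotate_append_length_eq]
    unfold sl
    rw [hy]
    simp
  have e3 := cw_rot' x
  have hlen : (cw x.1).length = 2 * k + 1 := cw_len x
  have hlt : (Vo x).val < 2 * k + 1 := ZMod.val_lt _
  -- the second list is a rotation of the first
  have e4 : (sl y).rotate ((Vo x).val + (2 * k + 1) - (a.length + 1)) = sl (TF x).1 := by
    have ha : a.length + 1 ≤ 2 * k + 1 := by
      have h1 := congrArg List.length e1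
      rw [hlen] at h1
      simp at h1
      omega
    have key : ∀ v : ℕ, (cw x.1).rotate (v + (2 * k + 1)) = (cw x.1).rotate v := by
      intro v
      rw [← List.rotate_mod _ (v + (2 * k + 1)), hlen, Nat.add_mod_right, ← hlen, List.rotate_mod]
    rw [← e2, List.rotate_rotate, ← e3, ← key (Vo x).val]
    congr 1
    omega
  have hly : (sl y).length = 2 * k + 1 := by rw [← e2, List.length_rotate, hlen]
  rw [← List.rotate_mod, hly] at e4
  have e5 := sl_rotate (t := y) (t' := (TF x).1) (by rw [hly]; exact Nat.mod_lt _ (by omega)) e4
  exact e5.2.symm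

theorem count_not_true (l : List Bool) : (l.map not).count true = l.count false := count_not l

theorem count_not_false (l : List Bool) : (l.map not).count false = l.count true := by
  induction l with
  | nil => rfl
  | cons a l ih =>
    rw [List.map_cons, List.count_cons, List.count_cons, ih]
    cases a <;> rfl

/-- `T w = c' 1 B' 0 a'` is the word of a tree -/
theorem T_tree {a c : List Bool} {B : BinaryTree Unit} {h : ℕ}
    (h3 : ∀ m, (a.take m).count true + 1 ≤ (a.take m).count false + h)
    (h4 : a.count true + 1 = a.count false + h)
    (h5 : ∀ m, (c.take m).count true ≤ (c.take m).count false)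
    (h6 : c.count false + 1 = c.count true + h) (h7 : ht B ≤ h) :
    ∃ t : BinaryTree Unit, wd t = c.map not ++ true :: ((wd B).map not ++ false :: a.map not) := by
  have cB := wd_counts B
  apply dyck_tree
  · simp only [List.count_append, List.count_cons, count_not_true, count_not_false, cB.1, cB.2]
    simp
    omega
  · intro m
    rw [List.take_append, List.count_append, List.count_append, ← List.map_take, count_not_true,
      count_not_false, List.length_map]
    have g1 := h5 m
    rcases le_or_gt m c.length with hm | hm
    · have e : m - c.length = 0 := by omega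
      rw [e]
      simp only [List.take_zero, List.count_nil]
      omega
    · obtain ⟨q, hq⟩ : ∃ q, m - c.length = q + 1 := ⟨m - c.length - 1, by omega⟩
      rw [hq, List.take_succ_cons, List.take_of_length_le hm.le, List.count_cons, List.count_cons,
        List.take_append, List.count_append, List.count_append, ← List.map_take, count_not_true,
        count_not_false, List.length_map]
      have g2 := ht_take B q
      rcases le_or_gt q (wd B).length with hq2 | hq2
      · have e : q - (wd B).length = 0 := by omega
        rw [e]
        simp only [List.take_zero, List.count_nil]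
        simp
        omega
      · obtain ⟨r, hr⟩ : ∃ r, q - (wd B).length = r + 1 := ⟨q - (wd B).length - 1, by omega⟩
        rw [hr, List.take_succ_cons, List.take_of_length_le hq2.le, cB.1, cB.2, List.count_cons,
          List.count_cons, ← List.map_take, count_not_true, count_not_false]
        have g3 := h3 r
        simp
        omega

/-- THE SQUARE OF `T` -/
theorem TT_sq (x : X k) (hx : x.1 ≠ .nil) : (TT (TT x)).1 = app (sq x.1).2 (sq x.1).1 := by
  obtain ⟨a, c, h1, h2, h3, h4, h5, h6, h7⟩ := sq_spec x.1 hx
  obtain ⟨t, ht⟩ := T_tree h3 h4 h5 h6 h7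
  have e1 : (TF x).1 = t := TF_of h1 (by rw [ht]; simp)
  have e2 : (TF (TF x)).1 = app (sq x.1).2 (sq x.1).1 := by
    apply TF_of (a := c.map not) (b := (wd (sq x.1).2).map not ++ false :: a.map not)
    · rw [e1, ht]
    · rw [wd_app, h2]
      simp [Function.comp_def]
  exact e2

/-! ### Links -/

theorem app_nil (P : BinaryTree Unit) : app P .nil = P := by
  apply wd_ext
  rw [wd_app]
  simp [wd]

theorem app_assoc (P Q R : BinaryTree Unit) : app (app P Q) R = app P (app Q R) := by
  apply wd_ext
  simp only [wd_app, List.append_assoc]

theorem app_ne_nil {P Q : BinaryTree Unit} (h : P ≠ .nil) : app P Q ≠ .nil := by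
  cases P with
  | nil => exact absurd rfl h
  | node _ A B => intro h2; simp [app] at h2

/-- `R Z` with `Z` not higher: `sq (R Z) = (S, B Z)` -/
theorem sq_app : ∀ (R Z : BinaryTree Unit), R ≠ .nil → ht Z ≤ ht R →
    sq (app R Z) = ((sq R).1, app (sq R).2 Z) := by
  intro R
  induction R with
  | nil => intro Z h; exact absurd rfl h
  | node u A C ihA ihC =>
    intro Z _ hZ
    show sq (A △ (app C Z)) = ((sq (A △ C)).1, app (sq (A △ C)).2 Z)
    have hZ' : ht Z ≤ max (ht A + 1) (ht C) := hZ
    by_cases h : ht A + 1 < ht C
    · have hC : C ≠ .nil := by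
        rintro rfl
        simp [ht] at h
      have h1 := ihC Z hC (by omega)
      obtain ⟨a, c, _, h2, _⟩ := sq_spec C hC
      obtain ⟨Xx, Y, hX⟩ : ∃ Xx Y, (sq C).1 = Xx △ Y := by
        cases hS : (sq C).1 with
        | nil => rw [hS] at h2; simp [wd] at h2
        | node _ Xx Y => exact ⟨Xx, Y, rfl⟩
      rw [sq_lt h hX]
      have h' : ht A + 1 < ht (app C Z) := by rw [ht_app]; omega
      rw [sq_lt h' (by rw [h1]; exact hX), h1]
    · push Not at h
      have h' : ht (app C Z) ≤ ht A + 1 := by rw [ht_app]; omega
      by_cases hA : A = .nil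
      · subst hA
        rw [sq_nil (C := app C Z) (by simpa [ht] using h'), sq_nil (C := C) (by simpa [ht] using h)]
      · rw [sq_ge hA h, sq_ge hA h']

/-- `(R) Z` with `Z` at most one higher than `R`: `sq ((R) Z) = ((S) B, Z)` -/
theorem sq_wrap {R Z : BinaryTree Unit} (hR : R ≠ .nil) (h : ht Z ≤ ht R + 1) :
    sq (R △ Z) = ((sq R).1 △ (sq R).2, Z) := sq_ge hR h

/-- prefix inside the first component -/
def pre (Q : BinaryTree Unit) : BinaryTree Unit → BinaryTree Unit
  | .nil => .nil
  | .node _ Xx Y => (app Q Xx) △ Y

/-- `Q R` with all of `Q` lower than `R`: `sq (Q R) = (pre Q S, B)` -/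
theorem sq_pre : ∀ (Q R : BinaryTree Unit), ht Q < ht R →
    sq (app Q R) = (pre Q (sq R).1, (sq R).2) := by
  intro Q
  induction Q with
  | nil =>
    intro R hR
    have hR' : R ≠ .nil := by
      rintro rfl
      simp [ht] at hR
    obtain ⟨a, c, _, h2, _⟩ := sq_spec R hR'
    show sq R = _
    cases hS : (sq R).1 with
    | nil => rw [hS] at h2; simp [wd] at h2
    | node u Xx Y =>
      show sq R = ((app .nil Xx) △ Y, (sq R).2)
      rw [← Prod.mk.eta (p := sq R), hS]
      rfl
  | node u A C ihA ihC =>
    intro R hR
    rw [show ht (BinaryTree.node u A C) = max (ht A + 1) (ht C) from rfl] at hR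
    have hR' : R ≠ .nil := by
      rintro rfl
      simp [ht] at hR
    have h1 := ihC R (by omega)
    obtain ⟨a, c, _, h2, _⟩ := sq_spec R hR'
    show sq (A △ (app C R)) = (pre (A △ C) (sq R).1, (sq R).2)
    obtain ⟨Xx, Y, hX⟩ : ∃ Xx Y, (sq R).1 = Xx △ Y := by
      cases hS : (sq R).1 with
      | nil => rw [hS] at h2; simp [wd] at h2
      | node _ Xx Y => exact ⟨Xx, Y, rfl⟩
    have h' : ht A + 1 < ht (app C R) := by rw [ht_app]; omega
    rw [hX] at h1 ⊢
    rw [sq_lt h' (by rw [h1]; rfl), h1]
    rfl

theorem sq_ne {R : BinaryTree Unit} (hR : R ≠ .nil) : (sq R).1 ≠ .nil := by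
  obtain ⟨a, c, _, h2, _⟩ := sq_spec R hR
  intro h
  rw [h] at h2
  simp [wd] at h2

/-- the sizes -/
theorem sq_num {R : BinaryTree Unit} (hR : R ≠ .nil) :
    (sq R).1.numNodes + (sq R).2.numNodes = R.numNodes := by
  obtain ⟨a, c, h1, h2, _⟩ := sq_spec R hR
  have e1 := congrArg List.length h1
  have e2 := congrArg List.length h2
  rw [wd_length] at e1 e2
  simp only [List.length_append, List.length_cons, wd_length] at e1 e2
  omega

/-- the heights: `ht S = ht R`, `ht B <= ht R` -/
theorem ht_sq {R : BinaryTree Unit} (hR : R ≠ .nil) : ht (sq R).1 = ht R ∧ ht (sq R).2 ≤ ht R := by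
  have key : ∀ t : BinaryTree Unit, t ≠ .nil → ht (sq t).1 = ht t := by
    intro t
    induction t with
    | nil => intro h; exact absurd rfl h
    | node u A C ihA ihC =>
      intro _
      show ht (sq (A △ C)).1 = ht (A △ C)
      by_cases h : ht A + 1 < ht C
      · have hC : C ≠ .nil := by
          rintro rfl
          simp [ht] at h
        have h1 := ihC hC
        obtain ⟨Xx, Y, hX⟩ : ∃ Xx Y, (sq C).1 = Xx △ Y := by
          cases hS : (sq C).1 with
          | nil => exact absurd hS (sq_ne hC)
          | node _ Xx Y => exact ⟨Xx, Y, rfl⟩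
        rw [sq_lt h hX]
        rw [hX, ht_node] at h1
        show ht ((A △ Xx) △ Y) = _
        rw [ht_node, ht_node, ht_node]
        omega
      · push Not at h
        by_cases hA : A = .nil
        · subst hA
          rw [sq_nil (by simpa [ht] using h)]
          show ht (.nil △ .nil) = _
          rw [ht_node, ht_node]
          have : ht .nil = 0 := rfl
          omega
        · rw [sq_ge hA h]
          show ht ((sq A).1 △ (sq A).2) = _
          have h1 := ihA hA
          obtain ⟨a, c, _, _, _, _, _, _, h7⟩ := sq_spec A hA
          rw [ht_node, ht_node]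
          omega
  obtain ⟨a, c, _, _, _, _, _, _, h7⟩ := sq_spec R hR
  exact ⟨key R hR, h7⟩

end Tsq

end Pool.OddHC
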