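import Pool.Agent.Work.MP_8f87b2_h35.Abs

/-!
MP_8f87b2_co: certificate of GadB0xM (mirror).
-/

set_option autoImplicit false

namespace Pool.OddHC.CertB0xM

/-- arcs, base 32 digits (31 = no arc) -/
def A : Nat := 1266798544792035049999215624191

/-- masks of the allowed images -/
def al : List Nat := [73, 266, 134, 524, 19, 37, 608, 176, 336, 896, 74752, 272384, 137216, 536576, 19456, 37888, 622592, 180224, 344064, 917504]

/-- new words -/
def F_0 : Nat := 265223

/-- successors on the new T-cycles -/
def Z_0 : Nat := 1231750339087837606716947548522

/-- first word of the lists -/
def x0_0 : Nat := 4

/-- a new word -/
def z0_0 : Nat := 0

/-- number of new words -/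
def cF_0 : Nat := 6

/-- the code -/
def code_0 : List Nat := [
  14, 8, 12, 3, 775628046757751179868402418947, 3, 13, 17, 9, 15, 6, 770676281840452310344837204006, 6,
  775550486579511025890748335363, 6, 770676281840452312543864653856, 6, 775550486579511025890748335363, 6,
  775550562174264862252770329859, 9, 770676281840452310341617223776, 9, 15, 6, 16,
  775510662899857819037677454432, 775510662899857816838650004582, 775510662899857816838650004582,
  775626648937279005852860220675, 775626648937279005852860220675, 775510662899857819037677454432, 6, 16,
  775510662899857819037677454432, 775510662899857819037677454432, 775510662899857816838650004582,
  775626648937279005852860220675, 775626648937279005852860220675, 775510662899857819037677454432, 6,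
  770676281840452310344837204006, 6, 775550486579511025890748335363, 6, 5, 770598798475600647593486747683,
  770598798475600647593486747683, 770676281840452349922797258790, 770676281840452349922797258790,
  770598722880846811231464753187, 770598798475600647593486747683, 9, 770676281840452310341616175139,
  770676281840452349924038772768, 17, 9, 770676281840452310341617223776, 9, 7, 19,
  731062202023135614298352583939, 731062202023135614298352583939, 731062202023135614298352583939,
  731062202023135614298352583939, 5, 15, 6, 770598798475600647593486747683, 6,
  775550486579510959851234952288, 6, 770676281840452277251947661571, 6, 770676281840452277251947661571, 6,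
  770676281840452277251947661571, 6, 770598798475600647593486747683, 6, 770598798475600647593486747683, 6,
  770598798475600647593486747683, 770676281840452279486407542819, 775511985125576123633807688800,
  770676281840452279486407542819, 770676281840452349855218637856, 770676281840452349855218637856, 15, 6,
  775550486579510959851234952288, 6, 775511986306236455035012717670, 6, 775628046757751144618365361254, 6,
  775550562174264827002733272166, 6, 770598798475600647593486747683, 6, 770598798475600647593486747683, 6,
  770598798475600647593486747683, 6, 775550486579510959851234952288, 731062200842475313686623880451,
  770676281840452349820956384352, 770676281840452279452212430944, 770676281840452279452212430944,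
  770676281840452279452211382307, 9, 775511986306236490285049775363, 9, 770676281840452310341617223776]

theorem runB0xM : Pool.OddHC.Abs.run A F_0 Z_0 x0_0 z0_0 cF_0 al code_0 [[x0_0]] = true := by
  decide +kernel

end Pool.OddHC.CertB0xM
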