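import Pool.Agent.Work.MP_8f87b2_h35.Abs

/-!
MP_8f87b2_co: certificate for the MIRROR gadget J2M merged with an E pair (19 words, all but 9): new T-cycles {0, 10}, {4},
{1, 5, 11} (cyclic order 1, 5, 11), {2}; arcs 12 -> 3, 15 -> 6, 14 -> 8
-/

set_option autoImplicit false

namespace Pool.OddHC.CertJ2Y

/-- arcs, base 32 digits (31 = no arc) -/
def A : Nat := 39614050892782617154319024127

/-- masks of the allowed images -/
def al : List Nat := [73, 266, 134, 12, 19, 37, 96, 176, 336, 37376, 136192, 68608, 268288, 9728, 18944, 311296, 90112, 172032, 458752]

/-- new words -/
def F_0 : Nat := 1591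

/-- successors on the new T-cycles -/
def Z_0 : Nat := 39614081257097301083298957481

/-- first word of the lists -/
def x0_0 : Nat := 15

/-- a new word -/
def z0_0 : Nat := 0

/-- number of new words -/
def cF_0 : Nat := 7

/-- the code -/
def code_0 : List Nat := [
  14, 6, 13, 8, 7, 22960459190350219386519919872, 22960459190350219386519919872,
  22960459190350217222930144512, 8, 7, 22960459190350217222930144512, 11, 3, 22960459190350221586717547616,
  3, 22960502872239972660848696579, 3, 17, 22805718899020690399830285408, 22883090299049768150454311971,
  22805718899020690399830285408, 22805718899020690399830285408, 22883090299049768150454311971, 3,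
  22960502872239972660848696579, 11, 3, 22960459190350221586717547616, 3, 22960502872239977023461727334, 3,
  22960502872239972660848696579, 3, 17, 22805718899020690399830285408, 22805718899020690399830285408,
  22805718899020688199632657664, 22805718899020690399830285408, 22805718899020690399830285408]

theorem runJ2Y : Pool.OddHC.Abs.run A F_0 Z_0 x0_0 z0_0 cF_0 al code_0 [[x0_0]] = true := by
  decide +kernel

end Pool.OddHC.CertJ2Y
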