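import Pool.Agent.Work.MP_8f87b2_h35.Abs

/-!
MP_8f87b2_co: certificate for the MIRROR gadget J2M merged with an E pair (19 words, all but 9): new T-cycles {0, 10}, {4},
{1, 11, 5} (cyclic order 1, 11, 5), {2}; arcs 12 -> 3, 15 -> 6, 14 -> 8
-/

set_option autoImplicit false

namespace Pool.OddHC.CertJ2Z

/-- arcs, base 32 digits (31 = no arc) -/
def A : Nat := 39614050892782617154319024127

/-- masks of the allowed images -/
def al : List Nat := [73, 266, 134, 12, 19, 37, 96, 176, 336, 37376, 136192, 68608, 268288, 9728, 18944, 311296, 90112, 172032, 458752]

/-- new words -/
def F_0 : Nat := 1591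

/-- successors on the new T-cycles -/
def Z_0 : Nat := 39614081257101804682624338249

/-- first word of the lists -/
def x0_0 : Nat := 7

/-- a new word -/
def z0_0 : Nat := 0

/-- number of new words -/
def cF_0 : Nat := 7

/-- the code -/
def code_0 : List Nat := [
  11, 3, 14, 6, 22960502872239977023461727334, 6, 12, 13, 8, 22960502872239972660848696579, 8,
  22960502872239972660848696579, 8, 17, 22805760256656721347430390819, 22805760256656721347430390819,
  22805760218574384156534441219, 22805760256656717051288716550, 22805760218574388450327370790, 8, 17,
  22805760256656721347430390819, 22805760256656721347430390819, 22805760218574384156534441219,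
  22805760218574384156534441219, 22805760256656717051288716550, 22960502871053278522890066979,
  22960502871053278522890066979]

theorem runJ2Z : Pool.OddHC.Abs.run A F_0 Z_0 x0_0 z0_0 cF_0 al code_0 [[x0_0]] = true := by
  decide +kernel

end Pool.OddHC.CertJ2Z
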