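import Pool.Agent.Work.MP_8f87b2_h35.Abs

/-!
MP_8f87b2_co: certificate for helper40's RIGHT gadget J4 (10 words 0, 1, 2, 4, 5, 6, 8, 11, 14, 18): new T-cycles {0}, {4},
{1, 11, 5} (cyclic order 1, 11, 5), {2, 18}; arc 8 -> 14
-/

set_option autoImplicit false

namespace Pool.OddHC.CertJ4

/-- arcs, base 32 digits (31 = no arc) -/
def A : Nat := 1125875210780671

/-- masks of the allowed images -/
def al : List Nat := [25, 14, 20, 72, 48, 97, 66, 384, 768, 640]

/-- new words -/
def F_0 : Nat := 671

/-- successors on the new T-cycles -/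
def Z_0 : Nat := 104625370932448

/-- first word of the lists -/
def x0_0 : Nat := 5

/-- a new word -/
def z0_0 : Nat := 0

/-- number of new words -/
def cF_0 : Nat := 7

/-- the code -/
def code_0 : List Nat := [
  6, 8, 256462166364227]

theorem runJ4 : Pool.OddHC.Abs.run A F_0 Z_0 x0_0 z0_0 cF_0 al code_0 [[x0_0]] = true := by
  decide +kernel

end Pool.OddHC.CertJ4
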