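import Pool.Agent.Work.MP_8f87b2_h35.Abs

/-!
MP_8f87b2_co: certificate of GadKE (right).
-/

set_option autoImplicit false

namespace Pool.OddHC.CertKE

/-- arcs, base 32 digits (31 = no arc) -/
def A : Nat := 36892819644348727295

/-- masks of the allowed images -/
def al : List Nat := [49, 22, 44, 11, 400, 224, 321, 644, 770, 584, 3072, 6144, 5120]

/-- new words -/
def F_0 : Nat := 2401

/-- successors on the new T-cycles -/
def Z_0 : Nat := 35992742910830313440

/-- first word of the lists -/
def x0_0 : Nat := 1

/-- a new word -/
def z0_0 : Nat := 0

/-- number of new words -/
def cF_0 : Nat := 5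

/-- the code -/
def code_0 : List Nat := [
  9, 12, 3, 10, 4, 11974061198720141445, 11974263508859717765, 2, 14242951821147608132,
  14242951821147608132, 14242951821147608132, 7, 14242951657937702021, 11974166580071339044,
  14242854892359226404, 14242854900944866341, 14242846336784372804, 10, 4, 11974061198720141445,
  11974263508859717765, 2, 14242951821147608132, 14242951821147608132, 14242951821147608132, 7,
  14242951657937702021, 14242854892359226404, 14242854892359226404, 14242749347798193188,
  14242846336784372804]

theorem runKE : Pool.OddHC.Abs.run A F_0 Z_0 x0_0 z0_0 cF_0 al code_0 [[x0_0]] = true := by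
  decide +kernel

end Pool.OddHC.CertKE
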