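import Pool.Agent.Work.MP_8f87b2_h35.Abs

/-!
MP_8f87b2_co: certificate of GadKEM (mirror).
-/

set_option autoImplicit false

namespace Pool.OddHC.CertKEM

/-- arcs, base 32 digits (31 = no arc) -/
def A : Nat := 11497689848676876287

/-- masks of the allowed images -/
def al : List Nat := [73, 266, 134, 524, 19, 37, 608, 176, 336, 896, 5120, 3072, 6144]

/-- new words -/
def F_0 : Nat := 2401

/-- successors on the new T-cycles -/
def Z_0 : Nat := 35992742910830313440

/-- first word of the lists -/
def x0_0 : Nat := 1

/-- a new word -/
def z0_0 : Nat := 0

/-- number of new words -/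
def cF_0 : Nat := 5

/-- the code -/
def code_0 : List Nat := [
  12, 9, 10, 3, 4, 2, 7, 13056186186640689411, 14242922075072306211, 14242922075072306211,
  14242922036480744483, 13056256555384642819, 14242919940536697958, 14242957323868898563,
  14242957323868898563, 13056221438658512998, 13056221438658512998, 3, 4, 2, 7, 13056186186640689411,
  14242922075072306211, 14242922075072306211, 14242922075072306211, 14242957220786543875,
  14242955124908590342, 13056258822056772867, 14242957323868898563, 13056256623030405382,
  13056221438658512998]

theorem runKEM : Pool.OddHC.Abs.run A F_0 Z_0 x0_0 z0_0 cF_0 al code_0 [[x0_0]] = true := by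
  decide +kernel

end Pool.OddHC.CertKEM
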