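import Pool.Agent.Work.MP_8f87b2_h35.Abs

/-!
MP_8f87b2_co: certificate of GadLA (right).
-/

set_option autoImplicit false

namespace Pool.OddHC.CertLA

/-- arcs, base 32 digits (31 = no arc) -/
def A : Nat := 1267650600228229382787825040767

/-- masks of the allowed images -/
def al : List Nat := [49, 22, 44, 11, 400, 224, 321, 644, 770, 584, 50176, 22528, 45056, 11264, 409600, 229376, 328704, 659456, 788480, 598016]

/-- new words -/
def F_0 : Nat := 132609

/-- successors on the new T-cycles -/
def Z_0 : Nat := 1266799516451185307079388692458

/-- first word of the lists -/
def x0_0 : Nat := 4

/-- a new word -/
def z0_0 : Nat := 0

/-- number of new words -/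
def cF_0 : Nat := 4

/-- the code -/
def code_0 : List Nat := [
  6, 15, 8, 14, 775628046757751079806410262564, 14, 16, 775620830981770884496643688480, 19,
  656855924225671692120131471392, 656855924225671692120131471392, 13, 538021005914602398724602824736, 1, 11,
  3, 12, 775434622058864666412710987808, 12, 775434622058864666412710987808, 12,
  775434622058864666412710987808, 12, 775427406319881332026490488868, 12, 656855996169163655788915427360,
  12, 538013718162914865702978553888, 12, 775434622058864666412710987808, 11, 18,
  766962471205227987142818498596, 3, 12, 775434622058864666412710987808, 12, 775434622058864666412710987808,
  12, 775434622058864666412710987808, 12, 775434622058864666412710987808, 12,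
  538990530188233969131703076896, 12, 657832736178392769555643598880, 12, 529357809257580632664663230496,
  12, 775434622058864666412710987808, 539174288126950844956774860832, 529355430362079306061011060768,
  648190420689238589118536058912, 529357809254195051644787460128, 529357809254195043948210260096, 11,
  538020933898512401366029273216, 11, 656855924225671684423554271360, 11, 538013718159529284683102783520,
  11, 538013718159529276986525583488, 3, 12, 775434622058864666412710987808, 12,
  775434622058864666412710987808, 12, 775434622058864666412710987808, 12, 1, 11, 18,
  657823141623277506605451675680, 657823141623277506605451675680, 766962471205227987142818498596,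
  766962471205227987142818498596, 766962471205227987142818498596, 766962471205227987142818498596,
  766962471205227987142818498596, 657823141623277506605451675680, 11, 538013718162914858006401353856, 11,
  656855924225671684423554271360, 11, 775434622058864658716133787776, 11, 656855924225671684423554271360,
  11, 538013718162914865702978553888, 11, 775628046685152948266523953188, 12, 1, 11,
  656855924153073666126919075872, 11, 656855924153073666126919075872, 11, 656855924225671684423554271360,
  11, 775434622058864658716133787776, 11, 775434622058864658716133787776, 11,
  656855924153073658430341875840, 11, 775628046685152948266523953188, 12, 775434622058864666412710987808,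
  538020933898512409062606473248, 538021005914602398724602824736, 656855924225671692120131471392,
  775620830981770884496643688480]

theorem runLA : Pool.OddHC.Abs.run A F_0 Z_0 x0_0 z0_0 cF_0 al code_0 [[x0_0]] = true := by
  decide +kernel

end Pool.OddHC.CertLA
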