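import Pool.Agent.Work.MP_8f87b2_h35.Abs

/-!
MP_8f87b2_co: certificate of GadLAM (mirror).
-/

set_option autoImplicit false

namespace Pool.OddHC.CertLAM

/-- arcs, base 32 digits (31 = no arc) -/
def A : Nat := 1267649628567962885027639853055

/-- masks of the allowed images -/
def al : List Nat := [73, 266, 134, 524, 19, 37, 608, 176, 336, 896, 74752, 272384, 137216, 536576, 19456, 37888, 622592, 180224, 344064, 917504]

/-- new words -/
def F_0 : Nat := 132609

/-- successors on the new T-cycles -/
def Z_0 : Nat := 1266799516451185307079388692458

/-- first word of the lists -/
def x0_0 : Nat := 4

/-- a new word -/
def z0_0 : Nat := 0

/-- number of new words -/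
def cF_0 : Nat := 4

/-- the code -/
def code_0 : List Nat := [
  15, 6, 14, 8, 16, 775626648937278972870736840736, 19, 696287449419902958689457375264, 13,
  696322324317736502204154611744, 696322324317736502204154611744, 12, 3, 775628046757751144684030560291, 3,
  11, 1, 775628046719776792626042538019, 1, 775511985125576154488950261856, 1,
  775511985125576189673322154240, 1, 775511985125576189673322154240, 1, 696287449419902919107035826272, 1,
  696325950835863442848896616480, 1, 696287449381928606631469352992, 3, 11, 1,
  775628046719776792626042538019, 1, 775511985125576154488950261856, 1, 775511985125576154488950261856, 1,
  775511985125576189673322154240, 1, 696287449419902954291407718656, 1, 696282500600108971877169465600, 1,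
  18, 730984716258989000469042530336, 693806620521714982010795165728, 730984716258989000469042530336,
  733464152021266944829752969248, 730984716258989000469042530336, 730984716258989000469042530336,
  730984716258989000469042530336, 730984716258989000469042530336, 3, 775511985125576194071371810848, 3,
  775511985125576194071371810848, 3, 775511985125576194071371810848, 11, 1, 696282426223989788184864196864,
  1, 696282426223989792582913853472, 1, 696283822863801661588677691648, 1, 696283822863801661588677691648,
  1, 18, 693806546145595793920440240384, 693806546145595798318489896992, 691370560619072320531456952352,
  691370560619072320531456952352, 731060804202663407300687005728, 12, 3, 775628046757751144684030560291, 3,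
  693806620521714982010795165728, 3, 733464152021266944829752969248, 3, 730984716258989000469042530336, 3,
  775511985125576194071371810848, 3, 775511985125576154488950261856, 3, 775511985125576154488950261856, 3,
  775511985125576154488950261856, 770676283059086963014553929766, 1, 12, 3, 775628046757751144684030560291,
  3, 696282500600108976275219122208, 3, 696325950835863442848896616480, 3, 775510588485764281085135718435,
  3, 775511985125576194071371810848, 3, 775511985125576194071371810848, 3, 775511985125576194071371810848,
  696322324317736502204154611744, 696325950873837794906884638752, 696287449419902958689457375264,
  775626648937278972870736840736, 8, 775628046757751144687251589158]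

theorem runLAM : Pool.OddHC.Abs.run A F_0 Z_0 x0_0 z0_0 cF_0 al code_0 [[x0_0]] = true := by
  decide +kernel

end Pool.OddHC.CertLAM
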