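import Pool.Agent.Work.MP_8f87b2_h35.Abs

/-!
MP_8f87b2_co: certificate of GadLB (right), 13 old.
-/

set_option autoImplicit false

namespace Pool.OddHC.CertLB1

/-- arcs, base 32 digits (31 = no arc) -/
def A : Nat := 1267650600228228890206615797119

/-- masks of the allowed images -/
def al : List Nat := [49, 22, 44, 11, 400, 224, 321, 644, 770, 584, 50176, 22528, 45056, 11264, 409600, 229376, 328704, 659456, 788480, 598016]

/-- new words -/
def F_0 : Nat := 525313

/-- successors on the new T-cycles -/
def Z_0 : Nat := 792281625142608473038327381994

/-- first word of the lists -/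
def x0_0 : Nat := 13

/-- a new word -/
def z0_0 : Nat := 0

/-- number of new words -/
def cF_0 : Nat := 3

/-- the code -/
def code_0 : List Nat := [
  9, 17, 6, 15, 538021005914602398724602824736, 15, 8, 14, 538020933898512409062606473248, 14,
  538020933898512304611149318176, 14, 538021005914602294273145669664]

theorem runLB1 : Pool.OddHC.Abs.run A F_0 Z_0 x0_0 z0_0 cF_0 al code_0 [[x0_0]] = true := by
  decide +kernel

end Pool.OddHC.CertLB1
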