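import Pool.Agent.Work.MP_8f87b2_h35.Abs

/-!
MP_8f87b2_co: certificate of GadLBM (mirror), 13 old.
-/

set_option autoImplicit false

namespace Pool.OddHC.CertLB1M

/-- arcs, base 32 digits (31 = no arc) -/
def A : Nat := 1266798544790954186088646705151

/-- masks of the allowed images -/
def al : List Nat := [73, 266, 134, 524, 19, 37, 608, 176, 336, 896, 74752, 272384, 137216, 536576, 19456, 37888, 622592, 180224, 344064, 917504]

/-- new words -/
def F_0 : Nat := 525313

/-- successors on the new T-cycles -/
def Z_0 : Nat := 792281625142608473038327381994

/-- first word of the lists -/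
def x0_0 : Nat := 13

/-- a new word -/
def z0_0 : Nat := 0

/-- number of new words -/
def cF_0 : Nat := 3

/-- the code -/
def code_0 : List Nat := [
  17, 9, 15, 6, 14, 8, 696322324317736464823980492832, 8, 696283822863801628606553229344, 8,
  696283822863801665986727348256, 6, 696322324317736502204154611744]

theorem runLB1M : Pool.OddHC.Abs.run A F_0 Z_0 x0_0 z0_0 cF_0 al code_0 [[x0_0]] = true := by
  decide +kernel

end Pool.OddHC.CertLB1M
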