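import Pool.Agent.Work.MP_8f87b2_h35.Abs

/-!
MP_8f87b2_co: certificate of GadLB (right), 13 on the T-cycle of 19.
-/

set_option autoImplicit false

namespace Pool.OddHC.CertLB2

/-- arcs, base 32 digits (31 = no arc) -/
def A : Nat := 1267650600228228890206615797119

/-- masks of the allowed images -/
def al : List Nat := [49, 22, 44, 11, 400, 224, 321, 644, 770, 584, 50176, 22528, 45056, 11264, 409600, 229376, 328704, 659456, 788480, 598016]

/-- new words -/
def F_0 : Nat := 533505

/-- successors on the new T-cycles -/
def Z_0 : Nat := 554597137157093602488666292202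

/-- first word of the lists -/
def x0_0 : Nat := 16

/-- a new word -/
def z0_0 : Nat := 0

/-- number of new words -/
def cF_0 : Nat := 4

/-- the code -/
def code_0 : List Nat := [
  6, 15, 9, 17, 8, 14, 656855924225671692120131471392, 14, 656855924225671587668674316320, 14,
  656855996241761577330670667808, 17, 656855996241761681782127822880]

theorem runLB2 : Pool.OddHC.Abs.run A F_0 Z_0 x0_0 z0_0 cF_0 al code_0 [[x0_0]] = true := by
  decide +kernel

end Pool.OddHC.CertLB2
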