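import Pool.Agent.Work.MP_8f87b2_h35.Abs

/-!
MP_8f87b2_co: certificate of GadLBM (mirror), 13 on the T-cycle of 19.
-/

set_option autoImplicit false

namespace Pool.OddHC.CertLB2M

/-- arcs, base 32 digits (31 = no arc) -/
def A : Nat := 1266798544790954186088646705151

/-- masks of the allowed images -/
def al : List Nat := [73, 266, 134, 524, 19, 37, 608, 176, 336, 896, 74752, 272384, 137216, 536576, 19456, 37888, 622592, 180224, 344064, 917504]

/-- new words -/
def F_0 : Nat := 533505

/-- successors on the new T-cycles -/
def Z_0 : Nat := 554597137157093602488666292202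

/-- first word of the lists -/
def x0_0 : Nat := 16

/-- a new word -/
def z0_0 : Nat := 0

/-- number of new words -/
def cF_0 : Nat := 4

/-- the code -/
def code_0 : List Nat := [
  15, 6, 17, 9, 696325950873837794906884638752, 9, 14, 8, 696325950873837757526710519840, 8,
  696287449419902921309283256352, 8, 696287449419902958689457375264]

theorem runLB2M : Pool.OddHC.Abs.run A F_0 Z_0 x0_0 z0_0 cF_0 al code_0 [[x0_0]] = true := by
  decide +kernel

end Pool.OddHC.CertLB2M
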