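import Pool.Agent.Work.MP_8f87b2_h35.Abs

/-!
MP_8f87b2_co: certificate of GadLC (right).
-/

set_option autoImplicit false

namespace Pool.OddHC.CertLC

/-- arcs, base 32 digits (31 = no arc) -/
def A : Nat := 39614081257132150087893810559

/-- masks of the allowed images -/
def al : List Nat := [49, 22, 44, 11, 400, 224, 321, 644, 770, 584, 50176, 22528, 45056, 11264, 409600, 229376, 328704, 135168, 264192]

/-- new words -/
def F_0 : Nat := 132609

/-- successors on the new T-cycles -/
def Z_0 : Nat := 38762997480088074379457462250

/-- first word of the lists -/
def x0_0 : Nat := 5

/-- a new word -/
def z0_0 : Nat := 0

/-- number of new words -/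
def cF_0 : Nat := 4

/-- the code -/
def code_0 : List Nat := [
  6, 15, 3, 12, 22767150302424126881567705125, 12, 7, 22960502872239766090339584037,
  22960502872239766090339584037, 13, 22767150189443448936039811104, 4, 1, 11, 22960502799641740097063225380,
  11, 2, 22767150302424126716180958244, 22767150302424126709772094597, 8, 14, 22960502872239872504532831268,
  14, 22960502872239767121068820516, 14, 22960502872239767121068820516, 14, 22960502872239767121068820516,
  14, 22960502872239767121068820516, 14, 22960502872239767121068820516, 14, 22960502872239758395875267652,
  14, 22960502872239872504532831268, 22767150189443448936039746624, 22960502799641740090654364740,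
  22960502872239766083866760260, 22767150302424126716180958244, 11, 8, 14, 22767078173353249260917786757,
  14, 22960502872239767121068820516, 14, 22960502872239767121068820516, 14, 22960502872239767121068820516,
  14, 22960502872239767121068820516, 14, 22767150302424119184990505093, 14, 22960502872239863940436297861,
  11, 22960502799641740090654361733, 11, 22960502872239766083866757253, 11, 22960502799641740097063225380,
  22960502872239871636949534756, 22960502872239871636949534756, 22960502872239871636949534756, 8, 14,
  22960502872239767121068820516, 14, 22960502872239767121068820516, 14, 22960502872239767121068820516, 14,
  1, 11, 22960502872239863940436297861, 11, 22960502872239758393762384005, 11,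
  22767078173353451577466259584, 11, 22767078173353249267326683264, 11, 22960502799641741127856424996, 11,
  22960502799641740097063225380, 11, 22960502799641740097127188517, 14, 1, 11,
  22960502799641732402662869125, 11, 2, 22960502872239872504532831268, 22960502872239872504532831268,
  22960502872239872504532831268, 22960502872239872504532831268, 22960502872239758395875267652,
  22960502872239872504532831268, 22960502872239872504532831268, 22960502872239872504532831268, 11,
  22767078173353451577466259584, 11, 22767078173353248236533483648, 11, 22960502799641740097063225380, 11,
  22960502799641740097063225380, 11, 22960502799641740097127188517, 14, 22960502872239767121068820516,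
  22767150189443448936039811104, 22767150189443448936039811104]

theorem runLC : Pool.OddHC.Abs.run A F_0 Z_0 x0_0 z0_0 cF_0 al code_0 [[x0_0]] = true := by
  decide +kernel

end Pool.OddHC.CertLC
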