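import Pool.Agent.Work.MP_8f87b2_h35.Abs

/-!
MP_8f87b2_co: certificate for 20 words, right: new T-cycles {0, 10, 13, 4}, {1, 11, 16, 5}, {2, 18} (cyclic orders);
arcs 3 -> 12, 6 -> 15, 8 -> 14, 9 -> 17
-/

set_option autoImplicit false

namespace Pool.OddHC.CertP1

/-- arcs, base 32 digits (31 = no arc) -/
def A : Nat := 1267650600228228890206615797759

/-- masks of the allowed images -/
def al : List Nat := [49, 22, 44, 11, 400, 224, 321, 644, 770, 584, 50176, 22528, 45056, 11264, 409600, 229376, 328704, 659456, 788480, 598016]

/-- new words -/
def F_0 : Nat := 338999

/-- successors on the new T-cycles -/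
def Z_0 : Nat := 1231718906020958515031123675498

/-- first word of the lists -/
def x0_0 : Nat := 7

/-- a new word -/
def z0_0 : Nat := 0

/-- number of new words -/
def cF_0 : Nat := 10

/-- the code -/
def code_0 : List Nat := [
  6, 15, 3, 12, 8, 14, 9, 17, 766955255432633266266938840128, 17, 775427406395865148874563884064, 17,
  766955255432633266266938840128, 17, 775427406395865148874563884064, 14, 9, 17,
  775427406395865148874563884064, 17, 775427406395865044423106728992, 17, 775427406395865148874563884064,
  17, 775427406395865148874563884064, 14, 9, 17, 775427406395865149046295399488, 17,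
  766955255432633266266938840128, 17, 766955255429247685247063069760, 17, 775427406395865148874563884064,
  12, 8, 14, 9, 17, 775427406395865044594838244416, 17, 775427406395865149046295399488, 17,
  775427406395865148874563884064, 17, 775427406395865044594838244416, 14, 9, 17,
  775427406395865148874563884064, 17, 775427406395865044423106728992, 17, 775427406395865044423106728992,
  17, 775427406395865044423106728992, 14, 9, 17, 775427406395865149046295399488, 17,
  775427406395865149046295399488, 17, 775427406395865044594838244416, 17, 775427406395865149046295399488]

theorem runP1 : Pool.OddHC.Abs.run A F_0 Z_0 x0_0 z0_0 cF_0 al code_0 [[x0_0]] = true := by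
  decide +kernel

end Pool.OddHC.CertP1
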