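import Pool.Agent.Work.MP_8f87b2_h35.Abs

/-!
MP_8f87b2_co: certificate of GadQ1 (JV merged with E((R)), right).
-/

set_option autoImplicit false

namespace Pool.OddHC.CertQ1

/-- arcs, base 32 digits (31 = no arc) -/
def A : Nat := 1125876284521727

/-- masks of the allowed images -/
def al : List Nat := [5, 3, 52, 41, 80, 96, 74, 384, 768, 640]

/-- new words -/
def F_0 : Nat := 301

/-- successors on the new T-cycles -/
def Z_0 : Nat := 1095112708066272

/-- first word of the lists -/
def x0_0 : Nat := 4

/-- a new word -/
def z0_0 : Nat := 0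

/-- number of new words -/
def cF_0 : Nat := 5

/-- the code -/
def code_0 : List Nat := [
  6, 9, 325699386741794]

theorem runQ1 : Pool.OddHC.Abs.run A F_0 Z_0 x0_0 z0_0 cF_0 al code_0 [[x0_0]] = true := by
  decide +kernel

end Pool.OddHC.CertQ1
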