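import Pool.Agent.Work.MP_8f87b2_h35.Abs

/-!
MP_8f87b2_co: certificate of GadQ2 (JV merged with E(X), right).
-/

set_option autoImplicit false

namespace Pool.OddHC.CertQ2

/-- arcs, base 32 digits (31 = no arc) -/
def A : Nat := 35183600336895

/-- masks of the allowed images -/
def al : List Nat := [5, 3, 20, 9, 48, 42, 192, 384, 320]

/-- new words -/
def F_0 : Nat := 207

/-- successors on the new T-cycles -/
def Z_0 : Nat := 34190086342848

/-- first word of the lists -/
def x0_0 : Nat := 4

/-- a new word -/
def z0_0 : Nat := 0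

/-- number of new words -/
def cF_0 : Nat := 6

/-- the code -/
def code_0 : List Nat := [
  5, 8, 6879569776674]

theorem runQ2 : Pool.OddHC.Abs.run A F_0 Z_0 x0_0 z0_0 cF_0 al code_0 [[x0_0]] = true := by
  decide +kernel

end Pool.OddHC.CertQ2
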