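import Pool.Agent.Work.MP_8f87b2_base.Frame
import Pool.Agent.Work.MP_8f87b2_h35.Abs

/-!
MP_8f87b2_co: the frames of a general block `[P1; P2; P3; P4; P5]` (ten words) and of a triple `[P1; P2; P3]`.
-/

namespace Pool.OddHC

open Finset Equiv BinaryTree

variable {k : ℕ}

namespace Abs

/-- `P (Q (R) S) T` -/
def wA (P Q R S T : BinaryTree Unit) : BinaryTree Unit := app P ((app Q (R △ S)) △ T)

/-- `P (Q) R (S) T` -/
def wB (P Q R S T : BinaryTree Unit) : BinaryTree Unit := app P (Q △ (app R (S △ T)))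

theorem wd_wA (P Q R S T : BinaryTree Unit) : wd (wA P Q R S T) =
    wd P ++ true :: (wd Q ++ true :: (wd R ++ false :: (wd S ++ false :: wd T))) := by
  unfold wA
  rw [wd_app, wd_node, wd_app, wd_node]
  simp

theorem wd_wB (P Q R S T : BinaryTree Unit) : wd (wB P Q R S T) =
    wd P ++ true :: (wd Q ++ false :: (wd R ++ true :: (wd S ++ false :: wd T))) := by
  unfold wB
  rw [wd_app, wd_node, wd_app, wd_node]

/-- the frame -/
def L5 (P1 P2 P3 P4 P5 : BinaryTree Unit) (a1 a2 a3 a4 a5 : Bool) : List Bool :=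
  wd P1 ++ a1 :: (wd P2 ++ a2 :: (wd P3 ++ a3 :: (wd P4 ++ a4 :: (wd P5 ++ [a5]))))

theorem L5_le (P1 P2 P3 P4 P5 : BinaryTree Unit) {a1 a2 a3 a4 a5 b1 b2 b3 b4 b5 : Bool}
    (h1 : a1 = true → b1 = true) (h2 : a2 = true → b2 = true) (h3 : a3 = true → b3 = true)
    (h4 : a4 = true → b4 = true) (h5 : a5 = true → b5 = true) :
    leL (L5 P1 P2 P3 P4 P5 a1 a2 a3 a4 a5) (L5 P1 P2 P3 P4 P5 b1 b2 b3 b4 b5) :=
  leL_app (leL_refl _) (leL_cons h1 (leL_app (leL_refl _) (leL_cons h2 (leL_app (leL_refl _)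
    (leL_cons h3 (leL_app (leL_refl _) (leL_cons h4 (leL_app (leL_refl _)
      (leL_cons h5 (leL_refl _))))))))))

/-- position of the letter behind `P1`, ..., behind `Pj` -/
def ps5 (P1 P2 P3 P4 P5 : BinaryTree Unit) : ℕ → ℕ
  | 0 => (wd P1).length
  | 1 => (wd P1).length + 1 + (wd P2).length
  | 2 => (wd P1).length + 1 + (wd P2).length + 1 + (wd P3).length
  | 3 => (wd P1).length + 1 + (wd P2).length + 1 + (wd P3).length + 1 + (wd P4).length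
  | _ => (wd P1).length + 1 + (wd P2).length + 1 + (wd P3).length + 1 + (wd P4).length + 1 +
      (wd P5).length

/-- the ten words; patterns 11000,10100,10010,10001,01100,01010,01001,00110,00101,00011 -/
def t5 (P1 P2 P3 P4 P5 : BinaryTree Unit) : ℕ → BinaryTree Unit
  | 0 => wA P1 P2 P3 P4 P5
  | 1 => wB P1 P2 P3 P4 P5
  | 2 => wB P4 P5 P1 P2 P3
  | 3 => wA P5 P1 P2 P3 P4
  | 4 => wA P2 P3 P4 P5 P1
  | 5 => wB P2 P3 P4 P5 P1
  | 6 => wB P5 P1 P2 P3 P4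
  | 7 => wA P3 P4 P5 P1 P2
  | 8 => wB P3 P4 P5 P1 P2
  | _ => wA P4 P5 P1 P2 P3

/-- the place of the star -/
def sp5 : ℕ → ℕ
  | 0 => 4
  | 1 => 4
  | 2 => 2
  | 3 => 3
  | 4 => 0
  | 5 => 0
  | 6 => 3
  | 7 => 1
  | 8 => 1
  | _ => 2

/-- the patterns as sets of letters -/
def pt5 : ℕ → ℕ
  | 0 => 3
  | 1 => 5
  | 2 => 9
  | 3 => 17
  | 4 => 6
  | 5 => 10
  | 6 => 18
  | 7 => 12
  | 8 => 20
  | _ => 24

/-- frame with the pattern `m` -/
def M5 (P1 P2 P3 P4 P5 : BinaryTree Unit) (m : ℕ) : List Bool :=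
  L5 P1 P2 P3 P4 P5 (m.testBit 0) (m.testBit 1) (m.testBit 2) (m.testBit 3) (m.testBit 4)

theorem t5_frame (P1 P2 P3 P4 P5 : BinaryTree Unit) : ∀ i < 10, ∃ A B : List Bool,
    wd (t5 P1 P2 P3 P4 P5 i) = B ++ A ∧ A.length = ps5 P1 P2 P3 P4 P5 (sp5 i) ∧
    A ++ false :: B = M5 P1 P2 P3 P4 P5 (pt5 i) ∧
    A ++ true :: B = M5 P1 P2 P3 P4 P5 (pt5 i ||| (1 <<< (sp5 i))) := by
  intro i hi
  interval_cases i
  · refine ⟨wd P1 ++ true :: (wd P2 ++ true :: (wd P3 ++ false :: (wd P4 ++ false :: wd P5))), [], ?_, ?_, ?_, ?_⟩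
    · rw [t5, wd_wA]; simp
    · simp [ps5, sp5]; omega
    · simp [M5, L5, pt5, Nat.testBit]
    · simp [M5, L5, pt5, sp5, Nat.testBit]
  · refine ⟨wd P1 ++ true :: (wd P2 ++ false :: (wd P3 ++ true :: (wd P4 ++ false :: wd P5))), [], ?_, ?_, ?_, ?_⟩
    · rw [t5, wd_wB]; simp
    · simp [ps5, sp5]; omega
    · simp [M5, L5, pt5, Nat.testBit]
    · simp [M5, L5, pt5, sp5, Nat.testBit]
  · refine ⟨wd P1 ++ true :: (wd P2 ++ false :: wd P3), wd P4 ++ true :: (wd P5 ++ [false]), ?_, ?_, ?_, ?_⟩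
    · rw [t5, wd_wB]; simp
    · simp [ps5, sp5]; omega
    · simp [M5, L5, pt5, Nat.testBit]
    · simp [M5, L5, pt5, sp5, Nat.testBit]
  · refine ⟨wd P1 ++ true :: (wd P2 ++ false :: (wd P3 ++ false :: wd P4)), wd P5 ++ [true], ?_, ?_, ?_, ?_⟩
    · rw [t5, wd_wA]; simp
    · simp [ps5, sp5]; omega
    · simp [M5, L5, pt5, Nat.testBit]
    · simp [M5, L5, pt5, sp5, Nat.testBit]
  · refine ⟨wd P1, wd P2 ++ true :: (wd P3 ++ true :: (wd P4 ++ false :: (wd P5 ++ [false]))), ?_, ?_, ?_, ?_⟩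
    · rw [t5, wd_wA]; simp
    · simp [ps5, sp5]
    · simp [M5, L5, pt5, Nat.testBit]
    · simp [M5, L5, pt5, sp5, Nat.testBit]
  · refine ⟨wd P1, wd P2 ++ true :: (wd P3 ++ false :: (wd P4 ++ true :: (wd P5 ++ [false]))), ?_, ?_, ?_, ?_⟩
    · rw [t5, wd_wB]; simp
    · simp [ps5, sp5]
    · simp [M5, L5, pt5, Nat.testBit]
    · simp [M5, L5, pt5, sp5, Nat.testBit]
  · refine ⟨wd P1 ++ false :: (wd P2 ++ true :: (wd P3 ++ false :: wd P4)), wd P5 ++ [true], ?_, ?_, ?_, ?_⟩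
    · rw [t5, wd_wB]; simp
    · simp [ps5, sp5]; omega
    · simp [M5, L5, pt5, Nat.testBit]
    · simp [M5, L5, pt5, sp5, Nat.testBit]
  · refine ⟨wd P1 ++ false :: wd P2, wd P3 ++ true :: (wd P4 ++ true :: (wd P5 ++ [false])), ?_, ?_, ?_, ?_⟩
    · rw [t5, wd_wA]; simp
    · simp [ps5, sp5]; omega
    · simp [M5, L5, pt5, Nat.testBit]
    · simp [M5, L5, pt5, sp5, Nat.testBit]
  · refine ⟨wd P1 ++ false :: wd P2, wd P3 ++ true :: (wd P4 ++ false :: (wd P5 ++ [true])), ?_, ?_, ?_, ?_⟩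
    · rw [t5, wd_wB]; simp
    · simp [ps5, sp5]; omega
    · simp [M5, L5, pt5, Nat.testBit]
    · simp [M5, L5, pt5, sp5, Nat.testBit]
  · refine ⟨wd P1 ++ false :: (wd P2 ++ false :: wd P3), wd P4 ++ true :: (wd P5 ++ [true]), ?_, ?_, ?_, ?_⟩
    · show wd (wA P4 P5 P1 P2 P3) = _
      rw [wd_wA]; simp
    · simp [ps5, sp5]; omega
    · simp [M5, L5, pt5, Nat.testBit]
    · simp [M5, L5, pt5, sp5, Nat.testBit]

/-- FRAMES OF A BLOCK: the word `i` may go to the word `j` if the pattern of `i` is contained in the pattern of `j`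
together with its star -/
theorem block_le {w u : X k} {P1 P2 P3 P4 P5 : BinaryTree Unit} {i j : ℕ} (hi : i < 10) (hj : j < 10)
    (hw : w.1 = t5 P1 P2 P3 P4 P5 i) (hu : u.1 = t5 P1 P2 P3 P4 P5 j)
    (h : ∀ q < 5, (pt5 i).testBit q = true → (pt5 j ||| (1 <<< (sp5 j))).testBit q = true) :
    io w (ps5 P1 P2 P3 P4 P5 (sp5 i) : ℕ) ⊆
      insert ((ps5 P1 P2 P3 P4 P5 (sp5 j) : ℕ) : ZMod (2 * k + 1))
        (io u ((ps5 P1 P2 P3 P4 P5 (sp5 j) : ℕ) : ZMod (2 * k + 1))) := by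
  obtain ⟨A, B, h1, h2, h3, _⟩ := t5_frame P1 P2 P3 P4 P5 i hi
  obtain ⟨A', B', g1, g2, _, g4⟩ := t5_frame P1 P2 P3 P4 P5 j hj
  rw [← h2, ← g2]
  apply frame_le (by rw [hw, h1]) (by rw [hu, g1])
  rw [h3, g4]
  exact L5_le _ _ _ _ _ (h 0 (by omega)) (h 1 (by omega)) (h 2 (by omega)) (h 3 (by omega)) (h 4 (by omega))

/-! ### Triples -/

/-- the three words `P1(P2)P3`, `P2(P3)P1`, `P3(P1)P2` -/
def t3 (P1 P2 P3 : BinaryTree Unit) : ℕ → BinaryTree Unit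
  | 0 => w1 P1 P2 P3
  | 1 => w1 P2 P3 P1
  | _ => w1 P3 P1 P2

/-- the places of the stars in the frame `P1 a P2 b P3 c` -/
def ps3 (P1 P2 P3 : BinaryTree Unit) : ℕ → ℕ
  | 0 => (wd P1).length + 1 + (wd P2).length + 1 + (wd P3).length
  | 1 => (wd P1).length
  | _ => (wd P1).length + 1 + (wd P2).length

/-- FRAMES OF A TRIPLE: `i` may go to `i + 1` (and to `i`) -/
theorem triple_le {w u : X k} {P1 P2 P3 : BinaryTree Unit} {i j : ℕ} (hi : i < 3) (hj : j < 3)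
    (hw : w.1 = t3 P1 P2 P3 i) (hu : u.1 = t3 P1 P2 P3 j)
    (h : j = i ∨ (i = 0 ∧ j = 1) ∨ (i = 1 ∧ j = 2) ∨ (i = 2 ∧ j = 0)) :
    io w (ps3 P1 P2 P3 i : ℕ) ⊆
      insert ((ps3 P1 P2 P3 j : ℕ) : ZMod (2 * k + 1))
        (io u ((ps3 P1 P2 P3 j : ℕ) : ZMod (2 * k + 1))) := by
  have key : ∀ i < 3, ∃ A B : List Bool, wd (t3 P1 P2 P3 i) = B ++ A ∧ A.length = ps3 P1 P2 P3 i ∧
      A ++ false :: B = wd P1 ++ (decide (i = 0)) :: (wd P2 ++ (decide (i = 1)) ::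
        (wd P3 ++ [decide (i = 2)])) ∧
      A ++ true :: B = wd P1 ++ (decide (i = 0) || decide (i = 1)) :: (wd P2 ++
        (decide (i = 1) || decide (i = 2)) :: (wd P3 ++ [decide (i = 2) || decide (i = 0)])) := by
    intro i hi
    interval_cases i
    · refine ⟨wd P1 ++ true :: (wd P2 ++ false :: wd P3), [], ?_, ?_, ?_, ?_⟩
      · rw [t3, wd_w1]; simp
      · simp [ps3]; omega
      · simp
      · simp
    · refine ⟨wd P1, wd P2 ++ true :: (wd P3 ++ [false]), ?_, ?_, ?_, ?_⟩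
      · rw [t3, wd_w1]; simp
      · simp [ps3]
      · simp
      · simp
    · refine ⟨wd P1 ++ false :: wd P2, wd P3 ++ [true], ?_, ?_, ?_, ?_⟩
      · show wd (w1 P3 P1 P2) = _
        rw [wd_w1]; simp
      · simp [ps3]; omega
      · simp
      · simp
  obtain ⟨A, B, h1, h2, h3, _⟩ := key i hi
  obtain ⟨A', B', g1, g2, _, g4⟩ := key j hj
  rw [← h2, ← g2]
  apply frame_le (by rw [hw, h1]) (by rw [hu, g1])
  rw [h3, g4]
  apply leL_app (leL_refl _) (leL_cons _ (leL_app (leL_refl _) (leL_cons _ (leL_app (leL_refl _)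
    (leL_cons _ (leL_refl _))))))
  all_goals
    intro hh
    rw [decide_eq_true_iff] at hh
    subst hh
    rcases h with h | ⟨h, h'⟩ | ⟨h, h'⟩ | ⟨h, h'⟩ <;> simp_all

end Abs

end Pool.OddHC
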