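import Pool.Agent.Work.MP_8f87b2_h35.Gen20
import Pool.Agent.Work.MP_8f87b2_h35.CertB0xM

/-!
MP_8f87b2_co: the window B0, second form, MIRROR, 20 words: new T-cycles {0, 10}, {1, 11}, {2, 18}; arcs 12 -> 3, 15 -> 6, 14 -> 8, 17 -> 9.
-/

set_option autoImplicit false

set_option synthInstance.maxSize 1000

namespace Pool.OddHC

open Finset BinaryTree Equiv

variable {k : ℕ}

/-- numbers of the words -/
def ixB0xM : List ℕ := [0, 1, 2, 3, 4, 5, 6, 7, 8, 9, 10, 11, 12, 13, 14, 15, 16, 17, 18, 19]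

/-- new T-cycles with one word -/
def sgB0xM : List ℕ := []

/-- new T-cycles with two words -/
def prB0xM : List (ℕ × ℕ) := [(0, 10), (1, 11), (2, 18)]

/-- arcs -/
def arB0xM : List (ℕ × ℕ) := [(12, 3), (15, 6), (14, 8), (17, 9)]

/-- old words -/
def odB0xM : List ℕ := [3, 4, 5, 6, 7, 8, 9, 12, 13, 14, 15, 16, 17, 19]

/-- the gadget -/
noncomputable def gadB0xM (w : ℕ → X k) : DG k := gadOf w ixB0xM (sgB0xM ++ prB0xM.map Prod.fst) arB0xM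

theorem okB0xM : CertOk ixB0xM sgB0xM prB0xM arB0xM odB0xM CertB0xM.A CertB0xM.F_0 CertB0xM.Z_0 CertB0xM.x0_0
    CertB0xM.z0_0 CertB0xM.al CertM.al := by
  refine ⟨?_, ?_, ?_, ?_, ?_, ?_, ?_, ?_, ?_, ?_, ?_, ?_, ?_, ?_, ?_⟩ <;> decide +kernel

/-- THE GADGET ABSORBS. -/
theorem gadB0xM_abs {R Q B S : BinaryTree Unit} (hR : Q.numNodes + R.numNodes + 2 = k)
    (hB : Q.numNodes + S.numNodes + B.numNodes + 2 = k)
    {w : ℕ → X k} (hw : ∀ i ∈ ixB0xM, (w i).1 = w20M R Q B S i)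
    (hinj : ∀ i ∈ ixB0xM, ∀ j ∈ ixB0xM, w i = w j → i = j)
    (hpair : ∀ p ∈ prB0xM, TT.SameCycle (w p.1) (w p.2))
    (hsep : ∀ i ∈ sgB0xM ++ prB0xM.map Prod.fst, ∀ j ∈ sgB0xM ++ prB0xM.map Prod.fst,
      TT.SameCycle (w i) (w j) → i = j)
    (hold : ∀ i ∈ sgB0xM ++ prB0xM.map Prod.fst, ∀ j ∈ odB0xM, ¬ TT.SameCycle (w i) (w j)) :
    (gadB0xM w).Abs :=
  gadOfM_abs hR hB okB0xM CertB0xM.runB0xM hw hinj hpair hsep hold

end Pool.OddHC
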