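import Pool.Agent.Work.MP_8f87b2_h35.Gen20
import Pool.Agent.Work.MP_8f87b2_h35.CertB11M

/-!
MP_8f87b2_co: window merged with an E triple, MIRROR, 20 words: new T-cycles {0, 10}, {1, 11}, {18}; arcs 12 -> 3, 15 -> 6, 14 -> 8, 17 -> 9.
-/

set_option autoImplicit false

set_option synthInstance.maxSize 1000

namespace Pool.OddHC

open Finset BinaryTree Equiv

variable {k : ℕ}

/-- numbers of the words -/
def ixB11M : List ℕ := [0, 1, 2, 3, 4, 5, 6, 7, 8, 9, 10, 11, 12, 13, 14, 15, 16, 17, 18, 19]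

/-- new T-cycles with one word -/
def sgB11M : List ℕ := [18]

/-- new T-cycles with two words -/
def prB11M : List (ℕ × ℕ) := [(0, 10), (1, 11)]

/-- arcs -/
def arB11M : List (ℕ × ℕ) := [(12, 3), (15, 6), (14, 8), (17, 9)]

/-- old words -/
def odB11M : List ℕ := [2, 3, 4, 5, 6, 7, 8, 9, 12, 13, 14, 15, 16, 17, 19]

/-- the gadget -/
noncomputable def gadB11M (w : ℕ → X k) : DG k := gadOf w ixB11M (sgB11M ++ prB11M.map Prod.fst) arB11M

theorem okB11M : CertOk ixB11M sgB11M prB11M arB11M odB11M CertB11M.A CertB11M.F_0 CertB11M.Z_0 CertB11M.x0_0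
    CertB11M.z0_0 CertB11M.al CertM.al := by
  refine ⟨?_, ?_, ?_, ?_, ?_, ?_, ?_, ?_, ?_, ?_, ?_, ?_, ?_, ?_, ?_⟩ <;> decide +kernel

/-- THE GADGET ABSORBS. -/
theorem gadB11M_abs {R Q B S : BinaryTree Unit} (hR : Q.numNodes + R.numNodes + 2 = k)
    (hB : Q.numNodes + S.numNodes + B.numNodes + 2 = k)
    {w : ℕ → X k} (hw : ∀ i ∈ ixB11M, (w i).1 = w20M R Q B S i)
    (hinj : ∀ i ∈ ixB11M, ∀ j ∈ ixB11M, w i = w j → i = j)
    (hpair : ∀ p ∈ prB11M, TT.SameCycle (w p.1) (w p.2))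
    (hsep : ∀ i ∈ sgB11M ++ prB11M.map Prod.fst, ∀ j ∈ sgB11M ++ prB11M.map Prod.fst,
      TT.SameCycle (w i) (w j) → i = j)
    (hold : ∀ i ∈ sgB11M ++ prB11M.map Prod.fst, ∀ j ∈ odB11M, ¬ TT.SameCycle (w i) (w j)) :
    (gadB11M w).Abs :=
  gadOfM_abs hR hB okB11M CertB11M.runB11M hw hinj hpair hsep hold

end Pool.OddHC
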