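import Pool.Agent.Work.MP_8f87b2_h35.Gen20T
import Pool.Agent.Work.MP_8f87b2_h35.CertJ2Y

/-!
MP_8f87b2_co: helper40's gadget J2MY = the top pair of an even group merged with the E pair, MIRROR, 19 words (all but 9): new
T-cycles {0, 10}, {4}, {1, 5, 11} (cyclic order 1, 5, 11 as in `gadJNM`), {2}; arcs 12 -> 3, 15 -> 6, 14 -> 8.
-/

set_option autoImplicit false

set_option synthInstance.maxSize 1000

namespace Pool.OddHC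

open Finset BinaryTree Equiv

variable {k : ℕ}

/-- numbers of the words -/
def ixJ2Y : List ℕ := [0, 1, 2, 3, 4, 5, 6, 7, 8, 10, 11, 12, 13, 14, 15, 16, 17, 18, 19]

/-- new T-cycles with one word -/
def sgJ2Y : List ℕ := [2, 4]

/-- new T-cycles with two words -/
def prJ2Y : List (ℕ × ℕ) := [(0, 10)]

/-- new T-cycles with three words -/
def trJ2Y : List (ℕ × ℕ × ℕ) := [(1, 5, 11)]

/-- arcs -/
def arJ2Y : List (ℕ × ℕ) := [(12, 3), (15, 6), (14, 8)]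

/-- old words -/
def odJ2Y : List ℕ := [3, 6, 7, 8, 12, 13, 14, 15, 16, 17, 18, 19]

/-- one word of each new T-cycle -/
def nwJ2Y : List ℕ := [2, 4, 0, 1]

/-- the gadget -/
noncomputable def gadJ2Y (w : ℕ → X k) : DG k := gadOf w ixJ2Y nwJ2Y arJ2Y

theorem okJ2Y : CertOkT ixJ2Y sgJ2Y prJ2Y trJ2Y arJ2Y odJ2Y CertJ2Y.A CertJ2Y.F_0 CertJ2Y.Z_0 CertJ2Y.x0_0
    CertJ2Y.z0_0 CertJ2Y.al CertM.al := by
  refine ⟨?_, ?_, ?_, ?_, ?_, ?_, ?_, ?_, ?_, ?_, ?_, ?_, ?_, ?_, ?_, ?_, ?_, ?_, ?_⟩ <;>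
    decide +kernel

/-- THE GADGET ABSORBS. -/
theorem gadJ2Y_abs {R Q B S : BinaryTree Unit} (hR : Q.numNodes + R.numNodes + 2 = k)
    (hB : Q.numNodes + S.numNodes + B.numNodes + 2 = k)
    {w : ℕ → X k} (hw : ∀ i ∈ ixJ2Y, (w i).1 = w20M R Q B S i)
    (hinj : ∀ i ∈ ixJ2Y, ∀ j ∈ ixJ2Y, w i = w j → i = j)
    (hpair : ∀ p ∈ prJ2Y, TT.SameCycle (w p.1) (w p.2))
    (htr : ∀ t ∈ trJ2Y, ∃ C : Finset (X k), (w t.1 ∈ C ∧ w t.2.1 ∈ C ∧ w t.2.2 ∈ C) ∧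
      FR TT C (w t.1) (w t.2.1) ∧ FR TT C (w t.2.1) (w t.2.2) ∧ FR TT C (w t.2.2) (w t.1))
    (hsep : ∀ i ∈ nwJ2Y, ∀ j ∈ nwJ2Y, TT.SameCycle (w i) (w j) → i = j)
    (hold : ∀ i ∈ nwJ2Y, ∀ j ∈ odJ2Y, ¬ TT.SameCycle (w i) (w j)) :
    (gadJ2Y w).Abs :=
  gadOfMT_abs hR hB okJ2Y CertJ2Y.runJ2Y hw hinj hpair htr hsep hold

end Pool.OddHC
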