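import Pool.Agent.Work.MP_8f87b2_h35.Gen20T
import Pool.Agent.Work.MP_8f87b2_h35.CertJ4

/-!
MP_8f87b2_co: helper40's gadget J4 = the bottom pair of an even group merged with the E pair, RIGHT, words 0, 1, 2, 4, 5, 6, 8, 11,
14, 18: new T-cycles {0}, {4}, {1, 11, 5} (cyclic order 1, 11, 5), {2, 18}; arc 8 -> 14; old words 6, 8, 14.
-/

set_option autoImplicit false

set_option synthInstance.maxSize 1000

namespace Pool.OddHC

open Finset BinaryTree Equiv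

variable {k : ℕ}

/-- numbers of the words -/
def ixJ4 : List ℕ := [0, 1, 2, 4, 5, 6, 8, 11, 14, 18]

/-- new T-cycles with one word -/
def sgJ4 : List ℕ := [0, 4]

/-- new T-cycles with two words -/
def prJ4 : List (ℕ × ℕ) := [(2, 18)]

/-- new T-cycles with three words -/
def trJ4 : List (ℕ × ℕ × ℕ) := [(1, 11, 5)]

/-- arcs -/
def arJ4 : List (ℕ × ℕ) := [(8, 14)]

/-- old words -/
def odJ4 : List ℕ := [6, 8, 14]

/-- one word of each new T-cycle -/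
def nwJ4 : List ℕ := [0, 4, 2, 1]

/-- the gadget -/
noncomputable def gadJ4 (w : ℕ → X k) : DG k := gadOf w ixJ4 nwJ4 arJ4

theorem okJ4 : CertOkT ixJ4 sgJ4 prJ4 trJ4 arJ4 odJ4 CertJ4.A CertJ4.F_0 CertJ4.Z_0 CertJ4.x0_0
    CertJ4.z0_0 CertJ4.al Cert.al := by
  refine ⟨?_, ?_, ?_, ?_, ?_, ?_, ?_, ?_, ?_, ?_, ?_, ?_, ?_, ?_, ?_, ?_, ?_, ?_, ?_⟩ <;>
    decide +kernel

/-- THE GADGET ABSORBS. -/
theorem gadJ4_abs {R Q B S : BinaryTree Unit} (hR : Q.numNodes + R.numNodes + 2 = k)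
    (hB : Q.numNodes + S.numNodes + B.numNodes + 2 = k)
    {w : ℕ → X k} (hw : ∀ i ∈ ixJ4, (w i).1 = w20 R Q B S i)
    (hinj : ∀ i ∈ ixJ4, ∀ j ∈ ixJ4, w i = w j → i = j)
    (hpair : ∀ p ∈ prJ4, TT.SameCycle (w p.1) (w p.2))
    (htr : ∀ t ∈ trJ4, ∃ C : Finset (X k), (w t.1 ∈ C ∧ w t.2.1 ∈ C ∧ w t.2.2 ∈ C) ∧
      FR TT C (w t.1) (w t.2.1) ∧ FR TT C (w t.2.1) (w t.2.2) ∧ FR TT C (w t.2.2) (w t.1))
    (hsep : ∀ i ∈ nwJ4, ∀ j ∈ nwJ4, TT.SameCycle (w i) (w j) → i = j)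
    (hold : ∀ i ∈ nwJ4, ∀ j ∈ odJ4, ¬ TT.SameCycle (w i) (w j)) :
    (gadJ4 w).Abs :=
  gadOfT_abs hR hB okJ4 CertJ4.runJ4 hw hinj hpair htr hsep hold

end Pool.OddHC
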