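import Pool.Agent.Work.MP_8f87b2_h35.Gen20
import Pool.Agent.Work.MP_8f87b2_h35.CertVM
import Pool.Agent.Work.MP_8f87b2_h35.GadJBv

/-!
MP_8f87b2_co: THE 24 FORMS OF J2B, MIRROR: the 20 words of `w20M R Q B S`, arcs 11 > 1, 12 > 3, 15 > 6, 14 > 8 (no arc at 9),
new T-cycles {0, 10}, {4} and those of the E pairs which are merged:
a = {1, 11}, {2} (host 3); b = {2}, {5} (host 7); c = {6, 15}, {8, 14} (host 9); d = {3, 12}, {6, 15} (host 17);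
e = {16}, {18} (host 19); f = {1, 11}, {18} (host 14).
Form 0: none; 1: a; 2: b; 3: c; 4: d; 5: e; 6: f; 7: ac; 8: ad; 9: ae; 10: bc; 11: bd; 12: be; 13: bf; 14: ce; 15: cf; 16: de; 17: df; 18: ace; 19: ade; 20: bce; 21: bcf; 22: bde; 23: bdf.
-/

set_option autoImplicit false

set_option synthInstance.maxSize 1000

namespace Pool.OddHC

open Finset BinaryTree Equiv

variable {k : ℕ}

/-- arcs, mirror -/
def arJBvM : List (ℕ × ℕ) := [(11, 1), (12, 3), (15, 6), (14, 8)]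

/-- J2B, form `v` -/
noncomputable def gadJBvM (v : ℕ) (w : ℕ → X k) : DG k := gadOf w ixJBv (nwJBv v) arJBvM

theorem okJBvM0 : CertOk ixJBv (sgJBv 0) (prJBv 0) arJBvM (odJBv 0) CertVM0.A CertVM0.F_0 CertVM0.Z_0
    CertVM0.x0_0 CertVM0.z0_0 CertVM0.al CertM.al := by
  refine ⟨?_, ?_, ?_, ?_, ?_, ?_, ?_, ?_, ?_, ?_, ?_, ?_, ?_, ?_, ?_⟩ <;> decide +kernel

theorem okJBvM1 : CertOk ixJBv (sgJBv 1) (prJBv 1) arJBvM (odJBv 1) CertVM1.A CertVM1.F_0 CertVM1.Z_0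
    CertVM1.x0_0 CertVM1.z0_0 CertVM1.al CertM.al := by
  refine ⟨?_, ?_, ?_, ?_, ?_, ?_, ?_, ?_, ?_, ?_, ?_, ?_, ?_, ?_, ?_⟩ <;> decide +kernel

theorem okJBvM2 : CertOk ixJBv (sgJBv 2) (prJBv 2) arJBvM (odJBv 2) CertVM2.A CertVM2.F_0 CertVM2.Z_0
    CertVM2.x0_0 CertVM2.z0_0 CertVM2.al CertM.al := by
  refine ⟨?_, ?_, ?_, ?_, ?_, ?_, ?_, ?_, ?_, ?_, ?_, ?_, ?_, ?_, ?_⟩ <;> decide +kernel

theorem okJBvM3 : CertOk ixJBv (sgJBv 3) (prJBv 3) arJBvM (odJBv 3) CertVM3.A CertVM3.F_0 CertVM3.Z_0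
    CertVM3.x0_0 CertVM3.z0_0 CertVM3.al CertM.al := by
  refine ⟨?_, ?_, ?_, ?_, ?_, ?_, ?_, ?_, ?_, ?_, ?_, ?_, ?_, ?_, ?_⟩ <;> decide +kernel

theorem okJBvM4 : CertOk ixJBv (sgJBv 4) (prJBv 4) arJBvM (odJBv 4) CertVM4.A CertVM4.F_0 CertVM4.Z_0
    CertVM4.x0_0 CertVM4.z0_0 CertVM4.al CertM.al := by
  refine ⟨?_, ?_, ?_, ?_, ?_, ?_, ?_, ?_, ?_, ?_, ?_, ?_, ?_, ?_, ?_⟩ <;> decide +kernel

theorem okJBvM5 : CertOk ixJBv (sgJBv 5) (prJBv 5) arJBvM (odJBv 5) CertVM5.A CertVM5.F_0 CertVM5.Z_0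
    CertVM5.x0_0 CertVM5.z0_0 CertVM5.al CertM.al := by
  refine ⟨?_, ?_, ?_, ?_, ?_, ?_, ?_, ?_, ?_, ?_, ?_, ?_, ?_, ?_, ?_⟩ <;> decide +kernel

theorem okJBvM6 : CertOk ixJBv (sgJBv 6) (prJBv 6) arJBvM (odJBv 6) CertVM6.A CertVM6.F_0 CertVM6.Z_0
    CertVM6.x0_0 CertVM6.z0_0 CertVM6.al CertM.al := by
  refine ⟨?_, ?_, ?_, ?_, ?_, ?_, ?_, ?_, ?_, ?_, ?_, ?_, ?_, ?_, ?_⟩ <;> decide +kernel

theorem okJBvM7 : CertOk ixJBv (sgJBv 7) (prJBv 7) arJBvM (odJBv 7) CertVM7.A CertVM7.F_0 CertVM7.Z_0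
    CertVM7.x0_0 CertVM7.z0_0 CertVM7.al CertM.al := by
  refine ⟨?_, ?_, ?_, ?_, ?_, ?_, ?_, ?_, ?_, ?_, ?_, ?_, ?_, ?_, ?_⟩ <;> decide +kernel

theorem okJBvM8 : CertOk ixJBv (sgJBv 8) (prJBv 8) arJBvM (odJBv 8) CertVM8.A CertVM8.F_0 CertVM8.Z_0
    CertVM8.x0_0 CertVM8.z0_0 CertVM8.al CertM.al := by
  refine ⟨?_, ?_, ?_, ?_, ?_, ?_, ?_, ?_, ?_, ?_, ?_, ?_, ?_, ?_, ?_⟩ <;> decide +kernel

theorem okJBvM9 : CertOk ixJBv (sgJBv 9) (prJBv 9) arJBvM (odJBv 9) CertVM9.A CertVM9.F_0 CertVM9.Z_0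
    CertVM9.x0_0 CertVM9.z0_0 CertVM9.al CertM.al := by
  refine ⟨?_, ?_, ?_, ?_, ?_, ?_, ?_, ?_, ?_, ?_, ?_, ?_, ?_, ?_, ?_⟩ <;> decide +kernel

theorem okJBvM10 : CertOk ixJBv (sgJBv 10) (prJBv 10) arJBvM (odJBv 10) CertVM10.A CertVM10.F_0 CertVM10.Z_0
    CertVM10.x0_0 CertVM10.z0_0 CertVM10.al CertM.al := by
  refine ⟨?_, ?_, ?_, ?_, ?_, ?_, ?_, ?_, ?_, ?_, ?_, ?_, ?_, ?_, ?_⟩ <;> decide +kernel

theorem okJBvM11 : CertOk ixJBv (sgJBv 11) (prJBv 11) arJBvM (odJBv 11) CertVM11.A CertVM11.F_0 CertVM11.Z_0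
    CertVM11.x0_0 CertVM11.z0_0 CertVM11.al CertM.al := by
  refine ⟨?_, ?_, ?_, ?_, ?_, ?_, ?_, ?_, ?_, ?_, ?_, ?_, ?_, ?_, ?_⟩ <;> decide +kernel

theorem okJBvM12 : CertOk ixJBv (sgJBv 12) (prJBv 12) arJBvM (odJBv 12) CertVM12.A CertVM12.F_0 CertVM12.Z_0
    CertVM12.x0_0 CertVM12.z0_0 CertVM12.al CertM.al := by
  refine ⟨?_, ?_, ?_, ?_, ?_, ?_, ?_, ?_, ?_, ?_, ?_, ?_, ?_, ?_, ?_⟩ <;> decide +kernel

theorem okJBvM13 : CertOk ixJBv (sgJBv 13) (prJBv 13) arJBvM (odJBv 13) CertVM13.A CertVM13.F_0 CertVM13.Z_0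
    CertVM13.x0_0 CertVM13.z0_0 CertVM13.al CertM.al := by
  refine ⟨?_, ?_, ?_, ?_, ?_, ?_, ?_, ?_, ?_, ?_, ?_, ?_, ?_, ?_, ?_⟩ <;> decide +kernel

theorem okJBvM14 : CertOk ixJBv (sgJBv 14) (prJBv 14) arJBvM (odJBv 14) CertVM14.A CertVM14.F_0 CertVM14.Z_0
    CertVM14.x0_0 CertVM14.z0_0 CertVM14.al CertM.al := by
  refine ⟨?_, ?_, ?_, ?_, ?_, ?_, ?_, ?_, ?_, ?_, ?_, ?_, ?_, ?_, ?_⟩ <;> decide +kernel

theorem okJBvM15 : CertOk ixJBv (sgJBv 15) (prJBv 15) arJBvM (odJBv 15) CertVM15.A CertVM15.F_0 CertVM15.Z_0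
    CertVM15.x0_0 CertVM15.z0_0 CertVM15.al CertM.al := by
  refine ⟨?_, ?_, ?_, ?_, ?_, ?_, ?_, ?_, ?_, ?_, ?_, ?_, ?_, ?_, ?_⟩ <;> decide +kernel

theorem okJBvM16 : CertOk ixJBv (sgJBv 16) (prJBv 16) arJBvM (odJBv 16) CertVM16.A CertVM16.F_0 CertVM16.Z_0
    CertVM16.x0_0 CertVM16.z0_0 CertVM16.al CertM.al := by
  refine ⟨?_, ?_, ?_, ?_, ?_, ?_, ?_, ?_, ?_, ?_, ?_, ?_, ?_, ?_, ?_⟩ <;> decide +kernel

theorem okJBvM17 : CertOk ixJBv (sgJBv 17) (prJBv 17) arJBvM (odJBv 17) CertVM17.A CertVM17.F_0 CertVM17.Z_0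
    CertVM17.x0_0 CertVM17.z0_0 CertVM17.al CertM.al := by
  refine ⟨?_, ?_, ?_, ?_, ?_, ?_, ?_, ?_, ?_, ?_, ?_, ?_, ?_, ?_, ?_⟩ <;> decide +kernel

theorem okJBvM18 : CertOk ixJBv (sgJBv 18) (prJBv 18) arJBvM (odJBv 18) CertVM18.A CertVM18.F_0 CertVM18.Z_0
    CertVM18.x0_0 CertVM18.z0_0 CertVM18.al CertM.al := by
  refine ⟨?_, ?_, ?_, ?_, ?_, ?_, ?_, ?_, ?_, ?_, ?_, ?_, ?_, ?_, ?_⟩ <;> decide +kernel

theorem okJBvM19 : CertOk ixJBv (sgJBv 19) (prJBv 19) arJBvM (odJBv 19) CertVM19.A CertVM19.F_0 CertVM19.Z_0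
    CertVM19.x0_0 CertVM19.z0_0 CertVM19.al CertM.al := by
  refine ⟨?_, ?_, ?_, ?_, ?_, ?_, ?_, ?_, ?_, ?_, ?_, ?_, ?_, ?_, ?_⟩ <;> decide +kernel

theorem okJBvM20 : CertOk ixJBv (sgJBv 20) (prJBv 20) arJBvM (odJBv 20) CertVM20.A CertVM20.F_0 CertVM20.Z_0
    CertVM20.x0_0 CertVM20.z0_0 CertVM20.al CertM.al := by
  refine ⟨?_, ?_, ?_, ?_, ?_, ?_, ?_, ?_, ?_, ?_, ?_, ?_, ?_, ?_, ?_⟩ <;> decide +kernel

theorem okJBvM21 : CertOk ixJBv (sgJBv 21) (prJBv 21) arJBvM (odJBv 21) CertVM21.A CertVM21.F_0 CertVM21.Z_0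
    CertVM21.x0_0 CertVM21.z0_0 CertVM21.al CertM.al := by
  refine ⟨?_, ?_, ?_, ?_, ?_, ?_, ?_, ?_, ?_, ?_, ?_, ?_, ?_, ?_, ?_⟩ <;> decide +kernel

theorem okJBvM22 : CertOk ixJBv (sgJBv 22) (prJBv 22) arJBvM (odJBv 22) CertVM22.A CertVM22.F_0 CertVM22.Z_0
    CertVM22.x0_0 CertVM22.z0_0 CertVM22.al CertM.al := by
  refine ⟨?_, ?_, ?_, ?_, ?_, ?_, ?_, ?_, ?_, ?_, ?_, ?_, ?_, ?_, ?_⟩ <;> decide +kernel

theorem okJBvM23 : CertOk ixJBv (sgJBv 23) (prJBv 23) arJBvM (odJBv 23) CertVM23.A CertVM23.F_0 CertVM23.Z_0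
    CertVM23.x0_0 CertVM23.z0_0 CertVM23.al CertM.al := by
  refine ⟨?_, ?_, ?_, ?_, ?_, ?_, ?_, ?_, ?_, ?_, ?_, ?_, ?_, ?_, ?_⟩ <;> decide +kernel

/-- **J2B ABSORBS, every form.** -/
theorem gadJBvM_abs {R Q B S : BinaryTree Unit} (hR : Q.numNodes + R.numNodes + 2 = k)
    (hB : Q.numNodes + S.numNodes + B.numNodes + 2 = k) {v : ℕ} (hv : v < 24)
    {w : ℕ → X k} (hw : ∀ i < 20, (w i).1 = w20M R Q B S i)
    (hinj : ∀ i < 20, ∀ j < 20, w i = w j → i = j)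
    (hpair : ∀ p ∈ prJBv v, TT.SameCycle (w p.1) (w p.2))
    (hsep : ∀ i ∈ nwJBv v, ∀ j ∈ nwJBv v, TT.SameCycle (w i) (w j) → i = j)
    (hold : ∀ i ∈ nwJBv v, ∀ j ∈ odJBv v, ¬ TT.SameCycle (w i) (w j)) :
    (gadJBvM v w).Abs := by
  have hw' : ∀ i ∈ ixJBv, (w i).1 = w20M R Q B S i := fun i hi => hw i (mem_ixJBv.1 hi)
  have hinj' : ∀ i ∈ ixJBv, ∀ j ∈ ixJBv, w i = w j → i = j := fun i hi j hj =>
    hinj i (mem_ixJBv.1 hi) j (mem_ixJBv.1 hj)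
  interval_cases v
  · exact gadOfM_abs hR hB okJBvM0 CertVM0.run hw' hinj' hpair hsep hold
  · exact gadOfM_abs hR hB okJBvM1 CertVM1.run hw' hinj' hpair hsep hold
  · exact gadOfM_abs hR hB okJBvM2 CertVM2.run hw' hinj' hpair hsep hold
  · exact gadOfM_abs hR hB okJBvM3 CertVM3.run hw' hinj' hpair hsep hold
  · exact gadOfM_abs hR hB okJBvM4 CertVM4.run hw' hinj' hpair hsep hold
  · exact gadOfM_abs hR hB okJBvM5 CertVM5.run hw' hinj' hpair hsep hold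
  · exact gadOfM_abs hR hB okJBvM6 CertVM6.run hw' hinj' hpair hsep hold
  · exact gadOfM_abs hR hB okJBvM7 CertVM7.run hw' hinj' hpair hsep hold
  · exact gadOfM_abs hR hB okJBvM8 CertVM8.run hw' hinj' hpair hsep hold
  · exact gadOfM_abs hR hB okJBvM9 CertVM9.run hw' hinj' hpair hsep hold
  · exact gadOfM_abs hR hB okJBvM10 CertVM10.run hw' hinj' hpair hsep hold
  · exact gadOfM_abs hR hB okJBvM11 CertVM11.run hw' hinj' hpair hsep hold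
  · exact gadOfM_abs hR hB okJBvM12 CertVM12.run hw' hinj' hpair hsep hold
  · exact gadOfM_abs hR hB okJBvM13 CertVM13.run hw' hinj' hpair hsep hold
  · exact gadOfM_abs hR hB okJBvM14 CertVM14.run hw' hinj' hpair hsep hold
  · exact gadOfM_abs hR hB okJBvM15 CertVM15.run hw' hinj' hpair hsep hold
  · exact gadOfM_abs hR hB okJBvM16 CertVM16.run hw' hinj' hpair hsep hold
  · exact gadOfM_abs hR hB okJBvM17 CertVM17.run hw' hinj' hpair hsep hold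
  · exact gadOfM_abs hR hB okJBvM18 CertVM18.run hw' hinj' hpair hsep hold
  · exact gadOfM_abs hR hB okJBvM19 CertVM19.run hw' hinj' hpair hsep hold
  · exact gadOfM_abs hR hB okJBvM20 CertVM20.run hw' hinj' hpair hsep hold
  · exact gadOfM_abs hR hB okJBvM21 CertVM21.run hw' hinj' hpair hsep hold
  · exact gadOfM_abs hR hB okJBvM22 CertVM22.run hw' hinj' hpair hsep hold
  · exact gadOfM_abs hR hB okJBvM23 CertVM23.run hw' hinj' hpair hsep hold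

theorem mem_gadJBvM {v : ℕ} {w : ℕ → X k} {x : X k} : x ∈ (gadJBvM v w).B ↔ ∃ i < 20, w i = x := by
  unfold gadJBvM
  rw [mem_gadOf_B]
  constructor
  · rintro ⟨i, hi, e⟩
    exact ⟨i, mem_ixJBv.1 hi, e⟩
  · rintro ⟨i, hi, e⟩
    exact ⟨i, mem_ixJBv.2 hi, e⟩

theorem gadJBvM_arcs {v : ℕ} {w : ℕ → X k} {p : X k × X k} : p ∈ (gadJBvM v w).arcs ↔
    p = (w 11, w 1) ∨ p = (w 12, w 3) ∨ p = (w 15, w 6) ∨ p = (w 14, w 8) := by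
  unfold gadJBvM
  rw [mem_gadOf_arcs]
  simp only [arJBvM, List.mem_cons, List.not_mem_nil, or_false]
  constructor
  · rintro ⟨r, rfl | rfl | rfl | rfl, e⟩
    · exact Or.inl e
    · exact Or.inr (Or.inl e)
    · exact Or.inr (Or.inr (Or.inl e))
    · exact Or.inr (Or.inr (Or.inr e))
  · rintro (e | e | e | e)
    · exact ⟨_, Or.inl rfl, e⟩
    · exact ⟨_, Or.inr (Or.inl rfl), e⟩
    · exact ⟨_, Or.inr (Or.inr (Or.inl rfl)), e⟩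
    · exact ⟨_, Or.inr (Or.inr (Or.inr rfl)), e⟩

theorem gadJBvM_F {v : ℕ} {w : ℕ → X k} {x : X k} : x ∈ (gadJBvM v w).F ↔ ∃ c ∈ nwJBv v, TT.SameCycle (w c) x := Iff.rfl

end Pool.OddHC
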