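import Pool.Agent.Work.MP_8f87b2_h35.Sub20
import Pool.Agent.Work.MP_8f87b2_h35.CertJNM
import Pool.Agent.Work.MP_8f87b2_h24.FRs

/-!
MP_8f87b2_co: helper47's gadget J3n, MIRROR, with its real words: the words of `w20M R nil B S` except 7 and 9. Three new
T-cycles: that of the words 0, 10, that of the words 11, 1, 5 (in this cyclic order) and that of the word 2; the other 12 words
are on other T-cycles, arcs 12 -> 3, 15 -> 6, 14 -> 8.
-/

set_option autoImplicit false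

namespace Pool.OddHC

open Finset BinaryTree Equiv

variable {k : ℕ}

/-- the numbers of the words of J3n -/
def ixJN : List ℕ := [0, 1, 2, 3, 4, 5, 6, 8, 10, 11, 12, 13, 14, 15, 16, 17, 18, 19]

/-- representatives of the new T-cycles of J3n -/
def nwJN : List ℕ := [0, 1, 2]

/-- the old words of J3n -/
def odJN : List ℕ := [3, 4, 6, 8, 12, 13, 14, 15, 16, 17, 18, 19]

/-- helper47's gadget J3n, mirror -/
noncomputable def gadJNM (w : ℕ → X k) : DG k := by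
  classical
  exact
    { B := ixJN.toFinset.image w
      F := {x | TT.SameCycle (w 0) x ∨ TT.SameCycle (w 1) x ∨ TT.SameCycle (w 2) x}
      arcs := {(w 12, w 3), (w 15, w 6), (w 14, w 8)} }

theorem mem_gadJNM_B {w : ℕ → X k} {x : X k} : x ∈ (gadJNM w).B ↔ ∃ i ∈ ixJN, w i = x := by
  classical
  change x ∈ ixJN.toFinset.image w ↔ _
  rw [mem_image]
  constructor
  · rintro ⟨i, hi, rfl⟩
    exact ⟨i, List.mem_toFinset.1 hi, rfl⟩
  · rintro ⟨i, hi, rfl⟩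
    exact ⟨i, List.mem_toFinset.2 hi, rfl⟩

theorem mem_gadJNM_F {w : ℕ → X k} {x : X k} :
    x ∈ (gadJNM w).F ↔ ∃ c ∈ nwJN, TT.SameCycle (w c) x := by
  change (TT.SameCycle (w 0) x ∨ TT.SameCycle (w 1) x ∨ TT.SameCycle (w 2) x) ↔ _
  simp only [nwJN, List.mem_cons, List.not_mem_nil, or_false, exists_eq_or_imp, exists_eq_left]

theorem JNM_next (i : ℕ) (hi : i < ixJN.length) (hb : Abs.bit CertJNM.F_0 i = true) :
    Abs.bit CertJNM.F_0 (Abs.dig CertJNM.Z_0 i) = true ∧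
    ((ixJN.getD i 0 = 0 ∧ ixJN.getD (Abs.dig CertJNM.Z_0 i) 0 = 10) ∨
      (ixJN.getD i 0 = 10 ∧ ixJN.getD (Abs.dig CertJNM.Z_0 i) 0 = 0) ∨
      (ixJN.getD i 0 = 11 ∧ ixJN.getD (Abs.dig CertJNM.Z_0 i) 0 = 1) ∨
      (ixJN.getD i 0 = 1 ∧ ixJN.getD (Abs.dig CertJNM.Z_0 i) 0 = 5) ∨
      (ixJN.getD i 0 = 5 ∧ ixJN.getD (Abs.dig CertJNM.Z_0 i) 0 = 11) ∨
      (ixJN.getD i 0 = 2 ∧ ixJN.getD (Abs.dig CertJNM.Z_0 i) 0 = 2)) := by
  have hi' : i < 18 := hi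
  interval_cases i <;> first
    | exact absurd hb (by decide)
    | exact ⟨by decide, Or.inl ⟨by decide, by decide⟩⟩
    | exact ⟨by decide, Or.inr (Or.inl ⟨by decide, by decide⟩)⟩
    | exact ⟨by decide, Or.inr (Or.inr (Or.inl ⟨by decide, by decide⟩))⟩
    | exact ⟨by decide, Or.inr (Or.inr (Or.inr (Or.inl ⟨by decide, by decide⟩)))⟩
    | exact ⟨by decide, Or.inr (Or.inr (Or.inr (Or.inr (Or.inl ⟨by decide, by decide⟩))))⟩
    | exact ⟨by decide, Or.inr (Or.inr (Or.inr (Or.inr (Or.inr ⟨by decide, by decide⟩))))⟩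

theorem JNM_arc (i : ℕ) (hi : i < ixJN.length) (hd : Abs.dig CertJNM.A i < ixJN.length) :
    (ixJN.getD i 0 = 12 ∧ ixJN.getD (Abs.dig CertJNM.A i) 0 = 3) ∨
      (ixJN.getD i 0 = 15 ∧ ixJN.getD (Abs.dig CertJNM.A i) 0 = 6) ∨
      (ixJN.getD i 0 = 14 ∧ ixJN.getD (Abs.dig CertJNM.A i) 0 = 8) := by
  have hi' : i < 18 := hi
  have hd' : Abs.dig CertJNM.A i < 18 := hd
  interval_cases i <;> first
    | exact absurd hd' (by decide)
    | exact Or.inl ⟨by decide, by decide⟩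
    | exact Or.inr (Or.inl ⟨by decide, by decide⟩)
    | exact Or.inr (Or.inr ⟨by decide, by decide⟩)

theorem JNM_al : ∀ i < ixJN.length, ∀ j < ixJN.length, Abs.bit (CertJNM.al.getD i 0) j = true →
    Abs.bit (CertM.al.getD (ixJN.getD i 0) 0) (ixJN.getD j 0) = true := by
  decide

/-- HELPER47'S GADGET J3n, MIRROR, ABSORBS. -/
theorem gadJNM_abs {R B S : BinaryTree Unit} (hR : R.numNodes + 2 = k)
    (hB : S.numNodes + B.numNodes + 2 = k)
    {w : ℕ → X k} (hw : ∀ i ∈ ixJN, (w i).1 = w20M R .nil B S i)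
    (hinj : ∀ i ∈ ixJN, ∀ j ∈ ixJN, w i = w j → i = j)
    (h10 : TT.SameCycle (w 0) (w 10))
    {C : Finset (X k)} (hC : w 1 ∈ C ∧ w 5 ∈ C ∧ w 11 ∈ C)
    (h11 : FR TT C (w 11) (w 1)) (h1 : FR TT C (w 1) (w 5)) (h5 : FR TT C (w 5) (w 11))
    (hsep : ∀ i ∈ nwJN, ∀ j ∈ nwJN, TT.SameCycle (w i) (w j) → i = j)
    (hold : ∀ i ∈ nwJN, ∀ j ∈ odJN, ¬ TT.SameCycle (w i) (w j)) :
    (gadJNM w).Abs := by
  classical
  have n0 : (0 : ℕ) ∈ nwJN := by decide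
  have n1 : (1 : ℕ) ∈ nwJN := by decide
  have n2 : (2 : ℕ) ∈ nwJN := by decide
  have sc : ∀ {u v : X k}, FR TT C u v → TT.SameCycle u v := by
    rintro u v ⟨n, hn, _⟩
    exact ⟨((n + 1 : ℕ) : ℤ), by rw [zpow_natCast]; exact hn⟩
  have s5 : TT.SameCycle (w 1) (w 5) := sc h1
  have s11 : TT.SameCycle (w 1) (w 11) := (sc h11).symm
  have hix : ∀ j ∈ ixJN, j ∈ nwJN ∨ j = 10 ∨ j = 5 ∨ j = 11 ∨ j ∈ odJN := by decide
  -- a word of the gadget on the T-cycle of `w c`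
  have hin : ∀ c ∈ nwJN, ∀ j ∈ ixJN, TT.SameCycle (w c) (w j) →
      j = c ∨ (c = 0 ∧ j = 10) ∨ (c = 1 ∧ j = 5) ∨ (c = 1 ∧ j = 11) := by
    intro c hc j hj hs
    rcases hix j hj with h | rfl | rfl | rfl | h
    · exact Or.inl (hsep c hc j h hs).symm
    · exact Or.inr (Or.inl ⟨hsep c hc 0 n0 (hs.trans h10.symm), rfl⟩)
    · exact Or.inr (Or.inr (Or.inl ⟨hsep c hc 1 n1 (hs.trans s5.symm), rfl⟩))
    · exact Or.inr (Or.inr (Or.inr ⟨hsep c hc 1 n1 (hs.trans s11.symm), rfl⟩))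
    · exact absurd hs (hold c hc j h)
  have hne0 : w 0 ≠ w 10 := by
    intro h
    have := hinj 0 (by decide) 10 (by decide) h
    omega
  have hin0 : ∀ x ∈ (gadJNM w).B, TT.SameCycle (w 0) x → x = w 0 ∨ x = w 10 := by
    intro x hx hs
    obtain ⟨j, hj, rfl⟩ := mem_gadJNM_B.1 hx
    rcases hin 0 n0 j hj hs with rfl | ⟨_, rfl⟩ | ⟨h, _⟩ | ⟨h, _⟩
    · exact Or.inl rfl
    · exact Or.inr rfl
    · omega
    · omega
  have hin1 : ∀ x ∈ (gadJNM w).B, TT.SameCycle (w 1) x → x ∈ C := by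
    intro x hx hs
    obtain ⟨j, hj, rfl⟩ := mem_gadJNM_B.1 hx
    rcases hin 1 n1 j hj hs with rfl | ⟨h, _⟩ | ⟨_, rfl⟩ | ⟨_, rfl⟩
    · exact hC.1
    · omega
    · exact hC.2.1
    · exact hC.2.2
  have hin2 : ∀ x ∈ (gadJNM w).B, TT.SameCycle (w 2) x → x = w 2 := by
    intro x hx hs
    obtain ⟨j, hj, rfl⟩ := mem_gadJNM_B.1 hx
    rcases hin 2 n2 j hj hs with rfl | ⟨h, _⟩ | ⟨h, _⟩ | ⟨h, _⟩
    · rfl
    · omega
    · omega
    · omega
  have hlt : ∀ i < ixJN.length, ixJN.getD i 0 < 20 ∧ ixJN.getD i 0 ∈ ixJN := by decide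
  apply cert_sub (gadJNM w) ixJN w
    (fun i => ((s20M R.numNodes B.numNodes S.numNodes i : ℕ) : ZMod (2 * k + 1)))
    CertJNM.A CertJNM.F_0 CertJNM.Z_0 CertJNM.x0_0 CertJNM.z0_0 CertJNM.cF_0 CertJNM.al CertJNM.code_0
    (by decide) (by decide) (fun x => mem_gadJNM_B) hinj
  · -- the new words
    have hdec : ∀ i < ixJN.length, (Abs.bit CertJNM.F_0 i = true ↔
        (ixJN.getD i 0 ∈ nwJN ∨ ixJN.getD i 0 = 10 ∨ ixJN.getD i 0 = 5 ∨ ixJN.getD i 0 = 11)) := by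
      decide
    intro i hi
    rw [hdec i hi, mem_gadJNM_F]
    constructor
    · rintro ⟨c, hc, hs⟩
      rcases hin c hc _ (hlt i hi).2 hs with h | ⟨_, h⟩ | ⟨_, h⟩ | ⟨_, h⟩
      · rw [h]
        exact Or.inl hc
      · exact Or.inr (Or.inl h)
      · exact Or.inr (Or.inr (Or.inl h))
      · exact Or.inr (Or.inr (Or.inr h))
    · rintro (h | h | h | h)
      · exact ⟨_, h, Perm.SameCycle.refl _ _⟩
      · rw [h]
        exact ⟨0, n0, h10⟩
      · rw [h]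
        exact ⟨1, n1, s5⟩
      · rw [h]
        exact ⟨1, n1, s11⟩
  · exact fun i h => bit_small (n := 18) (by decide) i h
  · intro x y hxy hx
    rw [mem_gadJNM_F] at hx ⊢
    obtain ⟨c, hc, hs⟩ := hx
    exact ⟨c, hc, hs.trans hxy⟩
  · -- arcs
    intro i hi hd
    rcases JNM_arc i hi hd with ⟨e1, e2⟩ | ⟨e1, e2⟩ | ⟨e1, e2⟩ <;> rw [e1, e2]
    · exact Or.inl rfl
    · exact Or.inr (Or.inl rfl)
    · exact Or.inr (Or.inr rfl)
  · -- first returns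
    intro i hi hb
    obtain ⟨hb', hc⟩ := JNM_next i hi hb
    refine ⟨hb', ?_⟩
    rcases hc with ⟨e1, e2⟩ | ⟨e1, e2⟩ | ⟨e1, e2⟩ | ⟨e1, e2⟩ | ⟨e1, e2⟩ | ⟨e1, e2⟩ <;> rw [e1, e2]
    · exact FR_pair TT _ _ _ (mem_gadJNM_B.2 ⟨10, by decide, rfl⟩) hne0 h10 hin0
    · refine FR_pair TT _ _ _ (mem_gadJNM_B.2 ⟨0, by decide, rfl⟩) hne0.symm h10.symm ?_
      intro x hx hs
      exact (hin0 x hx (h10.trans hs)).symm
    · exact h11.grow fun x hx hs => hin1 x hx (s11.trans hs)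
    · exact h1.grow fun x hx hs => hin1 x hx hs
    · exact h5.grow fun x hx hs => hin1 x hx (s5.trans hs)
    · exact FR_self TT _ _ hin2
  · -- the moves
    intro i hi j hj hb
    exact hfr20M_pair (Q := .nil) (by
      change 0 + R.numNodes + 2 = k
      omega) (by
      change 0 + S.numNodes + B.numNodes + 2 = k
      omega) (hlt i hi).1 (hlt j hj).1 (hw _ (hlt i hi).2) (hw _ (hlt j hj).2) (JNM_al i hi j hj hb)
  · decide
  · decide
  · decide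
  · exact CertJNM.runJNM

end Pool.OddHC
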