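import Pool.Agent.Work.MP_8f87b2_h35.Gen20
import Pool.Agent.Work.MP_8f87b2_h35.CertKE

/-!
MP_8f87b2_co: K pair {0}, {5} merged with an E pair {6, 15}, {8}, RIGHT, 13 words; arcs 3 -> 12, 9 -> 17.
-/

set_option autoImplicit false

set_option synthInstance.maxSize 1000

namespace Pool.OddHC

open Finset BinaryTree Equiv

variable {k : ℕ}

/-- numbers of the words -/
def ixKE : List ℕ := [0, 1, 2, 3, 4, 5, 6, 7, 8, 9, 12, 15, 17]

/-- new T-cycles with one word -/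
def sgKE : List ℕ := [0, 5, 8]

/-- new T-cycles with two words -/
def prKE : List (ℕ × ℕ) := [(6, 15)]

/-- arcs -/
def arKE : List (ℕ × ℕ) := [(3, 12), (9, 17)]

/-- old words -/
def odKE : List ℕ := [1, 2, 3, 4, 7, 9, 12, 17]

/-- the gadget -/
noncomputable def gadKE (w : ℕ → X k) : DG k := gadOf w ixKE (sgKE ++ prKE.map Prod.fst) arKE

theorem okKE : CertOk ixKE sgKE prKE arKE odKE CertKE.A CertKE.F_0 CertKE.Z_0 CertKE.x0_0
    CertKE.z0_0 CertKE.al Cert.al := by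
  refine ⟨?_, ?_, ?_, ?_, ?_, ?_, ?_, ?_, ?_, ?_, ?_, ?_, ?_, ?_, ?_⟩ <;> decide +kernel

/-- THE GADGET ABSORBS. -/
theorem gadKE_abs {R Q B S : BinaryTree Unit} (hR : Q.numNodes + R.numNodes + 2 = k)
    (hB : Q.numNodes + S.numNodes + B.numNodes + 2 = k)
    {w : ℕ → X k} (hw : ∀ i ∈ ixKE, (w i).1 = w20 R Q B S i)
    (hinj : ∀ i ∈ ixKE, ∀ j ∈ ixKE, w i = w j → i = j)
    (hpair : ∀ p ∈ prKE, TT.SameCycle (w p.1) (w p.2))
    (hsep : ∀ i ∈ sgKE ++ prKE.map Prod.fst, ∀ j ∈ sgKE ++ prKE.map Prod.fst,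
      TT.SameCycle (w i) (w j) → i = j)
    (hold : ∀ i ∈ sgKE ++ prKE.map Prod.fst, ∀ j ∈ odKE, ¬ TT.SameCycle (w i) (w j)) :
    (gadKE w).Abs :=
  gadOf_abs hR hB okKE CertKE.runKE hw hinj hpair hsep hold

end Pool.OddHC
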