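import Pool.Agent.Work.MP_8f87b2_h35.Gen20
import Pool.Agent.Work.MP_8f87b2_h35.CertLB1
import Pool.Agent.Work.MP_8f87b2_h35.CertLB2

/-!
MP_8f87b2_co: a window joined with the T-cycle of its word 19, RIGHT, 20 words: new T-cycles {0, 10} and that of 19 (the word 13 may
be on it or not); arcs [(1, 11), (3, 12), (6, 15), (8, 14), (9, 17)].
-/

set_option autoImplicit false

set_option synthInstance.maxSize 1000

namespace Pool.OddHC

open Finset BinaryTree Equiv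

variable {k : ℕ}

/-- numbers of the words -/
def ixLB : List ℕ := [0, 1, 2, 3, 4, 5, 6, 7, 8, 9, 10, 11, 12, 13, 14, 15, 16, 17, 18, 19]

/-- arcs -/
def arLB : List (ℕ × ℕ) := [(1, 11), (3, 12), (6, 15), (8, 14), (9, 17)]

/-- the gadget -/
noncomputable def gadLB (w : ℕ → X k) : DG k := gadOf w ixLB [19, 0] arLB

theorem okLB1 : CertOk ixLB [19] [(0, 10)] arLB [1, 2, 3, 4, 5, 6, 7, 8, 9, 11, 12, 13, 14, 15, 16, 17, 18]
    CertLB1.A CertLB1.F_0 CertLB1.Z_0 CertLB1.x0_0 CertLB1.z0_0 CertLB1.al Cert.al := by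
  refine ⟨?_, ?_, ?_, ?_, ?_, ?_, ?_, ?_, ?_, ?_, ?_, ?_, ?_, ?_, ?_⟩ <;> decide +kernel

theorem okLB2 : CertOk ixLB [] [(19, 13), (0, 10)] arLB [1, 2, 3, 4, 5, 6, 7, 8, 9, 11, 12, 14, 15, 16, 17, 18]
    CertLB2.A CertLB2.F_0 CertLB2.Z_0 CertLB2.x0_0 CertLB2.z0_0 CertLB2.al Cert.al := by
  refine ⟨?_, ?_, ?_, ?_, ?_, ?_, ?_, ?_, ?_, ?_, ?_, ?_, ?_, ?_, ?_⟩ <;> decide +kernel

/-- THE GADGET ABSORBS: `w 0`, `w 10` on one new T-cycle, `w 19` on another one, the other words are on none of the two, except that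
`w 13` may be on that of `w 19`. -/
theorem gadLB_abs {R Q B S : BinaryTree Unit} (hR : Q.numNodes + R.numNodes + 2 = k)
    (hB : Q.numNodes + S.numNodes + B.numNodes + 2 = k)
    {w : ℕ → X k} (hw : ∀ i < 20, (w i).1 = w20 R Q B S i)
    (hinj : ∀ i < 20, ∀ j < 20, w i = w j → i = j)
    (h010 : TT.SameCycle (w 0) (w 10)) (h019 : ¬ TT.SameCycle (w 0) (w 19))
    (h0 : ∀ i < 20, i ≠ 0 → i ≠ 10 → i ≠ 19 → ¬ TT.SameCycle (w 0) (w i))
    (h19 : ∀ i < 20, i ≠ 0 → i ≠ 10 → i ≠ 13 → i ≠ 19 → ¬ TT.SameCycle (w 19) (w i)) :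
    (gadLB w).Abs := by
  classical
  have ix : ∀ i ∈ ixLB, i < 20 := by decide
  have hw' : ∀ i ∈ ixLB, (w i).1 = w20 R Q B S i := fun i hi => hw i (ix i hi)
  have hinj' : ∀ i ∈ ixLB, ∀ j ∈ ixLB, w i = w j → i = j := fun i hi j hj => hinj i (ix i hi) j (ix j hj)
  have hsep : ∀ i ∈ [19, 0], ∀ j ∈ [19, 0], TT.SameCycle (w i) (w j) → i = j := by
    intro i hi j hj e
    simp only [List.mem_cons, List.not_mem_nil, or_false] at hi hj
    rcases hi with rfl | rfl <;> rcases hj with rfl | rfl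
    · rfl
    · exact absurd e.symm h019
    · exact absurd e h019
    · rfl
  by_cases h13 : TT.SameCycle (w 19) (w 13)
  · refine gadOf_abs (sg := []) (pr := [(19, 13), (0, 10)]) hR hB okLB2 CertLB2.runLB2 hw' hinj' ?_ hsep ?_
    · intro p hp
      simp only [List.mem_cons, List.not_mem_nil, or_false] at hp
      rcases hp with rfl | rfl
      · exact h13
      · exact h010
    · intro i hi j hj
      have hi' : i = 19 ∨ i = 0 := by simpa using hi
      have hj' : j ∈ [1, 2, 3, 4, 5, 6, 7, 8, 9, 11, 12, 14, 15, 16, 17, 18] := hj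
      have hj20 : ∀ j ∈ [1, 2, 3, 4, 5, 6, 7, 8, 9, 11, 12, 14, 15, 16, 17, 18], j < 20 ∧ j ≠ 0 ∧ j ≠ 10 ∧
          j ≠ 13 ∧ j ≠ 19 := by decide
      obtain ⟨a, b, c, d, e⟩ := hj20 j hj'
      rcases hi' with rfl | rfl
      · exact h19 j a b c d e
      · exact h0 j a b c e
  · refine gadOf_abs (sg := [19]) (pr := [(0, 10)]) hR hB okLB1 CertLB1.runLB1 hw' hinj' ?_ hsep ?_
    · intro p hp
      simp only [List.mem_cons, List.not_mem_nil, or_false] at hp
      subst hp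
      exact h010
    · intro i hi j hj
      have hi' : i = 19 ∨ i = 0 := by simpa using hi
      have hj' : j ∈ [1, 2, 3, 4, 5, 6, 7, 8, 9, 11, 12, 13, 14, 15, 16, 17, 18] := hj
      have hj20 : ∀ j ∈ [1, 2, 3, 4, 5, 6, 7, 8, 9, 11, 12, 13, 14, 15, 16, 17, 18], j < 20 ∧ j ≠ 0 ∧ j ≠ 10 ∧
          j ≠ 19 := by decide
      obtain ⟨a, b, c, e⟩ := hj20 j hj'
      rcases hi' with rfl | rfl
      · by_cases d : j = 13
        · subst d
          exact h13
        · exact h19 j a b c d e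
      · exact h0 j a b c e

end Pool.OddHC
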