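import Pool.Agent.Work.MP_8f87b2_h35.Gen20L
import Pool.Agent.Work.MP_8f87b2_h35.CertP1

/-!
MP_8f87b2_co: beta nodes, form P1 (helper6), RIGHT, 20 words: new T-cycles {0, 10, 13, 4}, {1, 11, 16, 5}, {2, 18} (cyclic orders);
arcs 3 -> 12, 6 -> 15, 8 -> 14, 9 -> 17.
-/

set_option autoImplicit false

set_option synthInstance.maxSize 1000

namespace Pool.OddHC

open Finset BinaryTree Equiv

variable {k : ℕ}

/-- numbers of the words -/
def ixP1 : List ℕ := [0, 1, 2, 3, 4, 5, 6, 7, 8, 9, 10, 11, 12, 13, 14, 15, 16, 17, 18, 19]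

/-- the new T-cycles, each one the list of its words in the cyclic order -/
def cyP1 : List (List ℕ) := [[0, 10, 13, 4], [1, 11, 16, 5], [2, 18]]

/-- arcs -/
def arP1 : List (ℕ × ℕ) := [(3, 12), (6, 15), (8, 14), (9, 17)]

/-- old words -/
def odP1 : List ℕ := [3, 6, 7, 8, 9, 12, 14, 15, 17, 19]

/-- one word of each new T-cycle -/
def nwP1 : List ℕ := [0, 1, 2]

/-- the gadget -/
noncomputable def gadP1 (w : ℕ → X k) : DG k := gadOf w ixP1 nwP1 arP1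

theorem okP1 : CertOkL ixP1 cyP1 arP1 odP1 CertP1.A CertP1.F_0 CertP1.Z_0 CertP1.x0_0
    CertP1.z0_0 CertP1.al Cert.al := by
  refine ⟨?_, ?_, ?_, ?_, ?_, ?_, ?_, ?_, ?_, ?_, ?_, ?_, ?_, ?_⟩ <;>
    decide +kernel

/-- THE GADGET ABSORBS. -/
theorem gadP1_abs {R Q B S : BinaryTree Unit} (hR : Q.numNodes + R.numNodes + 2 = k)
    (hB : Q.numNodes + S.numNodes + B.numNodes + 2 = k)
    {w : ℕ → X k} (hw : ∀ i ∈ ixP1, (w i).1 = w20 R Q B S i)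
    (hinj : ∀ i ∈ ixP1, ∀ j ∈ ixP1, w i = w j → i = j)
    (hsame : ∀ c ∈ cyP1, ∀ i ∈ c, TT.SameCycle (w (c.headD 0)) (w i))
    (hfrc : ∀ c ∈ cyP1, ∀ p ∈ nxL c, ∃ C : Finset (X k), (∀ i ∈ c, w i ∈ C) ∧
      FR TT C (w p.1) (w p.2))
    (hsep : ∀ i ∈ nwP1, ∀ j ∈ nwP1, TT.SameCycle (w i) (w j) → i = j)
    (hold : ∀ i ∈ nwP1, ∀ j ∈ odP1, ¬ TT.SameCycle (w i) (w j)) :
    (gadP1 w).Abs :=
  gadOfL_abs hR hB okP1 CertP1.runP1 hw hinj hsame hfrc hsep hold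

end Pool.OddHC
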