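import Pool.Agent.Work.MP_8f87b2_h35.Gen20
import Pool.Agent.Work.MP_8f87b2_h35.CertQ1M

/-!
MP_8f87b2_co: JE1, MIRROR: ten words, new T-cycles {0}, {4}, {6, 15}, {8}; arcs 12 -> 3, 17 -> 9.
-/

set_option autoImplicit false

set_option synthInstance.maxSize 1000

namespace Pool.OddHC

open Finset BinaryTree Equiv

variable {k : ℕ}

/-- numbers of the words -/
def ixQ1M : List ℕ := [0, 3, 4, 6, 7, 8, 9, 12, 15, 17]

/-- new T-cycles with one word -/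
def sgQ1M : List ℕ := [0, 4, 8]

/-- new T-cycles with two words -/
def prQ1M : List (ℕ × ℕ) := [(6, 15)]

/-- arcs -/
def arQ1M : List (ℕ × ℕ) := [(12, 3), (17, 9)]

/-- old words -/
def odQ1M : List ℕ := [3, 7, 9, 12, 17]

/-- the gadget -/
noncomputable def gadQ1M (w : ℕ → X k) : DG k := gadOf w ixQ1M (sgQ1M ++ prQ1M.map Prod.fst) arQ1M

theorem okQ1M : CertOk ixQ1M sgQ1M prQ1M arQ1M odQ1M CertQ1M.A CertQ1M.F_0 CertQ1M.Z_0 CertQ1M.x0_0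
    CertQ1M.z0_0 CertQ1M.al CertM.al := by
  refine ⟨?_, ?_, ?_, ?_, ?_, ?_, ?_, ?_, ?_, ?_, ?_, ?_, ?_, ?_, ?_⟩ <;> decide +kernel

/-- THE GADGET ABSORBS. -/
theorem gadQ1M_abs {R Q B S : BinaryTree Unit} (hR : Q.numNodes + R.numNodes + 2 = k)
    (hB : Q.numNodes + S.numNodes + B.numNodes + 2 = k)
    {w : ℕ → X k} (hw : ∀ i ∈ ixQ1M, (w i).1 = w20M R Q B S i)
    (hinj : ∀ i ∈ ixQ1M, ∀ j ∈ ixQ1M, w i = w j → i = j)
    (hpair : ∀ p ∈ prQ1M, TT.SameCycle (w p.1) (w p.2))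
    (hsep : ∀ i ∈ sgQ1M ++ prQ1M.map Prod.fst, ∀ j ∈ sgQ1M ++ prQ1M.map Prod.fst,
      TT.SameCycle (w i) (w j) → i = j)
    (hold : ∀ i ∈ sgQ1M ++ prQ1M.map Prod.fst, ∀ j ∈ odQ1M, ¬ TT.SameCycle (w i) (w j)) :
    (gadQ1M w).Abs :=
  gadOfM_abs hR hB okQ1M CertQ1M.runQ1M hw hinj hpair hsep hold

end Pool.OddHC
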