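import Pool.Agent.Work.MP_8f87b2_h35.Gen20
import Pool.Agent.Work.MP_8f87b2_h35.CertQ2

/-!
MP_8f87b2_co: JE2 = a pair JV merged with the E pair over X = (S)B (Q = nil), RIGHT: the nine words, new T-cycles {0} = R(()), {4} = (())R, {3, 12} = (R()), X(), {6, 15} = (R)(), ()X; old 7 = (()R), 9 = ((R)), 17 = (X); arc 9 -> 17.
-/

set_option autoImplicit false

set_option synthInstance.maxSize 1000

namespace Pool.OddHC

open Finset BinaryTree Equiv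

variable {k : ℕ}

/-- numbers of the words -/
def ixQ2 : List ℕ := [0, 3, 4, 6, 7, 9, 12, 15, 17]

/-- new T-cycles with one word -/
def sgQ2 : List ℕ := [0, 4]

/-- new T-cycles with two words -/
def prQ2 : List (ℕ × ℕ) := [(3, 12), (6, 15)]

/-- arcs -/
def arQ2 : List (ℕ × ℕ) := [(9, 17)]

/-- old words -/
def odQ2 : List ℕ := [7, 9, 17]

/-- the gadget -/
noncomputable def gadQ2 (w : ℕ → X k) : DG k := gadOf w ixQ2 (sgQ2 ++ prQ2.map Prod.fst) arQ2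

theorem okQ2 : CertOk ixQ2 sgQ2 prQ2 arQ2 odQ2 CertQ2.A CertQ2.F_0 CertQ2.Z_0 CertQ2.x0_0
    CertQ2.z0_0 CertQ2.al Cert.al := by
  refine ⟨?_, ?_, ?_, ?_, ?_, ?_, ?_, ?_, ?_, ?_, ?_, ?_, ?_, ?_, ?_⟩ <;> decide +kernel

/-- THE GADGET ABSORBS. -/
theorem gadQ2_abs {R Q B S : BinaryTree Unit} (hR : Q.numNodes + R.numNodes + 2 = k)
    (hB : Q.numNodes + S.numNodes + B.numNodes + 2 = k)
    {w : ℕ → X k} (hw : ∀ i ∈ ixQ2, (w i).1 = w20 R Q B S i)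
    (hinj : ∀ i ∈ ixQ2, ∀ j ∈ ixQ2, w i = w j → i = j)
    (hpair : ∀ p ∈ prQ2, TT.SameCycle (w p.1) (w p.2))
    (hsep : ∀ i ∈ sgQ2 ++ prQ2.map Prod.fst, ∀ j ∈ sgQ2 ++ prQ2.map Prod.fst,
      TT.SameCycle (w i) (w j) → i = j)
    (hold : ∀ i ∈ sgQ2 ++ prQ2.map Prod.fst, ∀ j ∈ odQ2, ¬ TT.SameCycle (w i) (w j)) :
    (gadQ2 w).Abs :=
  gadOf_abs hR hB okQ2 CertQ2.runQ2 hw hinj hpair hsep hold

end Pool.OddHC
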