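import Pool.Agent.Work.MP_8f87b2_h35.Gen20
import Pool.Agent.Work.MP_8f87b2_h24.FRs

/-!
MP_8f87b2_co: generic gadgets on a part of the twenty words, new T-cycles with any number of words: `cy` = the list of the new
T-cycles, each one the list of its words in the cyclic order.
-/

set_option autoImplicit false

namespace Pool.OddHC

open Finset BinaryTree Equiv

variable {k : ℕ}

/-- the pairs (word, next word) of a new T-cycle -/
def nxL (c : List ℕ) : List (ℕ × ℕ) := c.zip (c.rotate 1)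

/-- one word of each new T-cycle -/
def hdL (cy : List (List ℕ)) : List ℕ := cy.map fun c => c.headD 0

/-- the combinatorial part of a certificate (decidable) -/
def CertOkL (idx : List ℕ) (cy : List (List ℕ)) (ar : List (ℕ × ℕ))
    (od : List ℕ) (A F Z x0 z0 : ℕ) (al al20 : List ℕ) : Prop :=
  al.length = idx.length ∧ idx.Nodup ∧ (∀ i ∈ idx, i < 20) ∧
  (∀ j ∈ idx, (∃ c ∈ cy, j ∈ c) ∨ j ∈ od) ∧
  (∀ c ∈ cy, c.headD 0 ∈ c ∧ ∀ j ∈ c, j ∈ idx) ∧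
  (∀ c ∈ cy, ∀ d ∈ cy, c.headD 0 = d.headD 0 → c = d) ∧
  F < 2 ^ idx.length ∧
  (∀ i < idx.length, (Abs.bit F i = true ↔ ∃ c ∈ cy, idx.getD i 0 ∈ c)) ∧
  (∀ i < idx.length, Abs.dig A i < idx.length → (idx.getD i 0, idx.getD (Abs.dig A i) 0) ∈ ar) ∧
  (∀ i < idx.length, Abs.bit F i = true → Abs.bit F (Abs.dig Z i) = true ∧
    ∃ c ∈ cy, (idx.getD i 0, idx.getD (Abs.dig Z i) 0) ∈ nxL c) ∧
  (∀ i < idx.length, ∀ j < idx.length, Abs.bit (al.getD i 0) j = true →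
    Abs.bit (al20.getD (idx.getD i 0) 0) (idx.getD j 0) = true) ∧
  x0 < idx.length ∧ Abs.bit F x0 = false ∧ Abs.bit F z0 = true

theorem nxL_mem {c : List ℕ} {p : ℕ × ℕ} (h : p ∈ nxL c) : p.1 ∈ c ∧ p.2 ∈ c := by
  obtain ⟨h1, h2⟩ := List.of_mem_zip (show (p.1, p.2) ∈ c.zip (c.rotate 1) from h)
  exact ⟨h1, List.mem_rotate.1 h2⟩

theorem gadOfL_abs_aux {w : ℕ → X k} {idx : List ℕ} {cy : List (List ℕ)}
    {ar : List (ℕ × ℕ)} {od : List ℕ}
    {A F Z x0 z0 cF : ℕ} {al al20 code : List ℕ} (s : ℕ → ZMod (2 * k + 1))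
    (hok : CertOkL idx cy ar od A F Z x0 z0 al al20)
    (hrun : Abs.run A F Z x0 z0 cF al code [[x0]] = true)
    (hinj : ∀ i ∈ idx, ∀ j ∈ idx, w i = w j → i = j)
    (hsame : ∀ c ∈ cy, ∀ i ∈ c, TT.SameCycle (w (c.headD 0)) (w i))
    (hfrc : ∀ c ∈ cy, ∀ p ∈ nxL c, ∃ C : Finset (X k), (∀ i ∈ c, w i ∈ C) ∧ FR TT C (w p.1) (w p.2))
    (hsep : ∀ i ∈ hdL cy, ∀ j ∈ hdL cy, TT.SameCycle (w i) (w j) → i = j)
    (hold : ∀ i ∈ hdL cy, ∀ j ∈ od, ¬ TT.SameCycle (w i) (w j))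
    (hfr : ∀ i ∈ idx, ∀ j ∈ idx, Abs.bit (al20.getD i 0) j = true →
      io (w i) (s i) ⊆ insert (s j) (io (w j) (s j))) :
    (gadOf w idx (hdL cy) ar).Abs := by
  classical
  obtain ⟨hlen, hnd, h20, hix, hci, hcu, hFlt, hFbit, harc, hnext, hal, hx0, hx0F, hz0F⟩ := hok
  set rp := hdL cy with hrp
  set g := gadOf w idx rp ar with hg
  have hmem : ∀ i < idx.length, idx.getD i 0 ∈ idx := by
    intro i hi
    rw [List.getD_eq_getElem _ _ hi]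
    exact List.getElem_mem hi
  have hhd : ∀ c ∈ cy, c.headD 0 ∈ rp := fun c hc => List.mem_map_of_mem hc
  have hrpc : ∀ i ∈ rp, ∃ c ∈ cy, c.headD 0 = i := fun i hi => List.mem_map.1 hi
  -- the words of the gadget on the T-cycle of `c`
  have hin : ∀ c ∈ cy, ∀ j ∈ idx, TT.SameCycle (w (c.headD 0)) (w j) → j ∈ c := by
    intro c hc j hj hs
    rcases hix j hj with ⟨d, hd, hjd⟩ | h
    · have h1 := hsep _ (hhd c hc) _ (hhd d hd) (hs.trans (hsame d hd j hjd).symm)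
      rw [hcu c hc d hd h1]
      exact hjd
    · exact absurd hs (hold _ (hhd c hc) j h)
  apply cert_sub g idx w s A F Z x0 z0 cF al code hlen hnd (fun x => mem_gadOf_B) hinj
  · -- the new words
    intro i hi
    rw [hFbit i hi, mem_gadOf_F]
    constructor
    · rintro ⟨c, hc, hs⟩
      obtain ⟨d, hd, rfl⟩ := hrpc c hc
      exact ⟨d, hd, hin d hd _ (hmem i hi) hs⟩
    · rintro ⟨c, hc, h⟩
      exact ⟨_, hhd c hc, hsame c hc _ h⟩
  · exact fun i h => bit_small hFlt i h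
  · intro x y hxy hx
    rw [mem_gadOf_F] at hx ⊢
    obtain ⟨c, hc, hs⟩ := hx
    exact ⟨c, hc, hs.trans hxy⟩
  · -- arcs
    intro i hi hd
    exact mem_gadOf_arcs.2 ⟨_, harc i hi hd, rfl⟩
  · -- first returns
    intro i hi hb
    obtain ⟨hb', c, hc, hn⟩ := hnext i hi hb
    refine ⟨hb', ?_⟩
    obtain ⟨C, hC, hf⟩ := hfrc c hc _ hn
    refine hf.grow fun x hx hs => ?_
    obtain ⟨j, hj, rfl⟩ := mem_gadOf_B.1 hx
    exact hC j (hin c hc j hj ((hsame c hc _ (nxL_mem hn).1).trans hs))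
  · intro i hi j hj hb
    exact hfr _ (hmem i hi) _ (hmem j hj) (hal i hi j hj hb)
  · exact hx0
  · exact hx0F
  · exact hz0F
  · exact hrun

/-- direct words -/
theorem gadOfL_abs {R Q B S : BinaryTree Unit} (hR : Q.numNodes + R.numNodes + 2 = k)
    (hB : Q.numNodes + S.numNodes + B.numNodes + 2 = k)
    {w : ℕ → X k} {idx : List ℕ} {cy : List (List ℕ)}
    {ar : List (ℕ × ℕ)} {od : List ℕ}
    {A F Z x0 z0 cF : ℕ} {al code : List ℕ}
    (hok : CertOkL idx cy ar od A F Z x0 z0 al Cert.al)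
    (hrun : Abs.run A F Z x0 z0 cF al code [[x0]] = true)
    (hw : ∀ i ∈ idx, (w i).1 = w20 R Q B S i)
    (hinj : ∀ i ∈ idx, ∀ j ∈ idx, w i = w j → i = j)
    (hsame : ∀ c ∈ cy, ∀ i ∈ c, TT.SameCycle (w (c.headD 0)) (w i))
    (hfrc : ∀ c ∈ cy, ∀ p ∈ nxL c, ∃ C : Finset (X k), (∀ i ∈ c, w i ∈ C) ∧ FR TT C (w p.1) (w p.2))
    (hsep : ∀ i ∈ hdL cy, ∀ j ∈ hdL cy, TT.SameCycle (w i) (w j) → i = j)
    (hold : ∀ i ∈ hdL cy, ∀ j ∈ od, ¬ TT.SameCycle (w i) (w j)) :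
    (gadOf w idx (hdL cy) ar).Abs :=
  gadOfL_abs_aux (fun i => ((s20 Q.numNodes S.numNodes i : ℕ) : ZMod (2 * k + 1))) hok hrun hinj
    hsame hfrc hsep hold fun i hi j hj hb =>
      hfr20_pair hR hB (hok.2.2.1 i hi) (hok.2.2.1 j hj) (hw i hi) (hw j hj) hb

/-- mirrored words -/
theorem gadOfML_abs {R Q B S : BinaryTree Unit} (hR : Q.numNodes + R.numNodes + 2 = k)
    (hB : Q.numNodes + S.numNodes + B.numNodes + 2 = k)
    {w : ℕ → X k} {idx : List ℕ} {cy : List (List ℕ)}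
    {ar : List (ℕ × ℕ)} {od : List ℕ}
    {A F Z x0 z0 cF : ℕ} {al code : List ℕ}
    (hok : CertOkL idx cy ar od A F Z x0 z0 al CertM.al)
    (hrun : Abs.run A F Z x0 z0 cF al code [[x0]] = true)
    (hw : ∀ i ∈ idx, (w i).1 = w20M R Q B S i)
    (hinj : ∀ i ∈ idx, ∀ j ∈ idx, w i = w j → i = j)
    (hsame : ∀ c ∈ cy, ∀ i ∈ c, TT.SameCycle (w (c.headD 0)) (w i))
    (hfrc : ∀ c ∈ cy, ∀ p ∈ nxL c, ∃ C : Finset (X k), (∀ i ∈ c, w i ∈ C) ∧ FR TT C (w p.1) (w p.2))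
    (hsep : ∀ i ∈ hdL cy, ∀ j ∈ hdL cy, TT.SameCycle (w i) (w j) → i = j)
    (hold : ∀ i ∈ hdL cy, ∀ j ∈ od, ¬ TT.SameCycle (w i) (w j)) :
    (gadOf w idx (hdL cy) ar).Abs :=
  gadOfL_abs_aux (fun i => ((s20M R.numNodes B.numNodes S.numNodes i : ℕ) : ZMod (2 * k + 1))) hok
    hrun hinj hsame hfrc hsep hold fun i hi j hj hb =>
      hfr20M_pair hR hB (hok.2.2.1 i hi) (hok.2.2.1 j hj) (hw i hi) (hw j hj) hb

end Pool.OddHC
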