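import Pool.Agent.Work.MP_8f87b2_h35.Gen20
import Pool.Agent.Work.MP_8f87b2_h24.FRs

/-!
MP_8f87b2_co: generic gadgets on a part of the twenty words, new T-cycles with one, two or three words: one for every `c ∈ sg`
(only the word `c`), one for every pair `p ∈ pr` (the words `p.1`, `p.2`), one for every triple `t ∈ tr` (the words `t.1`,
`t.2.1`, `t.2.2` in this cyclic order).
-/

set_option autoImplicit false

namespace Pool.OddHC

open Finset BinaryTree Equiv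

variable {k : ℕ}

/-- representatives of the new T-cycles -/
def rpT (sg : List ℕ) (pr : List (ℕ × ℕ)) (tr : List (ℕ × ℕ × ℕ)) : List ℕ :=
  sg ++ (pr.map Prod.fst ++ tr.map Prod.fst)

/-- the combinatorial part of a certificate (decidable) -/
def CertOkT (idx sg : List ℕ) (pr : List (ℕ × ℕ)) (tr : List (ℕ × ℕ × ℕ)) (ar : List (ℕ × ℕ))
    (od : List ℕ) (A F Z x0 z0 : ℕ) (al al20 : List ℕ) : Prop :=
  al.length = idx.length ∧ idx.Nodup ∧ (∀ i ∈ idx, i < 20) ∧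
  (∀ j ∈ idx, j ∈ sg ∨ (∃ p ∈ pr, j = p.1 ∨ j = p.2) ∨
    (∃ t ∈ tr, j = t.1 ∨ j = t.2.1 ∨ j = t.2.2) ∨ j ∈ od) ∧
  (∀ p ∈ pr, p.1 ∈ idx ∧ p.2 ∈ idx ∧ p.1 ≠ p.2) ∧ (∀ p ∈ pr, ∀ q ∈ pr, p.1 = q.1 → p.2 = q.2) ∧
  (∀ p ∈ pr, p.1 ∉ sg) ∧
  (∀ t ∈ tr, t.1 ∈ idx) ∧ (∀ t ∈ tr, ∀ u ∈ tr, t.1 = u.1 → t = u) ∧
  (∀ t ∈ tr, t.1 ∉ sg) ∧ (∀ t ∈ tr, ∀ p ∈ pr, t.1 ≠ p.1) ∧
  F < 2 ^ idx.length ∧
  (∀ i < idx.length, (Abs.bit F i = true ↔
    (idx.getD i 0 ∈ sg ∨ (∃ p ∈ pr, idx.getD i 0 = p.1 ∨ idx.getD i 0 = p.2) ∨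
      (∃ t ∈ tr, idx.getD i 0 = t.1 ∨ idx.getD i 0 = t.2.1 ∨ idx.getD i 0 = t.2.2)))) ∧
  (∀ i < idx.length, Abs.dig A i < idx.length → (idx.getD i 0, idx.getD (Abs.dig A i) 0) ∈ ar) ∧
  (∀ i < idx.length, Abs.bit F i = true → Abs.bit F (Abs.dig Z i) = true ∧
    ((idx.getD i 0 ∈ sg ∧ idx.getD (Abs.dig Z i) 0 = idx.getD i 0) ∨
      ((idx.getD i 0, idx.getD (Abs.dig Z i) 0) ∈ pr ∨
      (idx.getD (Abs.dig Z i) 0, idx.getD i 0) ∈ pr) ∨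
      (∃ t ∈ tr, (idx.getD i 0 = t.1 ∧ idx.getD (Abs.dig Z i) 0 = t.2.1) ∨
        (idx.getD i 0 = t.2.1 ∧ idx.getD (Abs.dig Z i) 0 = t.2.2) ∨
        (idx.getD i 0 = t.2.2 ∧ idx.getD (Abs.dig Z i) 0 = t.1)))) ∧
  (∀ i < idx.length, ∀ j < idx.length, Abs.bit (al.getD i 0) j = true →
    Abs.bit (al20.getD (idx.getD i 0) 0) (idx.getD j 0) = true) ∧
  x0 < idx.length ∧ Abs.bit F x0 = false ∧ Abs.bit F z0 = true

theorem FR.same {W : Type} {f : Perm W} {C : Finset W} {u v : W} (h : FR f C u v) :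
    f.SameCycle u v := by
  obtain ⟨n, hn, _⟩ := h
  exact ⟨((n + 1 : ℕ) : ℤ), by rw [zpow_natCast]; exact hn⟩

theorem gadOfT_abs_aux {w : ℕ → X k} {idx sg : List ℕ} {pr : List (ℕ × ℕ)}
    {tr : List (ℕ × ℕ × ℕ)} {ar : List (ℕ × ℕ)} {od : List ℕ}
    {A F Z x0 z0 cF : ℕ} {al al20 code : List ℕ} (s : ℕ → ZMod (2 * k + 1))
    (hok : CertOkT idx sg pr tr ar od A F Z x0 z0 al al20)
    (hrun : Abs.run A F Z x0 z0 cF al code [[x0]] = true)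
    (hinj : ∀ i ∈ idx, ∀ j ∈ idx, w i = w j → i = j)
    (hpair : ∀ p ∈ pr, TT.SameCycle (w p.1) (w p.2))
    (htr : ∀ t ∈ tr, ∃ C : Finset (X k), (w t.1 ∈ C ∧ w t.2.1 ∈ C ∧ w t.2.2 ∈ C) ∧
      FR TT C (w t.1) (w t.2.1) ∧ FR TT C (w t.2.1) (w t.2.2) ∧ FR TT C (w t.2.2) (w t.1))
    (hsep : ∀ i ∈ rpT sg pr tr, ∀ j ∈ rpT sg pr tr, TT.SameCycle (w i) (w j) → i = j)
    (hold : ∀ i ∈ rpT sg pr tr, ∀ j ∈ od, ¬ TT.SameCycle (w i) (w j))
    (hfr : ∀ i ∈ idx, ∀ j ∈ idx, Abs.bit (al20.getD i 0) j = true →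
      io (w i) (s i) ⊆ insert (s j) (io (w j) (s j))) :
    (gadOf w idx (rpT sg pr tr) ar).Abs := by
  classical
  obtain ⟨hlen, hnd, h20, hix, hprix, hpru, hprs, htrix, htru, htrs, htrp, hFlt, hFbit, harc, hnext,
    hal, hx0, hx0F, hz0F⟩ := hok
  set rp := rpT sg pr tr with hrp
  set g := gadOf w idx rp ar with hg
  have hmem : ∀ i < idx.length, idx.getD i 0 ∈ idx := by
    intro i hi
    rw [List.getD_eq_getElem _ _ hi]
    exact List.getElem_mem hi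
  have hsg : ∀ c ∈ sg, c ∈ rp := fun c hc => List.mem_append_left _ hc
  have hpr : ∀ p ∈ pr, p.1 ∈ rp := fun p hp =>
    List.mem_append_right _ (List.mem_append_left _ (List.mem_map_of_mem hp))
  have htr' : ∀ t ∈ tr, t.1 ∈ rp := fun p hp =>
    List.mem_append_right _ (List.mem_append_right _ (List.mem_map_of_mem hp))
  have ts1 : ∀ t ∈ tr, TT.SameCycle (w t.1) (w t.2.1) := by
    intro t ht
    obtain ⟨C, _, h1, _, _⟩ := htr t ht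
    exact h1.same
  have ts2 : ∀ t ∈ tr, TT.SameCycle (w t.1) (w t.2.2) := by
    intro t ht
    obtain ⟨C, _, _, _, h3⟩ := htr t ht
    exact h3.same.symm
  -- a word of the gadget on the T-cycle of `w c`
  have hin : ∀ c ∈ rp, ∀ j ∈ idx, TT.SameCycle (w c) (w j) →
      j = c ∨ (∃ p ∈ pr, c = p.1 ∧ j = p.2) ∨ (∃ t ∈ tr, c = t.1 ∧ (j = t.2.1 ∨ j = t.2.2)) := by
    intro c hc j hj hs
    rcases hix j hj with h | ⟨p, hp, h | h⟩ | ⟨t, ht, h | h | h⟩ | h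
    · exact Or.inl (hsep c hc j (hsg j h) hs).symm
    · rw [h] at hs ⊢
      exact Or.inl (hsep c hc p.1 (hpr p hp) hs).symm
    · refine Or.inr (Or.inl ⟨p, hp, ?_, h⟩)
      rw [h] at hs
      exact hsep c hc p.1 (hpr p hp) (hs.trans (hpair p hp).symm)
    · rw [h] at hs ⊢
      exact Or.inl (hsep c hc t.1 (htr' t ht) hs).symm
    · refine Or.inr (Or.inr ⟨t, ht, ?_, Or.inl h⟩)
      rw [h] at hs
      exact hsep c hc t.1 (htr' t ht) (hs.trans (ts1 t ht).symm)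
    · refine Or.inr (Or.inr ⟨t, ht, ?_, Or.inr h⟩)
      rw [h] at hs
      exact hsep c hc t.1 (htr' t ht) (hs.trans (ts2 t ht).symm)
    · exact absurd hs (hold c hc j h)
  have hpin : ∀ p ∈ pr, ∀ x ∈ g.B, TT.SameCycle (w p.1) x → x = w p.1 ∨ x = w p.2 := by
    intro p hp x hx hs
    obtain ⟨j, hj, rfl⟩ := mem_gadOf_B.1 hx
    rcases hin p.1 (hpr p hp) j hj hs with rfl | ⟨q, hq, h1, rfl⟩ | ⟨t, ht, h1, _⟩
    · exact Or.inl rfl
    · right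
      rw [hpru p hp q hq h1]
    · exact absurd h1.symm (htrp t ht p hp)
  have hsgin : ∀ c ∈ sg, ∀ x ∈ g.B, TT.SameCycle (w c) x → x = w c := by
    intro c hc x hx hs
    obtain ⟨j, hj, rfl⟩ := mem_gadOf_B.1 hx
    rcases hin c (hsg c hc) j hj hs with rfl | ⟨q, hq, h1, _⟩ | ⟨t, ht, h1, _⟩
    · rfl
    · exact absurd (h1 ▸ hc) (hprs q hq)
    · exact absurd (h1 ▸ hc) (htrs t ht)
  have htin : ∀ t ∈ tr, ∀ x ∈ g.B, TT.SameCycle (w t.1) x → x = w t.1 ∨ x = w t.2.1 ∨ x = w t.2.2 := by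
    intro t ht x hx hs
    obtain ⟨j, hj, rfl⟩ := mem_gadOf_B.1 hx
    rcases hin t.1 (htr' t ht) j hj hs with rfl | ⟨q, hq, h1, _⟩ | ⟨u, hu, h1, h2⟩
    · exact Or.inl rfl
    · exact absurd h1 (htrp t ht q hq)
    · have : t = u := htru t ht u hu h1
      subst this
      rcases h2 with h2 | h2
      · exact Or.inr (Or.inl (by rw [h2]))
      · exact Or.inr (Or.inr (by rw [h2]))
  apply cert_sub g idx w s A F Z x0 z0 cF al code hlen hnd (fun x => mem_gadOf_B) hinj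
  · -- the new words
    intro i hi
    rw [hFbit i hi, mem_gadOf_F]
    constructor
    · rintro ⟨c, hc, hs⟩
      rcases hix _ (hmem i hi) with h | h | h | h
      · exact Or.inl h
      · exact Or.inr (Or.inl h)
      · exact Or.inr (Or.inr h)
      · exact absurd hs (hold c hc _ h)
    · rintro (h | ⟨p, hp, h | h⟩ | ⟨t, ht, h | h | h⟩)
      · exact ⟨_, hsg _ h, Perm.SameCycle.refl _ _⟩
      · rw [h]
        exact ⟨p.1, hpr p hp, Perm.SameCycle.refl _ _⟩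
      · rw [h]
        exact ⟨p.1, hpr p hp, hpair p hp⟩
      · rw [h]
        exact ⟨t.1, htr' t ht, Perm.SameCycle.refl _ _⟩
      · rw [h]
        exact ⟨t.1, htr' t ht, ts1 t ht⟩
      · rw [h]
        exact ⟨t.1, htr' t ht, ts2 t ht⟩
  · exact fun i h => bit_small hFlt i h
  · intro x y hxy hx
    rw [mem_gadOf_F] at hx ⊢
    obtain ⟨c, hc, hs⟩ := hx
    exact ⟨c, hc, hs.trans hxy⟩
  · -- arcs
    intro i hi hd
    exact mem_gadOf_arcs.2 ⟨_, harc i hi hd, rfl⟩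
  · -- first returns
    intro i hi hb
    obtain ⟨hb', hc⟩ := hnext i hi hb
    refine ⟨hb', ?_⟩
    rcases hc with ⟨h1, h2⟩ | (hp | hp) | ⟨t, ht, hc⟩
    · rw [h2]
      exact FR_self TT _ _ (hsgin _ h1)
    · obtain ⟨i1, i2, i3⟩ := hprix _ hp
      exact FR_pair TT _ _ _ (mem_gadOf_B.2 ⟨_, i2, rfl⟩)
        (fun h => i3 (hinj _ i1 _ i2 h)) (hpair _ hp) (hpin _ hp)
    · obtain ⟨i1, i2, i3⟩ := hprix _ hp
      refine FR_pair TT _ _ _ (mem_gadOf_B.2 ⟨_, i1, rfl⟩)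
        (fun h => i3 (hinj _ i1 _ i2 h.symm)) (hpair _ hp).symm ?_
      intro x hx hs
      exact (hpin _ hp x hx ((hpair _ hp).trans hs)).symm
    · obtain ⟨C, ⟨c1, c2, c3⟩, f1, f2, f3⟩ := htr t ht
      have hC : ∀ x ∈ g.B, TT.SameCycle (w t.1) x → x ∈ C := by
        intro x hx hs
        rcases htin t ht x hx hs with h | h | h
        · rw [h]
          exact c1
        · rw [h]
          exact c2
        · rw [h]
          exact c3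
      rcases hc with ⟨e1, e2⟩ | ⟨e1, e2⟩ | ⟨e1, e2⟩ <;> rw [e1, e2]
      · exact f1.grow fun x hx hs => hC x hx hs
      · exact f2.grow fun x hx hs => hC x hx ((ts1 t ht).trans hs)
      · exact f3.grow fun x hx hs => hC x hx ((ts2 t ht).trans hs)
  · intro i hi j hj hb
    exact hfr _ (hmem i hi) _ (hmem j hj) (hal i hi j hj hb)
  · exact hx0
  · exact hx0F
  · exact hz0F
  · exact hrun

/-- direct words -/
theorem gadOfT_abs {R Q B S : BinaryTree Unit} (hR : Q.numNodes + R.numNodes + 2 = k)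
    (hB : Q.numNodes + S.numNodes + B.numNodes + 2 = k)
    {w : ℕ → X k} {idx sg : List ℕ} {pr : List (ℕ × ℕ)} {tr : List (ℕ × ℕ × ℕ)}
    {ar : List (ℕ × ℕ)} {od : List ℕ}
    {A F Z x0 z0 cF : ℕ} {al code : List ℕ}
    (hok : CertOkT idx sg pr tr ar od A F Z x0 z0 al Cert.al)
    (hrun : Abs.run A F Z x0 z0 cF al code [[x0]] = true)
    (hw : ∀ i ∈ idx, (w i).1 = w20 R Q B S i)
    (hinj : ∀ i ∈ idx, ∀ j ∈ idx, w i = w j → i = j)
    (hpair : ∀ p ∈ pr, TT.SameCycle (w p.1) (w p.2))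
    (htr : ∀ t ∈ tr, ∃ C : Finset (X k), (w t.1 ∈ C ∧ w t.2.1 ∈ C ∧ w t.2.2 ∈ C) ∧
      FR TT C (w t.1) (w t.2.1) ∧ FR TT C (w t.2.1) (w t.2.2) ∧ FR TT C (w t.2.2) (w t.1))
    (hsep : ∀ i ∈ rpT sg pr tr, ∀ j ∈ rpT sg pr tr, TT.SameCycle (w i) (w j) → i = j)
    (hold : ∀ i ∈ rpT sg pr tr, ∀ j ∈ od, ¬ TT.SameCycle (w i) (w j)) :
    (gadOf w idx (rpT sg pr tr) ar).Abs :=
  gadOfT_abs_aux (fun i => ((s20 Q.numNodes S.numNodes i : ℕ) : ZMod (2 * k + 1))) hok hrun hinj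
    hpair htr hsep hold fun i hi j hj hb =>
      hfr20_pair hR hB (hok.2.2.1 i hi) (hok.2.2.1 j hj) (hw i hi) (hw j hj) hb

/-- mirrored words -/
theorem gadOfMT_abs {R Q B S : BinaryTree Unit} (hR : Q.numNodes + R.numNodes + 2 = k)
    (hB : Q.numNodes + S.numNodes + B.numNodes + 2 = k)
    {w : ℕ → X k} {idx sg : List ℕ} {pr : List (ℕ × ℕ)} {tr : List (ℕ × ℕ × ℕ)}
    {ar : List (ℕ × ℕ)} {od : List ℕ}
    {A F Z x0 z0 cF : ℕ} {al code : List ℕ}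
    (hok : CertOkT idx sg pr tr ar od A F Z x0 z0 al CertM.al)
    (hrun : Abs.run A F Z x0 z0 cF al code [[x0]] = true)
    (hw : ∀ i ∈ idx, (w i).1 = w20M R Q B S i)
    (hinj : ∀ i ∈ idx, ∀ j ∈ idx, w i = w j → i = j)
    (hpair : ∀ p ∈ pr, TT.SameCycle (w p.1) (w p.2))
    (htr : ∀ t ∈ tr, ∃ C : Finset (X k), (w t.1 ∈ C ∧ w t.2.1 ∈ C ∧ w t.2.2 ∈ C) ∧
      FR TT C (w t.1) (w t.2.1) ∧ FR TT C (w t.2.1) (w t.2.2) ∧ FR TT C (w t.2.2) (w t.1))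
    (hsep : ∀ i ∈ rpT sg pr tr, ∀ j ∈ rpT sg pr tr, TT.SameCycle (w i) (w j) → i = j)
    (hold : ∀ i ∈ rpT sg pr tr, ∀ j ∈ od, ¬ TT.SameCycle (w i) (w j)) :
    (gadOf w idx (rpT sg pr tr) ar).Abs :=
  gadOfT_abs_aux (fun i => ((s20M R.numNodes B.numNodes S.numNodes i : ℕ) : ZMod (2 * k + 1))) hok
    hrun hinj hpair htr hsep hold fun i hi j hj hb =>
      hfr20M_pair hR hB (hok.2.2.1 i hi) (hok.2.2.1 j hj) (hw i hi) (hw j hj) hb

end Pool.OddHC
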