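import Pool.Agent.Work.MP_8f87b2_base.Gad20M

/-!
MP_8f87b2_co: gadgets on a part of the twenty words (`w20` or `w20M`), the words are `w i`, `i ∈ idx`.
-/

set_option autoImplicit false

namespace Pool.OddHC

open Finset BinaryTree Equiv

variable {k : ℕ}

theorem hfr20_pair {R Q B S : BinaryTree Unit} (hR : Q.numNodes + R.numNodes + 2 = k)
    (hB : Q.numNodes + S.numNodes + B.numNodes + 2 = k) {i j : ℕ} (hi : i < 20) (hj : j < 20) {u v : X k}
    (hu : u.1 = w20 R Q B S i) (hv : v.1 = w20 R Q B S j) (hb : Abs.bit (Cert.al.getD i 0) j = true) :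
    io u ((s20 Q.numNodes S.numNodes i : ℕ) : ZMod (2 * k + 1)) ⊆
      insert ((s20 Q.numNodes S.numNodes j : ℕ) : ZMod (2 * k + 1))
        (io v ((s20 Q.numNodes S.numNodes j : ℕ) : ZMod (2 * k + 1))) := by
  rcases al20_cases ⟨i, hi⟩ ⟨j, hj⟩ hb with ⟨h1, h2, h3⟩ | ⟨h1, h2, h3⟩
  · have h1' : i < 10 := h1
    have h2' : j < 10 := h2
    have h4 := block_al (k := k) .nil Q .nil .nil R (by
      change 0 + Q.numNodes + 0 + 0 + R.numNodes + 2 = k
      omega) h1' h2' (by rw [hu, w20, if_pos h1']) (by rw [hv, w20, if_pos h2']) h3 0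
    unfold s20
    rw [if_pos h1', if_pos h2']
    rw [zero_add, zero_add] at h4
    exact h4
  · have h1' : 10 ≤ i := h1
    have h2' : 10 ≤ j := h2
    have h4 := block_al (k := k) .nil Q .nil S B (by
      change 0 + Q.numNodes + 0 + S.numNodes + B.numNodes + 2 = k
      omega) (show i - 10 < 10 by omega) (show j - 10 < 10 by omega)
      (by rw [hu, w20, if_neg (by omega)]) (by rw [hv, w20, if_neg (by omega)]) h3 0
    unfold s20
    rw [if_neg (by omega), if_neg (by omega)]
    rw [zero_add, zero_add] at h4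
    exact h4

theorem hfr20M_pair {R Q B S : BinaryTree Unit} (hR : Q.numNodes + R.numNodes + 2 = k)
    (hB : Q.numNodes + S.numNodes + B.numNodes + 2 = k) {i j : ℕ} (hi : i < 20) (hj : j < 20) {u v : X k}
    (hu : u.1 = w20M R Q B S i) (hv : v.1 = w20M R Q B S j)
    (hb : Abs.bit (CertM.al.getD i 0) j = true) :
    io u ((s20M R.numNodes B.numNodes S.numNodes i : ℕ) : ZMod (2 * k + 1)) ⊆
      insert ((s20M R.numNodes B.numNodes S.numNodes j : ℕ) : ZMod (2 * k + 1))
        (io v ((s20M R.numNodes B.numNodes S.numNodes j : ℕ) : ZMod (2 * k + 1))) := by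
  rcases al20M_cases ⟨i, hi⟩ ⟨j, hj⟩ hb with ⟨h1, h2, h3⟩ | ⟨h1, h2, h3⟩
  · have h1' : i < 10 := h1
    have h2' : j < 10 := h2
    have h4 := block_al (k := k) .nil R .nil .nil Q (by
      change 0 + R.numNodes + 0 + 0 + Q.numNodes + 2 = k
      omega) (ix20_lt i) (ix20_lt j) (by rw [hu, w20M, if_pos h1'])
      (by rw [hv, w20M, if_pos h2']) h3 0
    unfold s20M
    rw [if_pos h1', if_pos h2']
    rw [zero_add, zero_add] at h4
    exact h4
  · have h1' : 10 ≤ i := h1
    have h2' : 10 ≤ j := h2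
    have h4 := block_al (k := k) .nil B S .nil Q (by
      change 0 + B.numNodes + S.numNodes + 0 + Q.numNodes + 2 = k
      omega) (ix20_lt (i - 10)) (ix20_lt (j - 10))
      (by rw [hu, w20M, if_neg (by omega)]) (by rw [hv, w20M, if_neg (by omega)]) h3 0
    unfold s20M
    rw [if_neg (by omega), if_neg (by omega)]
    rw [zero_add, zero_add] at h4
    exact h4

/-- a certificate on the words `w i`, `i ∈ idx` -/
theorem cert_sub (g : DG k) (idx : List ℕ) (w : ℕ → X k) (s : ℕ → ZMod (2 * k + 1))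
    (A F Z x0 z0 cF : ℕ) (al code : List ℕ) (hlen : al.length = idx.length) (hnd : idx.Nodup)
    (hgB : ∀ x, x ∈ g.B ↔ ∃ i ∈ idx, w i = x)
    (hinj : ∀ i ∈ idx, ∀ j ∈ idx, w i = w j → i = j)
    (hF : ∀ i < idx.length, (w (idx.getD i 0) ∈ g.F ↔ Abs.bit F i = true))
    (hFN : ∀ i, Abs.bit F i = true → i < idx.length)
    (hFc : ∀ x y, TT.SameCycle x y → x ∈ g.F → y ∈ g.F)
    (harc : ∀ i < idx.length, Abs.dig A i < idx.length →
      (w (idx.getD i 0), w (idx.getD (Abs.dig A i) 0)) ∈ g.arcs)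
    (hZ : ∀ i < idx.length, Abs.bit F i = true → Abs.bit F (Abs.dig Z i) = true ∧
      FR TT g.B (w (idx.getD i 0)) (w (idx.getD (Abs.dig Z i) 0)))
    (hfr : ∀ i < idx.length, ∀ j < idx.length, Abs.bit (al.getD i 0) j = true →
      io (w (idx.getD i 0)) (s (idx.getD i 0)) ⊆
        insert (s (idx.getD j 0)) (io (w (idx.getD j 0)) (s (idx.getD j 0))))
    (hx0N : x0 < idx.length) (hx0F : Abs.bit F x0 = false) (hz0F : Abs.bit F z0 = true)
    (hrun : Abs.run A F Z x0 z0 cF al code [[x0]] = true) : g.Abs := by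
  have hmem : ∀ i < idx.length, idx.getD i 0 ∈ idx := by
    intro i hi
    rw [List.getD_eq_getElem _ _ hi]
    exact List.getElem_mem hi
  apply Abs.cert_abs g (fun i => w (idx.getD i 0)) (fun i => s (idx.getD i 0)) A F Z x0 z0 cF al code
  · intro x
    rw [hgB, hlen]
    constructor
    · rintro ⟨i, hi, rfl⟩
      obtain ⟨j, hj, rfl⟩ := List.getElem_of_mem hi
      refine ⟨j, hj, ?_⟩
      rw [List.getD_eq_getElem _ _ hj]
    · rintro ⟨i, hi, rfl⟩
      exact ⟨_, hmem i hi, rfl⟩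
  · intro i hi j hj h
    rw [hlen] at hi hj
    have h1 := hinj _ (hmem i hi) _ (hmem j hj) h
    rw [List.getD_eq_getElem _ _ hi, List.getD_eq_getElem _ _ hj] at h1
    exact (List.Nodup.getElem_inj_iff hnd).1 h1
  · intro i hi
    exact hF i (hlen ▸ hi)
  · intro i hi
    rw [hlen]
    exact hFN i hi
  · exact hFc
  · intro i hi hd
    exact harc i (hlen ▸ hi) (hlen ▸ hd)
  · intro i hi
    exact hZ i (hFN i hi) hi
  · intro i hi j hj h
    exact hfr i (hlen ▸ hi) j (hlen ▸ hj) h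
  · rw [hlen]; exact hx0N
  · exact hx0F
  · exact hz0F
  · exact hrun

/-- bits of a number below `2 ^ n` -/
theorem bit_small {F n : ℕ} (hF : F < 2 ^ n) (i : ℕ) (h : Abs.bit F i = true) : i < n := by
  by_contra h2
  rw [Abs.bit_eq] at h
  have h3 : F < 2 ^ i := lt_of_lt_of_le hF (Nat.pow_le_pow_right (by norm_num) (by omega))
  rw [Nat.testBit_lt_two_pow h3] at h
  exact absurd h (by simp)

end Pool.OddHC
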